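import Mathlib

/-!
# Twisted traces and crossed products with a finite cyclic group

A ring `B` with an action `σ` of the cyclic group `ZMod P`, and an additive map `t : B → M` with
`t (a b) = t (b σ₁(a))`.  The function `lam w`, defined if `1 + ∑ σ_c(w)` is a unit, is the value
of the Hochschild cocycle `f` on the unit `1 + w N`, `N = ∑ σ^c`, of the crossed product.
-/

namespace Pool.Agent.Y69.Cyc

open Matrix Finset

structure CycData (P : ℕ) [NeZero P] (B M : Type*) [Ring B] [AddCommGroup M]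
    [Module (ZMod P) M] where
  σ : ZMod P → B →+* B
  σ_zero : ∀ b, σ 0 b = b
  σ_add : ∀ c d b, σ (c + d) b = σ c (σ d b)
  t : B →+ M
  t_comm : ∀ a b, t (a * b) = t (b * σ 1 a)

variable {P : ℕ} [NeZero P] {B M : Type*} [Ring B] [AddCommGroup M] [Module (ZMod P) M]

namespace CycData

variable (S : CycData P B M)

theorem t_sigma_one (a : B) : S.t (S.σ 1 a) = S.t a := by
  have h := S.t_comm a 1
  rw [mul_one, one_mul] at h
  exact h.symm

theorem t_sigma_nat (n : ℕ) (a : B) : S.t (S.σ (n : ZMod P) a) = S.t a := by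
  induction n with
  | zero => rw [Nat.cast_zero, S.σ_zero]
  | succ n ih => rw [Nat.cast_succ, add_comm, S.σ_add, t_sigma_one, ih]

theorem t_sigma (c : ZMod P) (a : B) : S.t (S.σ c a) = S.t a := by
  rw [← ZMod.natCast_zmod_val c]
  exact S.t_sigma_nat _ a

/-- invariant elements -/
def Inv (r : B) : Prop := ∀ c, S.σ c r = r

theorem Inv.one : S.Inv 1 := fun _ => map_one _

theorem Inv.mul {S : CycData P B M} {r s : B} (hr : S.Inv r) (hs : S.Inv s) : S.Inv (r * s) :=
  fun c => by rw [map_mul, hr, hs]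

theorem Inv.add {S : CycData P B M} {r s : B} (hr : S.Inv r) (hs : S.Inv s) : S.Inv (r + s) :=
  fun c => by rw [map_add, hr, hs]

theorem Inv.sub {S : CycData P B M} {r s : B} (hr : S.Inv r) (hs : S.Inv s) : S.Inv (r - s) :=
  fun c => by rw [map_sub, hr, hs]

/-- the norm -/
def Nm (b : B) : B := ∑ c, S.σ c b

theorem Nm_inv (b : B) : S.Inv (S.Nm b) := by
  intro c
  unfold Nm
  rw [map_sum]
  simp only [← S.σ_add]
  exact Fintype.sum_equiv (Equiv.addLeft c) _ _ fun x => rfl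

theorem Nm_sigma (c : ZMod P) (b : B) : S.Nm (S.σ c b) = S.Nm b := by
  unfold Nm
  simp only [← S.σ_add]
  exact Fintype.sum_equiv (Equiv.addRight c) _ _ fun x => rfl

theorem Nm_add (a b : B) : S.Nm (a + b) = S.Nm a + S.Nm b := by
  unfold Nm; simp only [map_add, Finset.sum_add_distrib]

theorem Nm_sub (a b : B) : S.Nm (a - b) = S.Nm a - S.Nm b := by
  unfold Nm; simp only [map_sub, Finset.sum_sub_distrib]

theorem Nm_mul_inv (a : B) {r : B} (hr : S.Inv r) : S.Nm (a * r) = S.Nm a * r := by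
  unfold Nm
  rw [Finset.sum_mul]
  exact Finset.sum_congr rfl fun c _ => by rw [map_mul, hr]

theorem Nm_inv_mul (a : B) {r : B} (hr : S.Inv r) : S.Nm (r * a) = r * S.Nm a := by
  unfold Nm
  rw [Finset.mul_sum]
  exact Finset.sum_congr rfl fun c _ => by rw [map_mul, hr]

theorem inverse_inv {x : B} (hx : S.Inv x) : S.Inv (Ring.inverse x) := by
  by_cases h : IsUnit x
  · intro c
    have h1 : S.σ c (Ring.inverse x) * x = 1 := by
      calc S.σ c (Ring.inverse x) * x = S.σ c (Ring.inverse x) * S.σ c x := by rw [hx c]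
        _ = 1 := by rw [← map_mul, Ring.inverse_mul_cancel _ h, map_one]
    calc S.σ c (Ring.inverse x) = S.σ c (Ring.inverse x) * (x * Ring.inverse x) := by
          rw [Ring.mul_inverse_cancel _ h, mul_one]
      _ = Ring.inverse x := by rw [← mul_assoc, h1, one_mul]
  · rw [Ring.inverse_non_unit _ h]
    intro c
    rw [map_zero]

/-- equivariant matrices -/
def Eqv (X : Matrix (ZMod P) (ZMod P) B) : Prop := ∀ a b c, X (a + c) (b + c) = S.σ c (X a b)

variable {S}

theorem Eqv.mul {X Y : Matrix (ZMod P) (ZMod P) B} (hX : S.Eqv X) (hY : S.Eqv Y) :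
    S.Eqv (X * Y) := by
  intro a b c
  rw [Matrix.mul_apply, Matrix.mul_apply, map_sum]
  refine (Fintype.sum_equiv (Equiv.addRight c) _ _ fun x => ?_).symm
  rw [map_mul]
  show _ = X (a + c) (x + c) * Y (x + c) (b + c)
  rw [hX, hY]

theorem Eqv.add {X Y : Matrix (ZMod P) (ZMod P) B} (hX : S.Eqv X) (hY : S.Eqv Y) :
    S.Eqv (X + Y) := by
  intro a b c
  rw [Matrix.add_apply, Matrix.add_apply, map_add, hX, hY]

theorem Eqv.sub {X Y : Matrix (ZMod P) (ZMod P) B} (hX : S.Eqv X) (hY : S.Eqv Y) :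
    S.Eqv (X - Y) := by
  intro a b c
  rw [Matrix.sub_apply, Matrix.sub_apply, map_sub, hX, hY]

variable (S)

theorem Eqv.one : S.Eqv (1 : Matrix (ZMod P) (ZMod P) B) := by
  intro a b c
  by_cases h : a = b
  · subst h; simp
  · rw [Matrix.one_apply_ne h, Matrix.one_apply_ne (by simpa using h), map_zero]

/-- the Hochschild cocycle -/
def f (X Y : Matrix (ZMod P) (ZMod P) B) : M := ∑ b, (1 - b : ZMod P) • S.t (X 0 b * Y b 1)

theorem f_add_right (X Y Z : Matrix (ZMod P) (ZMod P) B) :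
    S.f X (Y + Z) = S.f X Y + S.f X Z := by
  unfold f
  rw [← Finset.sum_add_distrib]
  refine Finset.sum_congr rfl fun b _ => ?_
  rw [Matrix.add_apply, mul_add, map_add, smul_add]

theorem f_one_right (X : Matrix (ZMod P) (ZMod P) B) : S.f X 1 = 0 := by
  unfold f
  refine Finset.sum_eq_zero fun b _ => ?_
  by_cases h : b = 1
  · rw [h, sub_self, zero_smul]
  · rw [Matrix.one_apply_ne h, mul_zero, map_zero, smul_zero]

theorem f_zero_right (X : Matrix (ZMod P) (ZMod P) B) : S.f X 0 = 0 := by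
  unfold f
  refine Finset.sum_eq_zero fun b _ => ?_
  rw [Matrix.zero_apply, mul_zero, map_zero, smul_zero]

variable {S}

theorem coc {x y z : Matrix (ZMod P) (ZMod P) B} (hx : S.Eqv x) (hy : S.Eqv y) (hz : S.Eqv z) :
    S.f (x * y) z + S.f (z * x) y = S.f x (y * z) := by
  have e1 : S.f (x * y) z =
      ∑ b, ∑ c, (1 - c : ZMod P) • S.t (x 0 b * y b c * z c 1) := by
    unfold f
    rw [Finset.sum_comm]
    refine Finset.sum_congr rfl fun c _ => ?_
    rw [Matrix.mul_apply, Finset.sum_mul, map_sum, Finset.smul_sum]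
  have e3 : S.f x (y * z) =
      ∑ b, ∑ c, (1 - b : ZMod P) • S.t (x 0 b * y b c * z c 1) := by
    unfold f
    refine Finset.sum_congr rfl fun b _ => ?_
    rw [Matrix.mul_apply, Finset.mul_sum, map_sum, Finset.smul_sum]
    refine Finset.sum_congr rfl fun c _ => ?_
    rw [mul_assoc]
  have e2 : S.f (z * x) y =
      ∑ b, ∑ c, (c - b : ZMod P) • S.t (x 0 b * y b c * z c 1) := by
    have h1 : S.f (z * x) y =
        ∑ b, ∑ c, (1 - b : ZMod P) • S.t (x 0 (b - c) * y (b - c) (1 - c) * z (1 - c) 1) := by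
      unfold f
      refine Finset.sum_congr rfl fun b _ => ?_
      rw [Matrix.mul_apply, Finset.sum_mul, map_sum, Finset.smul_sum]
      refine Finset.sum_congr rfl fun c _ => ?_
      congr 1
      rw [mul_assoc, S.t_comm, ← S.t_sigma (-c)]
      have h2 := hz 0 c 1
      have h3 := hx c b (-c)
      have h4 := hy b 1 (-c)
      have h5 := hz 1 (c + 1) (-c)
      have e0 : (0 : ZMod P) + 1 = 1 := by ring
      have e1 : c + -c = 0 := by ring
      have e2 : b + -c = b - c := by ring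
      have e3 : (1 : ZMod P) + -c = 1 - c := by ring
      have e4 : c + 1 + -c = 1 := by ring
      rw [RingHom.map_mul (S.σ (-c)), RingHom.map_mul (S.σ (-c)), ← h3, ← h4, ← h2, e0, ← h5,
        e1, e2, e3, e4]
    rw [h1]
    rw [← Finset.sum_product', ← Finset.sum_product']
    refine Finset.sum_nbij' (fun p => (p.1 - p.2, 1 - p.2)) (fun p => (p.1 + (1 - p.2), 1 - p.2))
      ?_ ?_ ?_ ?_ ?_
    · intro p _; simp
    · intro p _; simp
    · rintro ⟨b, c⟩ _
      simp
    · rintro ⟨b, c⟩ _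
      simp
    · rintro ⟨b, c⟩ _
      simp only
      congr 1
      ring
  rw [e1, e2, e3, ← Finset.sum_add_distrib]
  refine Finset.sum_congr rfl fun b _ => ?_
  rw [← Finset.sum_add_distrib]
  refine Finset.sum_congr rfl fun c _ => ?_
  rw [← add_smul]
  congr 1
  ring

/-- `(Y', Y)` is a pair of mutually inverse equivariant matrices -/
structure Pair (S : CycData P B M) (Y' Y : Matrix (ZMod P) (ZMod P) B) : Prop where
  eqv : S.Eqv Y
  eqv' : S.Eqv Y'
  mul : Y * Y' = 1
  mul' : Y' * Y = 1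

theorem Pair.mul_pair {Y' Y Z' Z : Matrix (ZMod P) (ZMod P) B} (hY : Pair S Y' Y)
    (hZ : Pair S Z' Z) : Pair S (Z' * Y') (Y * Z) where
  eqv := hY.eqv.mul hZ.eqv
  eqv' := hZ.eqv'.mul hY.eqv'
  mul := by
    rw [Matrix.mul_assoc, ← Matrix.mul_assoc Z, hZ.mul, Matrix.one_mul, hY.mul]
  mul' := by
    rw [Matrix.mul_assoc, ← Matrix.mul_assoc Y', hY.mul', Matrix.one_mul, hZ.mul']

theorem Pair.symm {Y' Y : Matrix (ZMod P) (ZMod P) B} (hY : Pair S Y' Y) : Pair S Y Y' :=
  ⟨hY.eqv', hY.eqv, hY.mul', hY.mul⟩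

theorem D_mul {Y' Y Z' Z : Matrix (ZMod P) (ZMod P) B} (hY : Pair S Y' Y)
    (hZ : Pair S Z' Z) : S.f (Z' * Y') (Y * Z) = S.f Y' Y + S.f Z' Z := by
  have h := coc (hZ.eqv'.mul hY.eqv') hY.eqv hZ.eqv
  rw [← h, Matrix.mul_assoc, hY.mul', Matrix.mul_one, ← Matrix.mul_assoc, hZ.mul, Matrix.one_mul,
    add_comm]

theorem D_inv {Y' Y : Matrix (ZMod P) (ZMod P) B} (hY : Pair S Y' Y) :
    S.f Y' Y + S.f Y Y' = 0 := by
  rw [← D_mul hY hY.symm, hY.mul, S.f_one_right]

theorem D_one_add {a b : Matrix (ZMod P) (ZMod P) B} (ha : S.Eqv a) (hb : S.Eqv b)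
    (hab : b * a = 0) : S.f (1 - a * b) (1 + a * b) = 0 := by
  have h1 := coc ((Eqv.one S).sub (ha.mul hb)) ha hb
  have h2 : (1 - a * b) * a = a := by
    rw [Matrix.sub_mul, Matrix.one_mul, Matrix.mul_assoc, hab, Matrix.mul_zero, sub_zero]
  have h3 : b * (1 - a * b) = b := by
    rw [Matrix.mul_sub, Matrix.mul_one, ← Matrix.mul_assoc, hab, Matrix.zero_mul, sub_zero]
  rw [h2, h3] at h1
  have h4 := coc (Eqv.one S) hb ha
  rw [Matrix.one_mul, Matrix.mul_one, hab, S.f_zero_right] at h4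
  rw [S.f_add_right, S.f_one_right, zero_add, ← h1, add_comm, h4]

variable (S)

/-- the matrix of `w N` -/
def Wm (w : B) : Matrix (ZMod P) (ZMod P) B := Matrix.of fun a _ => S.σ a w

theorem Wm_eqv (w : B) : S.Eqv (S.Wm w) := by
  intro a b c
  show S.σ (a + c) w = S.σ c (S.σ a w)
  rw [add_comm, S.σ_add]

theorem Wm_add (w v : B) : S.Wm (w + v) = S.Wm w + S.Wm v := by
  ext a b
  simp [Wm]

theorem Wm_sub (w v : B) : S.Wm (w - v) = S.Wm w - S.Wm v := by
  ext a b
  simp [Wm]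

theorem Wm_mul (w v : B) : S.Wm w * S.Wm v = S.Wm (w * S.Nm v) := by
  ext a b
  rw [Matrix.mul_apply]
  show ∑ c, S.σ a w * S.σ c v = S.σ a (w * S.Nm v)
  rw [map_mul, S.Nm_inv v a, ← Finset.mul_sum]
  rfl

/-- the scalar matrix of an element of the base ring -/
def Dg (u : B) : Matrix (ZMod P) (ZMod P) B := Matrix.diagonal fun a => S.σ a u

theorem Dg_eqv (u : B) : S.Eqv (S.Dg u) := by
  intro a b c
  unfold Dg
  by_cases h : a = b
  · subst h
    rw [Matrix.diagonal_apply_eq, Matrix.diagonal_apply_eq, add_comm, S.σ_add]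
  · rw [Matrix.diagonal_apply_ne _ h, Matrix.diagonal_apply_ne _ (by simpa using h), map_zero]

/-- the all ones matrix -/
def J (P : ℕ) (B : Type*) [Ring B] : Matrix (ZMod P) (ZMod P) B := Matrix.of fun _ _ => 1

theorem J_eqv : S.Eqv (J P B) := by
  intro a b c
  show (1 : B) = S.σ c 1
  rw [map_one]

/-- the permutation matrix of the generator -/
def Sg (P : ℕ) (B : Type*) [Ring B] : Matrix (ZMod P) (ZMod P) B :=
  Matrix.of fun a b => if b = a + 1 then 1 else 0

theorem Sg_eqv : S.Eqv (Sg P B) := by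
  intro a b c
  show (if b + c = a + c + 1 then (1 : B) else 0) = S.σ c (if b = a + 1 then 1 else 0)
  by_cases h : b = a + 1
  · rw [if_pos h, if_pos (by rw [h]; ring), map_one]
  · rw [if_neg h, if_neg (fun h' => h (by linear_combination h')), map_zero]

theorem Wm_diff (u : B) : S.Wm (S.σ 1 u - u) = (Sg P B - 1) * S.Dg u * J P B := by
  ext a b
  have h1 : (S.Dg u * J P B) = S.Wm u := by
    ext a b
    rw [Dg, Matrix.diagonal_mul]
    simp [J, Wm]
  rw [Matrix.mul_assoc, h1, Matrix.sub_mul, Matrix.one_mul, S.Wm_sub, Matrix.sub_apply,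
    Matrix.sub_apply, Matrix.mul_apply]
  congr 1
  show S.σ a (S.σ 1 u) = ∑ j, (if j = a + 1 then (1 : B) else 0) * S.σ j u
  simp [S.σ_add]

theorem J_mul_Wm (v : B) : J P B * S.Wm v = Matrix.of fun _ _ => S.Nm v := by
  ext a b
  rw [Matrix.mul_apply]
  simp [J, Wm, Nm]

theorem const_mul (c : B) : (Matrix.of fun _ _ => c : Matrix (ZMod P) (ZMod P) B) *
    (Sg P B - 1) = 0 := by
  rw [Matrix.mul_sub, Matrix.mul_one, sub_eq_zero]
  ext a b
  rw [Matrix.mul_apply]
  simp only [Matrix.of_apply, Sg]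
  rw [Finset.sum_eq_single (b - 1)]
  · simp
  · intro x _ hx
    rw [if_neg, mul_zero]
    intro h
    apply hx
    rw [h]; ring
  · simp

/-- the inverse of `1 + N(w)` -/
noncomputable def si (w : B) : B := Ring.inverse (1 + S.Nm w)

theorem si_inv (w : B) : S.Inv (S.si w) :=
  S.inverse_inv ((Inv.one S).add (S.Nm_inv w))

/-- the basic invariant -/
noncomputable def lam (w : B) : M := S.f (1 - S.Wm (w * S.si w)) (1 + S.Wm w)

theorem pair_W {w : B} (h : IsUnit (1 + S.Nm w)) :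
    Pair S (1 - S.Wm (w * S.si w)) (1 + S.Wm w) where
  eqv := (Eqv.one S).add (S.Wm_eqv w)
  eqv' := (Eqv.one S).sub (S.Wm_eqv _)
  mul := by
    have h1 : (1 + S.Nm w) * S.si w = 1 := Ring.mul_inverse_cancel _ h
    have h2 : w * S.Nm (w * S.si w) = w - w * S.si w := by
      rw [S.Nm_mul_inv w (S.si_inv w)]
      have : S.Nm w * S.si w = 1 - S.si w := by
        rw [eq_sub_iff_add_eq, ← h1]; noncomm_ring
      rw [this]; noncomm_ring
    rw [Matrix.mul_sub, Matrix.mul_one, Matrix.add_mul, Matrix.one_mul, S.Wm_mul, h2, S.Wm_sub]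
    abel
  mul' := by
    have h1 : S.si w * (1 + S.Nm w) = 1 := Ring.inverse_mul_cancel _ h
    have h2 : w * S.si w * S.Nm w = w - w * S.si w := by
      have : S.si w * S.Nm w = 1 - S.si w := by
        rw [eq_sub_iff_add_eq, ← h1]; noncomm_ring
      rw [mul_assoc, this]; noncomm_ring
    rw [Matrix.sub_mul, Matrix.one_mul, Matrix.mul_add, Matrix.mul_one, S.Wm_mul, h2, S.Wm_sub]
    abel

/-- `lam` only depends on the matrix `1 + W` -/
theorem lam_eq_of_pair {w : B} (h : IsUnit (1 + S.Nm w)) {Y' : Matrix (ZMod P) (ZMod P) B}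
    (hY : Y' * (1 + S.Wm w) = 1) : S.f Y' (1 + S.Wm w) = S.lam w := by
  have h1 := S.pair_W h
  have : Y' = 1 - S.Wm (w * S.si w) := by
    calc Y' = Y' * ((1 + S.Wm w) * (1 - S.Wm (w * S.si w))) := by rw [h1.mul, Matrix.mul_one]
      _ = _ := by rw [← Matrix.mul_assoc, hY, Matrix.one_mul]
  rw [this]
  rfl

theorem Nm_star (w v : B) : 1 + S.Nm (w + v + w * S.Nm v) = (1 + S.Nm w) * (1 + S.Nm v) := by
  rw [S.Nm_add, S.Nm_add, S.Nm_mul_inv w (S.Nm_inv v)]
  noncomm_ring

theorem lam_star {w v : B} (hw : IsUnit (1 + S.Nm w)) (hv : IsUnit (1 + S.Nm v)) :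
    S.lam (w + v + w * S.Nm v) = S.lam w + S.lam v := by
  have h1 := S.pair_W hw
  have h2 := S.pair_W hv
  have h3 : (1 + S.Wm w) * (1 + S.Wm v) = 1 + S.Wm (w + v + w * S.Nm v) := by
    rw [Matrix.mul_add, Matrix.mul_one, Matrix.add_mul, Matrix.one_mul, S.Wm_mul, S.Wm_add,
      S.Wm_add]
    abel
  have h4 : IsUnit (1 + S.Nm (w + v + w * S.Nm v)) := by
    rw [S.Nm_star]; exact hw.mul hv
  rw [← S.lam_eq_of_pair h4 (Y' := (1 - S.Wm (v * S.si v)) * (1 - S.Wm (w * S.si w)))]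
  · rw [← h3, D_mul h1 h2]
    rfl
  · rw [← h3]
    exact (h1.mul_pair h2).mul'

theorem lam_diff {w : B} (hw : IsUnit (1 + S.Nm w)) (u : B) :
    S.lam (w + (S.σ 1 u - u)) = S.lam w := by
  have h1 := S.pair_W hw
  set Y' := 1 - S.Wm (w * S.si w) with hY'
  set a := Y' * ((Sg P B - 1) * S.Dg u) with ha
  have hae : S.Eqv a := h1.eqv'.mul (((S.Sg_eqv).sub (Eqv.one S)).mul (S.Dg_eqv u))
  have hba : J P B * a = 0 := by
    have h2 : J P B * Y' = Matrix.of fun _ _ => (1 - S.Nm (w * S.si w)) := by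
      rw [hY', Matrix.mul_sub, Matrix.mul_one, S.J_mul_Wm]
      ext a b
      simp [J]
    rw [ha, ← Matrix.mul_assoc, ← Matrix.mul_assoc, h2, const_mul, Matrix.zero_mul]
  have h5 : (1 + S.Wm w) * (1 + a * J P B) = 1 + S.Wm (w + (S.σ 1 u - u)) := by
    rw [Matrix.mul_add, Matrix.mul_one, ha, Matrix.mul_assoc, ← Matrix.mul_assoc _ Y', h1.mul,
      Matrix.one_mul, ← S.Wm_diff, S.Wm_add w]
    abel
  have h6 : Pair S (1 - a * J P B) (1 + a * J P B) := by
    have h7 : a * J P B * (a * J P B) = 0 := by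
      rw [Matrix.mul_assoc, ← Matrix.mul_assoc (J P B), hba, Matrix.zero_mul, Matrix.mul_zero]
    refine ⟨(Eqv.one S).add (hae.mul S.J_eqv), (Eqv.one S).sub (hae.mul S.J_eqv), ?_, ?_⟩
    · rw [Matrix.mul_sub, Matrix.mul_one, Matrix.add_mul, Matrix.one_mul, h7]; abel
    · rw [Matrix.mul_add, Matrix.mul_one, Matrix.sub_mul, Matrix.one_mul, h7]; abel
  have h8 : S.Nm (w + (S.σ 1 u - u)) = S.Nm w := by
    rw [S.Nm_add, S.Nm_sub, S.Nm_sigma, sub_self, add_zero]
  rw [← S.lam_eq_of_pair (w := w + (S.σ 1 u - u)) (by rw [h8]; exact hw)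
    (Y' := (1 - a * J P B) * Y')]
  · rw [← h5, D_mul h1 h6, D_one_add hae S.J_eqv hba, add_zero]
    rfl
  · rw [← h5]
    exact (h1.mul_pair h6).mul'

theorem lam_conj {w x x' : B} (hw : IsUnit (1 + S.Nm w)) (hx : S.Inv x) (hx' : S.Inv x')
    (h1 : x * x' = 1) (h2 : x' * x = 1) : S.lam (x * w * x') = S.lam w := by
  have hX : Pair S (S.Dg x') (S.Dg x) := by
    refine ⟨S.Dg_eqv x, S.Dg_eqv x', ?_, ?_⟩
    · unfold Dg
      rw [Matrix.diagonal_mul_diagonal]
      simp only [← map_mul, h1, map_one, Matrix.diagonal_one]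
    · unfold Dg
      rw [Matrix.diagonal_mul_diagonal]
      simp only [← map_mul, h2, map_one, Matrix.diagonal_one]
  have h3 : S.Dg x * (1 + S.Wm w) * S.Dg x' = 1 + S.Wm (x * w * x') := by
    rw [Matrix.mul_add, Matrix.add_mul, Matrix.mul_one, hX.mul]
    congr 1
    ext a b
    unfold Dg
    rw [Matrix.mul_diagonal, Matrix.diagonal_mul]
    simp only [Wm, Matrix.of_apply, map_mul]
    rw [hx' b, hx' a]
  have h4 := S.pair_W hw
  have h5 : S.Nm (x * w * x') = x * S.Nm w * x' := by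
    rw [S.Nm_mul_inv _ hx', S.Nm_inv_mul _ hx]
  have h6 : IsUnit (1 + S.Nm (x * w * x')) := by
    have : 1 + S.Nm (x * w * x') = x * (1 + S.Nm w) * x' := by
      rw [h5, mul_add, add_mul, mul_one, h1]
    rw [this]
    have ux : IsUnit x := ⟨⟨x, x', h1, h2⟩, rfl⟩
    have ux' : IsUnit x' := ⟨⟨x', x, h2, h1⟩, rfl⟩
    exact (ux.mul hw).mul ux'
  have h7 := (hX.mul_pair h4).mul_pair hX.symm
  rw [← S.lam_eq_of_pair h6 (Y' := S.Dg x * ((1 - S.Wm (w * S.si w)) * S.Dg x'))]
  · rw [← h3, D_mul (hX.mul_pair h4) hX.symm, D_mul hX h4]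
    have := D_inv hX
    have e : S.f (S.Dg x') (S.Dg x) + S.f (1 - S.Wm (w * S.si w)) (1 + S.Wm w) +
      S.f (S.Dg x) (S.Dg x') = (S.f (S.Dg x') (S.Dg x) + S.f (S.Dg x) (S.Dg x')) +
        S.f (1 - S.Wm (w * S.si w)) (1 + S.Wm w) := by abel
    rw [e, this, zero_add]
    rfl
  · rw [← h3]
    exact h7.mul'

theorem lam_zero : S.lam 0 = 0 := by
  unfold lam
  have : S.Wm (0 : B) = 0 := by ext a b; simp [Wm]
  rw [this, add_zero, S.f_one_right]

/-- explicit formula for `lam` -/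
theorem lam_formula (h1 : (1 : ZMod P) ≠ 0) (w : B) :
    S.lam w = S.t w - ∑ b, (1 - b : ZMod P) • S.t (w * S.si w * S.σ b w) := by
  unfold lam f
  have : ∀ b : ZMod P, (1 - b) • S.t ((1 - S.Wm (w * S.si w)) 0 b * (1 + S.Wm w) b 1) =
      (if b = 0 then S.t w else 0) - (1 - b) • S.t (w * S.si w * S.σ b w) := by
    intro b
    rw [Matrix.sub_apply, Matrix.add_apply]
    have e1 : S.Wm (w * S.si w) 0 b = w * S.si w := by
      show S.σ 0 _ = _
      rw [S.σ_zero]
    have e2 : S.Wm w b 1 = S.σ b w := rfl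
    rw [e1, e2]
    by_cases hb0 : b = 0
    · subst hb0
      rw [Matrix.one_apply_eq, Matrix.one_apply_ne h1.symm, if_pos rfl, S.σ_zero, zero_add,
        sub_mul, one_mul, map_sub, smul_sub, sub_zero, one_smul, one_smul]
    · rw [Matrix.one_apply_ne (Ne.symm hb0), if_neg hb0, zero_sub, zero_sub]
      by_cases hb1 : b = 1
      · rw [hb1, sub_self, zero_smul, zero_smul, neg_zero]
      · rw [Matrix.one_apply_ne hb1, zero_add, neg_mul, map_neg, smul_neg]
  simp only [this]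
  rw [Finset.sum_sub_distrib]
  simp

theorem Nm_map {B' : Type*} [Ring B'] (S' : CycData P B' M) (g : B' →+* B)
    (hσ : ∀ c b, g (S'.σ c b) = S.σ c (g b)) (w : B') : g (S'.Nm w) = S.Nm (g w) := by
  unfold Nm
  rw [map_sum]
  exact Finset.sum_congr rfl fun c _ => hσ c w

theorem lam_map {B' : Type*} [Ring B'] (S' : CycData P B' M) (g : B' →+* B)
    (hσ : ∀ c b, g (S'.σ c b) = S.σ c (g b)) (ht : ∀ b, S'.t b = S.t (g b)) {w : B'}
    (h : IsUnit (1 + S'.Nm w)) : S'.lam w = S.lam (g w) := by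
  have h1 : g (S'.si w) = S.si (g w) := by
    unfold si
    rw [← S.Nm_map S' g hσ, ← map_one g, ← map_add]
    obtain ⟨u, hu⟩ := h
    rw [← hu, Ring.inverse_unit]
    have h2 : g (u : B') = ((Units.map (g : B' →* B) u : Bˣ) : B) := rfl
    rw [h2, Ring.inverse_unit]
    rfl
  unfold lam f
  refine Finset.sum_congr rfl fun b _ => ?_
  rw [ht, map_mul]
  congr 2
  rw [Matrix.sub_apply, Matrix.add_apply, Matrix.sub_apply, Matrix.add_apply]
  simp only [Wm, Matrix.of_apply]
  rw [map_sub, map_add, hσ, hσ, map_mul, h1]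
  congr 1
  · congr 1
    by_cases hb : 0 = b
    · rw [hb, Matrix.one_apply_eq, Matrix.one_apply_eq, map_one]
    · rw [Matrix.one_apply_ne hb, Matrix.one_apply_ne hb, map_zero]
  · congr 1
    by_cases hb : b = 1
    · rw [hb, Matrix.one_apply_eq, Matrix.one_apply_eq, map_one]
    · rw [Matrix.one_apply_ne hb, Matrix.one_apply_ne hb, map_zero]

theorem sum_one_sub (hodd : Odd P) : ∑ b : ZMod P, (1 - b) = 0 := by
  have h1 : ∑ b : ZMod P, (1 - b) = ∑ b : ZMod P, b :=
    Fintype.sum_equiv (Equiv.subLeft 1) _ _ (fun b => rfl)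
  have h2 : ∑ b : ZMod P, b = -∑ b : ZMod P, b := by
    rw [← Finset.sum_neg_distrib]
    exact (Fintype.sum_equiv (Equiv.neg (ZMod P)) _ _ (fun b => (neg_neg b).symm))
  rw [h1]
  have h3 : (2 : ZMod P) * ∑ b : ZMod P, b = 0 := by
    rw [two_mul]
    nth_rewrite 1 [h2]
    rw [neg_add_cancel]
  have h4 : IsUnit (2 : ZMod P) := by
    have := (ZMod.isUnit_iff_coprime 2 P).2 hodd.coprime_two_left
    exact_mod_cast this
  exact (h4.mul_right_eq_zero).1 h3

/-- in the commutative case with the trivial action, `lam` is just `t` -/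
theorem lam_triv (hodd : Odd P) (hσ : ∀ c b, S.σ c b = b) (w : B) : S.lam w = S.t w := by
  by_cases h1 : (1 : ZMod P) = 0
  · have : Subsingleton M := by
      refine ⟨fun a b => ?_⟩
      rw [← one_smul (ZMod P) a, ← one_smul (ZMod P) b, h1, zero_smul, zero_smul]
    exact Subsingleton.elim _ _
  · rw [S.lam_formula h1]
    have : ∑ b : ZMod P, (1 - b) • S.t (w * S.si w * S.σ b w) =
        (∑ b : ZMod P, (1 - b)) • S.t (w * S.si w * w) := by
      rw [Finset.sum_smul]
      exact Finset.sum_congr rfl fun b _ => by rw [hσ]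
    rw [this, sum_one_sub hodd, zero_smul, sub_zero]

end CycData

end Pool.Agent.Y69.Cyc
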