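import Mathlib

/-!
# Tate cohomology of permutation modules over a finite cyclic group, by hand
-/

namespace Pool.Agent.Y69.Perm

open Finset

variable {P : ℕ} [NeZero P] {X R : Type*} [CommRing R]
  (sh : ZMod P → X → X) (h0 : ∀ x, sh 0 x = x) (hadd : ∀ c d x, sh (c + d) x = sh c (sh d x))

include h0 hadd

theorem sh_neg (c : ZMod P) (x : X) : sh (-c) (sh c x) = x := by
  rw [← hadd, neg_add_cancel, h0]

theorem sh_neg' (c : ZMod P) (x : X) : sh c (sh (-c) x) = x := by
  rw [← hadd, add_neg_cancel, h0]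

theorem sh_inj (c : ZMod P) : Function.Injective (sh c) := by
  intro x y h
  rw [← sh_neg sh h0 hadd c x, h, sh_neg sh h0 hadd c y]

theorem exists_rep : ∃ rep : X → X, (∀ x, ∃ c, sh c (rep x) = x) ∧ ∀ c x, rep (sh c x) = rep x := by
  let s : Setoid X :=
    { r := fun x y => ∃ c, sh c x = y
      iseqv := ⟨fun x => ⟨0, h0 x⟩, fun {x y} ⟨c, hc⟩ => ⟨-c, by rw [← hc, sh_neg sh h0 hadd]⟩,
        fun {x y z} ⟨c, hc⟩ ⟨d, hd⟩ => ⟨d + c, by rw [hadd, hc, hd]⟩⟩ }
  refine ⟨fun x => (Quotient.mk s x).out, fun x => ?_, fun c x => ?_⟩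
  · exact Quotient.exact (Quotient.out_eq (Quotient.mk s x))
  · show (Quotient.mk s (sh c x)).out = (Quotient.mk s x).out
    congr 1
    exact Quotient.sound ⟨-c, sh_neg sh h0 hadd c x⟩

theorem sub_mem_range (z : X →₀ R) (c : ZMod P) : ∃ u : X →₀ R,
    Finsupp.mapDomain (sh c) z - z = Finsupp.mapDomain (sh 1) u - u := by
  have key : ∀ n : ℕ, ∃ u : X →₀ R,
      Finsupp.mapDomain (sh (n : ZMod P)) z - z = Finsupp.mapDomain (sh 1) u - u := by
    intro n
    induction n with
    | zero =>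
      refine ⟨0, ?_⟩
      have : sh ((0 : ℕ) : ZMod P) = id := by
        funext x; rw [Nat.cast_zero, h0]; rfl
      rw [this, Finsupp.mapDomain_id, Finsupp.mapDomain_zero, sub_self, sub_self]
    | succ n ih =>
      obtain ⟨u, hu⟩ := ih
      refine ⟨u + Finsupp.mapDomain (sh (n : ZMod P)) z, ?_⟩
      have : sh ((n + 1 : ℕ) : ZMod P) = sh 1 ∘ sh (n : ZMod P) := by
        funext x
        rw [Nat.cast_succ, add_comm, hadd]; rfl
      rw [this, Finsupp.mapDomain_comp, Finsupp.mapDomain_add]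
      have e : Finsupp.mapDomain (sh 1) (Finsupp.mapDomain (sh (n : ZMod P)) z) - z =
        (Finsupp.mapDomain (sh (n : ZMod P)) z - z) +
        (Finsupp.mapDomain (sh 1) (Finsupp.mapDomain (sh (n : ZMod P)) z) -
          Finsupp.mapDomain (sh (n : ZMod P)) z) := by abel
      rw [e, hu]
      abel
  rw [← ZMod.natCast_zmod_val c]
  exact key _

theorem exists_of_Nm_zero (hT : ∀ a : R, (P : R) * a = 0 → a = 0) (x : X →₀ R)
    (hx : ∑ c, Finsupp.mapDomain (sh c) x = 0) :
    ∃ u : X →₀ R, x = Finsupp.mapDomain (sh 1) u - u := by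
  obtain ⟨rep, hr1, hr2⟩ := exists_rep sh h0 hadd
  have h1 : Finsupp.mapDomain rep x = 0 := by
    have h2 : Finsupp.mapDomain rep (∑ c, Finsupp.mapDomain (sh c) x) =
        ∑ _c : ZMod P, Finsupp.mapDomain rep x := by
      rw [Finsupp.mapDomain_finsetSum]
      refine Finset.sum_congr rfl fun c _ => ?_
      rw [← Finsupp.mapDomain_comp]
      congr 1
      funext y
      exact hr2 c y
    rw [hx, Finsupp.mapDomain_zero, Finset.sum_const, Finset.card_univ, ZMod.card] at h2
    ext y
    have h3 := DFunLike.congr_fun h2 y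
    rw [Finsupp.coe_zero, Pi.zero_apply, Finsupp.smul_apply, nsmul_eq_mul] at h3
    exact hT _ h3.symm
  have h2 : x = x.sum fun y r => (Finsupp.single y r - Finsupp.single (rep y) r) := by
    rw [Finsupp.sum_sub]
    rw [Finsupp.sum_single]
    have : (x.sum fun y r => Finsupp.single (rep y) r) = Finsupp.mapDomain rep x := rfl
    rw [this, h1, sub_zero]
  have h3 : ∀ y r, ∃ u : X →₀ R, Finsupp.single y r - Finsupp.single (rep y) r =
      Finsupp.mapDomain (sh 1) u - u := by
    intro y r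
    obtain ⟨c, hc⟩ := hr1 y
    obtain ⟨u, hu⟩ := sub_mem_range (R := R) sh h0 hadd (Finsupp.single (rep y) r) c
    refine ⟨u, ?_⟩
    rw [← hu, Finsupp.mapDomain_single, hc]
  choose u hu using h3
  refine ⟨x.sum fun y r => u y r, ?_⟩
  rw [Finsupp.sum, Finsupp.mapDomain_finsetSum, ← Finset.sum_sub_distrib]
  conv_lhs => rw [h2]
  rw [Finsupp.sum]
  exact Finset.sum_congr rfl fun y _ => hu y _

open Classical in
theorem exists_Nm (x : X →₀ R) (hinv : ∀ c, Finsupp.mapDomain (sh c) x = x)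
    (hdiv' : ∀ y, ((Nat.card {c // sh c y = y} : ℕ) : R) ∣ x y) :
    ∃ w : X →₀ R, ∑ c, Finsupp.mapDomain (sh c) w = x := by
  have hdiv : ∀ y, ((Finset.univ.filter fun c => sh c y = y).card : R) ∣ x y := by
    intro y
    have h := hdiv' y
    rw [Nat.card_eq_fintype_card, Fintype.card_subtype] at h
    exact h
  obtain ⟨rep, hr1, hr2⟩ := exists_rep sh h0 hadd
  choose q hq using hdiv
  let w : X →₀ R := Finsupp.onFinset x.support (fun y => if y = rep y ∧ x y ≠ 0 then q y else 0)
    (by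
      intro y hy
      rw [Finsupp.mem_support_iff]
      intro h
      apply hy
      rw [if_neg]
      rintro ⟨_, h2⟩
      exact h2 h)
  have hw : ∀ y, w y = if y = rep y ∧ x y ≠ 0 then q y else 0 := fun y => rfl
  have hxc : ∀ c y, x (sh c y) = x y := by
    intro c y
    conv_lhs => rw [← hinv c]
    exact Finsupp.mapDomain_apply (sh_inj sh h0 hadd c) x y
  refine ⟨w, ?_⟩
  ext y
  rw [Finsupp.finsetSum_apply]
  have h1 : ∀ c, (Finsupp.mapDomain (sh c) w) y = w (sh (-c) y) := by
    intro c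
    conv_lhs => rw [← sh_neg' sh h0 hadd c y]
    exact Finsupp.mapDomain_apply (sh_inj sh h0 hadd c) w _
  simp only [h1]
  rw [Fintype.sum_equiv (Equiv.neg (ZMod P)) (fun c => w (sh (-c) y)) (fun c => w (sh c y))
    (fun c => rfl)]
  by_cases hxy : x y = 0
  · rw [hxy]
    refine Finset.sum_eq_zero fun c _ => ?_
    rw [hw, if_neg]
    rw [hxc, hxy]
    simp
  · obtain ⟨c0, hc0⟩ := hr1 y
    have h2 : ∀ c, w (sh c y) = if sh (c + c0) (rep y) = rep y then q (rep y) else 0 := by
      intro c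
      rw [hw, hr2, hxc, hadd, hc0]
      by_cases h : sh c y = rep y
      · rw [if_pos ⟨h, hxy⟩, if_pos h, h]
      · rw [if_neg (fun h' => h h'.1), if_neg h]
    simp only [h2]
    rw [Fintype.sum_equiv (Equiv.addRight c0)
      (fun c => if sh (c + c0) (rep y) = rep y then q (rep y) else 0)
      (fun c => if sh c (rep y) = rep y then q (rep y) else 0) (fun c => rfl)]
    rw [← Finset.sum_filter, Finset.sum_const, nsmul_eq_mul, ← hq (rep y)]
    have : rep y = sh (-c0) y := by
      conv_rhs => rw [← hc0]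
      rw [sh_neg sh h0 hadd]
    rw [this, hxc]

end Pool.Agent.Y69.Perm
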