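import Mathlib
import Pool.Agent.Y69.Cyc
import Pool.Agent.Y69.Perm

/-!
# The `P`-fold external power of an element of a monoid algebra
-/

namespace Pool.Agent.Y69.Nu

open Finset MonoidAlgebra

noncomputable section

variable {R : Type*} [CommRing R] {M M' : Type*} [Monoid M] [Monoid M'] (P : ℕ) [NeZero P]

/-- the `P`-fold external power -/
def nu (A : MonoidAlgebra R M) : MonoidAlgebra R (ZMod P → M) := by
  classical
  exact .ofCoeff (Finsupp.onFinset (Fintype.piFinset fun _ : ZMod P => A.coeff.support)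
    (fun y => ∏ i, A.coeff (y i)) (by
      intro y hy
      rw [Fintype.mem_piFinset]
      intro i
      rw [Finsupp.mem_support_iff]
      intro h
      exact hy (Finset.prod_eq_zero (Finset.mem_univ i) h)))

theorem nu_coeff (A : MonoidAlgebra R M) (y : ZMod P → M) :
    (nu P A).coeff y = ∏ i, A.coeff (y i) := rfl

open Classical in
theorem nu_sum {ι : Type*} (J : Finset ι) (m : ι → M) (r : ι → R) :
    nu P (∑ j ∈ J, single (m j) (r j)) =
      ∑ s ∈ Fintype.piFinset (fun _ : ZMod P => J), single (fun i => m (s i)) (∏ i, r (s i)) := by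
  ext y
  rw [nu_coeff]
  have h1 : ∀ i, (∑ j ∈ J, single (m j) (r j)).coeff (y i) =
      ∑ j ∈ J, if m j = y i then r j else 0 := by
    intro i
    rw [coeff_sum, Finsupp.finsetSum_apply]
    refine Finset.sum_congr rfl fun j _ => ?_
    rw [coeff_single, Finsupp.single_apply]
  simp only [h1]
  rw [coeff_sum, Finsupp.finsetSum_apply, Finset.prod_univ_sum]
  refine Finset.sum_congr rfl fun s _ => ?_
  rw [coeff_single, Finsupp.single_apply, Finset.prod_ite_zero]
  by_cases h : ∀ i ∈ Finset.univ, m (s i) = y i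
  · rw [if_pos h, if_pos (funext fun i => h i (Finset.mem_univ i))]
  · rw [if_neg h, if_neg]
    intro h'
    exact h fun i _ => congr_fun h' i

theorem eq_sum (A : MonoidAlgebra R M) :
    A = ∑ a ∈ A.coeff.support, single a (A.coeff a) := (sum_coeff_single A).symm

open Classical in
theorem nu_eq_sum (A : MonoidAlgebra R M) :
    nu P A = ∑ s ∈ Fintype.piFinset (fun _ : ZMod P => A.coeff.support),
      single s (∏ i, A.coeff (s i)) := by
  conv_lhs => rw [eq_sum A]
  rw [nu_sum P A.coeff.support (fun a => a) (fun a => A.coeff a)]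

theorem nu_mul (A B : MonoidAlgebra R M) : nu P (A * B) = nu P A * nu P B := by
  classical
  have h1 : A * B = ∑ p ∈ A.coeff.support ×ˢ B.coeff.support,
      single (p.1 * p.2) (A.coeff p.1 * B.coeff p.2) := by
    rw [MonoidAlgebra.mul_def, Finsupp.sum, Finset.sum_product]
    rfl
  rw [h1, nu_sum P _ (fun p : M × M => p.1 * p.2) (fun p => A.coeff p.1 * B.coeff p.2),
    nu_eq_sum P A, nu_eq_sum P B, Finset.sum_mul_sum, ← Finset.sum_product']
  refine Finset.sum_nbij' (fun s => (fun i => (s i).1, fun i => (s i).2))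
    (fun q i => (q.1 i, q.2 i)) ?_ ?_ ?_ ?_ ?_
  · intro s hs
    rw [Fintype.mem_piFinset] at hs
    rw [Finset.mem_product, Fintype.mem_piFinset, Fintype.mem_piFinset]
    exact ⟨fun i => (Finset.mem_product.1 (hs i)).1, fun i => (Finset.mem_product.1 (hs i)).2⟩
  · intro q hq
    rw [Finset.mem_product, Fintype.mem_piFinset, Fintype.mem_piFinset] at hq
    rw [Fintype.mem_piFinset]
    exact fun i => Finset.mem_product.2 ⟨hq.1 i, hq.2 i⟩
  · intro s _; rfl
  · intro q _; rfl
  · intro s _
    rw [single_mul_single]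
    simp only
    rw [Finset.prod_mul_distrib]
    rfl

theorem nu_single (m : M) (r : R) : nu P (single m r) = single (fun _ => m) (r ^ P) := by
  classical
  have h := nu_sum P (R := R) ({()} : Finset Unit) (fun _ => m) (fun _ => r)
  rw [Finset.sum_singleton] at h
  rw [h, Fintype.piFinset_singleton, Finset.sum_singleton, Finset.prod_const, Finset.card_univ,
    ZMod.card]

theorem nu_one : nu P (1 : MonoidAlgebra R M) = 1 := by
  rw [one_def, nu_single, one_pow, one_def]
  rfl

/-- the monoid homomorphism induced on powers -/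
def powHom (F : M →* M') : (ZMod P → M) →* (ZMod P → M') where
  toFun y i := F (y i)
  map_one' := by funext i; exact map_one F
  map_mul' x y := by funext i; exact map_mul F _ _

theorem nu_map (F : M →* M') (A : MonoidAlgebra R M) :
    nu P (mapDomainRingHom R F A) = mapDomainRingHom R (powHom P F) (nu P A) := by
  classical
  conv_lhs => rw [eq_sum A]
  rw [map_sum, nu_eq_sum P A, map_sum]
  simp only [mapDomainRingHom_apply, mapDomain_single]
  rw [nu_sum P A.coeff.support (fun a => F a) (fun a => A.coeff a)]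
  rfl

/-- shift -/
def sh (c : ZMod P) (y : ZMod P → M) : ZMod P → M := fun i => y (i + c)

theorem sh_zero (y : ZMod P → M) : sh P 0 y = y := by
  funext i; rw [sh, add_zero]

theorem sh_add (c d : ZMod P) (y : ZMod P → M) : sh P (c + d) y = sh P c (sh P d y) := by
  funext i
  rw [sh, sh, sh, add_assoc]

/-- shift as a monoid homomorphism -/
def shHom (c : ZMod P) : (ZMod P → M) →* (ZMod P → M) where
  toFun := sh P c
  map_one' := rfl
  map_mul' _ _ := rfl

theorem nu_sh (c : ZMod P) (A : MonoidAlgebra R M) :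
    mapDomainRingHom R (shHom P c) (nu P A) = nu P A := by
  classical
  ext y
  rw [mapDomainRingHom_apply, mapDomain]
  rw [coeff_ofCoeff]
  have h1 : y = (shHom P c) (sh P (-c) y) := by
    show y = sh P c (sh P (-c) y)
    rw [← sh_add, add_neg_cancel, sh_zero]
  conv_lhs => rw [h1]
  rw [Finsupp.mapDomain_apply]
  · rw [nu_coeff, nu_coeff]
    exact Fintype.prod_equiv (Equiv.addRight (-c)) _ _ (fun i => rfl)
  · exact Perm.sh_inj (sh P) (sh_zero P) (sh_add P) c

/-- the product in cyclic order -/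
def prd (y : ZMod P → M) : M := ((List.range P).map fun i : ℕ => y (i : ZMod P)).prod

theorem prd_aux (u v : ℕ → M) (n : ℕ) : ∃ z, ((List.range (n + 1)).map fun i => u i * v i).prod =
    u 0 * z ∧ ((List.range (n + 1)).map fun i => v i * u (i + 1)).prod = z * u (n + 1) := by
  induction n with
  | zero => exact ⟨v 0, by simp, by simp⟩
  | succ n ih =>
    obtain ⟨z, h1, h2⟩ := ih
    refine ⟨z * u (n + 1) * v (n + 1), ?_, ?_⟩
    · rw [List.range_succ, List.map_append, List.prod_append, h1]
      simp [mul_assoc]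
    · rw [List.range_succ, List.map_append, List.prod_append, h2]
      simp [mul_assoc]

theorem prd_cyc {χ : M → ZMod P} (hχ : ∀ x y, χ (x * y) = χ (y * x)) (u v : ZMod P → M) :
    χ (prd P (u * v)) = χ (prd P (v * sh P 1 u)) := by
  obtain ⟨n, rfl⟩ : ∃ n, P = n + 1 := ⟨P - 1, (Nat.succ_pred_eq_of_pos (NeZero.pos P)).symm⟩
  obtain ⟨z, h1, h2⟩ := prd_aux (fun i : ℕ => u (i : ZMod (n + 1)))
    (fun i : ℕ => v (i : ZMod (n + 1))) n
  have e1 : prd (n + 1) (u * v) = u 0 * z := by
    unfold prd
    rw [← Nat.cast_zero, ← h1]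
    rfl
  have e2 : prd (n + 1) (v * sh (n + 1) 1 u) = z * u 0 := by
    have e3 : u 0 = u ((n + 1 : ℕ) : ZMod (n + 1)) := by rw [ZMod.natCast_self]
    rw [e3, ← h2]
    unfold prd
    congr 1
    refine List.map_congr_left fun i _ => ?_
    show v _ * u _ = v _ * u _
    rw [Nat.cast_succ]
  rw [e1, e2, hχ]

/-- the trace on the monoid algebra of the power -/
def tr (π : R →+* ZMod P) (χ : M → ZMod P) : MonoidAlgebra R (ZMod P → M) →+ ZMod P :=
  (Finsupp.liftAddHom fun y => (AddMonoidHom.mulRight (χ (prd P y))).comp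
    (π : R →+ ZMod P)).comp coeffAddEquiv.toAddMonoidHom

theorem tr_single (π : R →+* ZMod P) (χ : M → ZMod P) (y : ZMod P → M) (r : R) :
    tr P π χ (single y r) = π r * χ (prd P y) := by
  show (Finsupp.liftAddHom fun y => (AddMonoidHom.mulRight (χ (prd P y))).comp
    (π : R →+ ZMod P)) (Finsupp.single y r) = _
  rw [Finsupp.liftAddHom_apply_single]
  rfl

theorem tr_comm (π : R →+* ZMod P) {χ : M → ZMod P} (hχ : ∀ x y, χ (x * y) = χ (y * x))
    (a b : MonoidAlgebra R (ZMod P → M)) :
    tr P π χ (a * b) = tr P π χ (b * mapDomainRingHom R (shHom P 1) a) := by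
  induction a using MonoidAlgebra.induction_linear with
  | zero => rw [zero_mul, map_zero, map_zero, mul_zero, map_zero]
  | add x y hx hy => rw [add_mul, map_add, hx, hy, map_add, mul_add, map_add]
  | single u r =>
    induction b using MonoidAlgebra.induction_linear with
    | zero => rw [zero_mul, map_zero, mul_zero, map_zero]
    | add x y hx hy => rw [add_mul, map_add, ← hx, ← hy, mul_add, map_add]
    | single v s =>
      rw [mapDomainRingHom_apply, mapDomain_single, single_mul_single, single_mul_single,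
        tr_single, tr_single, mul_comm r s]
      congr 1
      exact prd_cyc P hχ u v

/-- the basic datum -/
def dat (π : R →+* ZMod P) {χ : M → ZMod P} (hχ : ∀ x y, χ (x * y) = χ (y * x)) :
    Cyc.CycData P (MonoidAlgebra R (ZMod P → M)) (ZMod P) where
  σ c := mapDomainRingHom R (shHom P c)
  σ_zero b := by
    have : shHom P (0 : ZMod P) = MonoidHom.id (ZMod P → M) := by
      ext y i
      show sh P 0 y i = y i
      rw [sh_zero]
    rw [this, mapDomainRingHom_id]
    rfl
  σ_add c d b := by
    have : shHom P (c + d) = (shHom P c).comp (shHom P d : (ZMod P → M) →* _) := by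
      ext y i
      show sh P (c + d) y i = sh P c (sh P d y) i
      rw [sh_add]
    rw [this, mapDomainRingHom_comp]
    rfl
  t := tr P π χ
  t_comm a b := tr_comm P π hχ a b

theorem dat_coeff (π : R →+* ZMod P)
    {χ : M → ZMod P} (hχ : ∀ x y, χ (x * y) = χ (y * x)) (c : ZMod P)
    (x : MonoidAlgebra R (ZMod P → M)) :
    ((dat P π hχ).σ c x).coeff = Finsupp.mapDomain (sh P c) x.coeff := rfl

theorem Nm_coeff (π : R →+* ZMod P)
    {χ : M → ZMod P} (hχ : ∀ x y, χ (x * y) = χ (y * x))
    (x : MonoidAlgebra R (ZMod P → M)) :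
    ((dat P π hχ).Nm x).coeff = ∑ c, Finsupp.mapDomain (sh P c) x.coeff := by
  have h : (dat P π hχ).Nm x = ∑ c, MonoidAlgebra.mapDomain (sh P c) x := rfl
  rw [h, coeff_sum]
  rfl

theorem exists_of_Nm_zero (hT : ∀ a : R, (P : R) * a = 0 → a = 0) (π : R →+* ZMod P)
    {χ : M → ZMod P} (hχ : ∀ x y, χ (x * y) = χ (y * x)) (x : MonoidAlgebra R (ZMod P → M))
    (hx : (dat P π hχ).Nm x = 0) :
    ∃ u, x = (dat P π hχ).σ 1 u - u := by
  have h1 : ∑ c, Finsupp.mapDomain (sh P c) x.coeff = 0 := by
    rw [← Nm_coeff P π hχ, hx, coeff_zero]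
  obtain ⟨u, hu⟩ := Perm.exists_of_Nm_zero (sh P) (sh_zero P) (sh_add P) hT x.coeff h1
  refine ⟨.ofCoeff u, ?_⟩
  apply coeff_injective
  rw [hu, coeff_sub, dat_coeff, coeff_ofCoeff]

theorem exists_Nm (π : R →+* ZMod P)
    {χ : M → ZMod P} (hχ : ∀ x y, χ (x * y) = χ (y * x)) (x : MonoidAlgebra R (ZMod P → M))
    (hinv : (dat P π hχ).Inv x)
    (hdiv : ∀ y, ((Nat.card {c // sh P c y = y} : ℕ) : R) ∣ x.coeff y) :
    ∃ w, (dat P π hχ).Nm w = x := by
  obtain ⟨w, hw⟩ := Perm.exists_Nm (sh P) (sh_zero P) (sh_add P) x.coeff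
    (fun c => by rw [← dat_coeff P π hχ, hinv c]) hdiv
  refine ⟨.ofCoeff w, ?_⟩
  apply coeff_injective
  rw [Nm_coeff, coeff_ofCoeff, hw]

end

end Pool.Agent.Y69.Nu
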