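import Mathlib
import Pool.Agent.Y69.Nu

/-!
# The comparison between the `p^(n+1)`-fold and the `p^n`-fold external powers
-/

namespace Pool.Agent.Y69.Psi

open Finset MonoidAlgebra Pool.Agent.Y69.Nu

noncomputable section

variable {R : Type*} [CommRing R] {M M' : Type*} [Monoid M] [Monoid M']
  (p n : ℕ) [hp : Fact p.Prime]

/-- the projection -/
def pj : ZMod (p ^ (n + 1)) →+* ZMod (p ^ n) :=
  ZMod.castHom (pow_dvd_pow p (Nat.le_succ n)) (ZMod (p ^ n))

/-- restriction of periodic functions -/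
def preHom : (ZMod (p ^ n) → M) →* (ZMod (p ^ (n + 1)) → M) where
  toFun y i := y (pj p n i)
  map_one' := rfl
  map_mul' _ _ := rfl

theorem pj_surj : Function.Surjective (pj p n) := ZMod.castHom_surjective _

theorem preHom_inj : Function.Injective (preHom p n (M := M)) := by
  intro x y h
  funext i
  obtain ⟨j, rfl⟩ := pj_surj p n i
  exact congr_fun h j

/-- the lower power, pulled back -/
def psi (A : MonoidAlgebra R M) : MonoidAlgebra R (ZMod (p ^ (n + 1)) → M) :=
  mapDomainRingHom R (preHom p n) (nu (p ^ n) A)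

theorem psi_mul (A B : MonoidAlgebra R M) : psi p n (A * B) = psi p n A * psi p n B := by
  rw [psi, nu_mul, map_mul]; rfl

theorem psi_one : psi p n (1 : MonoidAlgebra R M) = 1 := by
  rw [psi, nu_one, map_one]

theorem psi_map (F : M →* M') (A : MonoidAlgebra R M) :
    psi p n (mapDomainRingHom R F A) =
      mapDomainRingHom R (powHom (p ^ (n + 1)) F) (psi p n A) := by
  rw [psi, psi, nu_map, ← RingHom.comp_apply, ← RingHom.comp_apply, ← mapDomainRingHom_comp,
    ← mapDomainRingHom_comp]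
  rfl

theorem psi_sh (c : ZMod (p ^ (n + 1))) (A : MonoidAlgebra R M) :
    mapDomainRingHom R (shHom (p ^ (n + 1)) c) (psi p n A) = psi p n A := by
  have h : (shHom (p ^ (n + 1)) c).comp (preHom p n (M := M)) =
      (preHom p n).comp (shHom (p ^ n) (pj p n c)) := by
    ext y i
    show y (pj p n (i + c)) = y (pj p n i + pj p n c)
    rw [map_add]
  rw [psi, ← RingHom.comp_apply, ← mapDomainRingHom_comp, h, mapDomainRingHom_comp,
    RingHom.comp_apply, nu_sh]

theorem psi_coeff_pre (A : MonoidAlgebra R M) (y : ZMod (p ^ n) → M) :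
    (psi p n A).coeff (preHom p n y) = ∏ i, A.coeff (y i) := by
  rw [psi, mapDomainRingHom_apply, mapDomain, coeff_ofCoeff,
    Finsupp.mapDomain_apply (preHom_inj p n), nu_coeff]

theorem psi_coeff_not (A : MonoidAlgebra R M) (y : ZMod (p ^ (n + 1)) → M)
    (hy : ∀ z, preHom p n z ≠ y) : (psi p n A).coeff y = 0 := by
  rw [psi, mapDomainRingHom_apply, mapDomain, coeff_ofCoeff]
  apply Finsupp.mapDomain_of_notMem_range
  rintro ⟨z, hz⟩
  exact hy z hz

theorem prod_zmod {K : Type*} [CommMonoid K] {N : ℕ} [NeZero N] (g : ZMod N → K) :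
    ∏ i, g i = ∏ i ∈ Finset.range N, g (i : ZMod N) := by
  symm
  refine Finset.prod_nbij' (fun i => (i : ZMod N)) (fun i => i.val) ?_ ?_ ?_ ?_ ?_
  · intro i _; exact Finset.mem_univ _
  · intro i _; exact Finset.mem_range.2 (ZMod.val_lt i)
  · intro i hi; exact ZMod.val_cast_of_lt (Finset.mem_range.1 hi)
  · intro i _; exact ZMod.natCast_zmod_val i
  · intro i _; rfl

theorem prod_periodic {K : Type*} [CommMonoid K] (a : ℕ → K) (d : ℕ) (ha : ∀ i, a (i + d) = a i) (m : ℕ) :
    ∏ i ∈ Finset.range (d * m), a i = (∏ i ∈ Finset.range d, a i) ^ m := by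
  induction m with
  | zero => simp
  | succ m ih =>
    rw [Nat.mul_succ, Finset.prod_range_add, ih, pow_succ]
    congr 1
    refine Finset.prod_congr rfl fun i _ => ?_
    have : ∀ m, a (d * m + i) = a i := by
      intro m
      induction m with
      | zero => rw [Nat.mul_zero, Nat.zero_add]
      | succ m ih => rw [Nat.mul_succ, Nat.add_right_comm, ha, ih]
    exact this m

/-- the stabiliser -/
def stab {N : ℕ} [NeZero N] (y : ZMod N → M) : AddSubgroup (ZMod N) where
  carrier := {c | sh N c y = y}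
  zero_mem' := sh_zero N y
  add_mem' := by
    intro a b ha hb
    show sh N (a + b) y = y
    rw [sh_add, hb, ha]
  neg_mem' := by
    intro a ha
    show sh N (-a) y = y
    have h : sh N (-a) (sh N a y) = y := by rw [← sh_add, neg_add_cancel, sh_zero]
    rw [ha] at h
    exact h

theorem period_of_card {k e : ℕ} (hke : k + e = n + 1) (y : ZMod (p ^ (n + 1)) → M)
    (hc : Nat.card (stab y) = p ^ k) : sh (p ^ (n + 1)) ((p ^ e : ℕ) : ZMod (p ^ (n + 1))) y = y := by
  classical
  have hpos : 0 < p ^ k := pow_pos hp.out.pos k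
  have h1 : (Finset.univ.filter fun a : ZMod (p ^ (n + 1)) => p ^ k • a = 0).card ≤ p ^ k :=
    IsAddCyclic.card_nsmul_eq_zero_le hpos
  have h2 : (Finset.univ.filter fun a : ZMod (p ^ (n + 1)) => a ∈ stab y) ⊆
      (Finset.univ.filter fun a : ZMod (p ^ (n + 1)) => p ^ k • a = 0) := by
    intro a ha
    rw [Finset.mem_filter] at ha ⊢
    refine ⟨ha.1, ?_⟩
    have h3 : Nat.card (stab y) • (⟨a, ha.2⟩ : stab y) = 0 := card_nsmul_eq_zero'
    rw [hc] at h3
    exact congrArg Subtype.val h3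
  have h4 : (Finset.univ.filter fun a : ZMod (p ^ (n + 1)) => a ∈ stab y).card = p ^ k := by
    rw [← hc, Nat.card_eq_fintype_card, Fintype.card_subtype]
  have h5 := Finset.eq_of_subset_of_card_le h2 (by rw [h4]; exact h1)
  have h6 : ((p ^ e : ℕ) : ZMod (p ^ (n + 1))) ∈
      (Finset.univ.filter fun a : ZMod (p ^ (n + 1)) => p ^ k • a = 0) := by
    rw [Finset.mem_filter]
    refine ⟨Finset.mem_univ _, ?_⟩
    rw [nsmul_eq_mul, ← Nat.cast_mul, ← pow_add, hke, ZMod.natCast_self]
  rw [← h5, Finset.mem_filter] at h6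
  exact h6.2

theorem dvd_coeff (hF : ∀ a : R, (p : R) ∣ a ^ p - a) (A : MonoidAlgebra R M)
    (y : ZMod (p ^ (n + 1)) → M) :
    ((Nat.card {c // sh (p ^ (n + 1)) c y = y} : ℕ) : R) ∣
      (nu (p ^ (n + 1)) A - psi p n A).coeff y := by
  have h1 : Nat.card {c // sh (p ^ (n + 1)) c y = y} = Nat.card (stab y) := rfl
  rw [h1]
  have h2 : Nat.card (stab y) ∣ p ^ (n + 1) := by
    have := AddSubgroup.card_addSubgroup_dvd_card (stab y)
    rwa [Nat.card_eq_fintype_card (α := ZMod (p ^ (n + 1))), ZMod.card] at this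
  obtain ⟨k, hk, hc⟩ := (Nat.dvd_prime_pow hp.out).1 h2
  rw [hc]
  rcases Nat.eq_zero_or_pos k with rfl | hkpos
  · rw [pow_zero, Nat.cast_one]; exact one_dvd _
  obtain ⟨k', rfl⟩ : ∃ k', k = k' + 1 := ⟨k - 1, (Nat.succ_pred_eq_of_pos hkpos).symm⟩
  obtain ⟨e, he⟩ : ∃ e, n = k' + e := ⟨n - k', by omega⟩
  have hper := period_of_card p n (k := k' + 1) (e := e) (by omega) y hc
  have hper1 : ∀ i : ZMod (p ^ (n + 1)), y (i + ((p ^ e : ℕ) : ZMod (p ^ (n + 1)))) = y i :=
    fun i => congr_fun hper i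
  have hper2 : ∀ (m : ℕ) (i : ZMod (p ^ (n + 1))),
      y (i + ((p ^ e * m : ℕ) : ZMod (p ^ (n + 1)))) = y i := by
    intro m
    induction m with
    | zero => intro i; rw [Nat.mul_zero, Nat.cast_zero, add_zero]
    | succ m ih => intro i; rw [Nat.mul_succ, Nat.cast_add, ← add_assoc, hper1, ih]
  -- the function on the quotient
  set z : ZMod (p ^ n) → M := fun i => y ((i.val : ℕ) : ZMod (p ^ (n + 1))) with hz
  have hzy : preHom p n z = y := by
    funext i
    show y (((pj p n i).val : ℕ) : ZMod (p ^ (n + 1))) = y i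
    have e1 : (pj p n i).val = i.val % p ^ n := by
      have : pj p n i = ((i.val : ℕ) : ZMod (p ^ n)) := by
        conv_lhs => rw [← ZMod.natCast_zmod_val i]
        rw [map_natCast]
      rw [this, ZMod.val_natCast]
    rw [e1]
    have e2 : (i : ZMod (p ^ (n + 1))) = ((i.val % p ^ n : ℕ) : ZMod (p ^ (n + 1))) +
        ((p ^ e * (p ^ k' * (i.val / p ^ n)) : ℕ) : ZMod (p ^ (n + 1))) := by
      rw [← Nat.cast_add]
      have e3 : i.val % p ^ n + p ^ e * (p ^ k' * (i.val / p ^ n)) = i.val := by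
        rw [← mul_assoc, ← pow_add, add_comm e k', ← he]
        exact Nat.mod_add_div _ _
      rw [e3, ZMod.natCast_zmod_val]
    conv_rhs => rw [e2]
    rw [hper2]
  have hpsi : (psi p n A).coeff y = ∏ i, A.coeff (z i) := by
    rw [← psi_coeff_pre, hzy]
  set a : ℕ → R := fun i => A.coeff (y (i : ZMod (p ^ (n + 1)))) with ha
  have haper : ∀ i, a (i + p ^ e) = a i := by
    intro i
    rw [ha]
    show A.coeff (y ((i + p ^ e : ℕ) : ZMod (p ^ (n + 1)))) = A.coeff (y (i : ZMod (p ^ (n + 1))))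
    rw [Nat.cast_add, hper1]
  have hnu2 : (nu (p ^ (n + 1)) A).coeff y = (∏ i ∈ Finset.range (p ^ e), a i) ^ p ^ (k' + 1) := by
    rw [nu_coeff, prod_zmod, ← prod_periodic a (p ^ e) haper, ← pow_add]
    have : e + (k' + 1) = n + 1 := by omega
    rw [this]
  have hpsi2 : (psi p n A).coeff y = (∏ i ∈ Finset.range (p ^ e), a i) ^ p ^ k' := by
    rw [hpsi, prod_zmod, ← prod_periodic a (p ^ e) haper, ← pow_add]
    have : e + k' = n := by omega
    rw [this]
    refine Finset.prod_congr rfl fun i hi => ?_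
    rw [hz, ha]
    show A.coeff (y (((i : ZMod (p ^ n)).val : ℕ) : ZMod (p ^ (n + 1)))) = _
    rw [ZMod.val_cast_of_lt (Finset.mem_range.1 hi)]
  rw [coeff_sub, Finsupp.sub_apply, hnu2, hpsi2, pow_succ' p k', pow_mul, Nat.cast_mul,
    ← Nat.cast_mul, ← pow_succ', Nat.cast_pow]
  exact dvd_sub_pow_of_dvd_sub (hF _) k'

theorem torsion_pow (hT : ∀ a : R, (p : R) * a = 0 → a = 0) (m : ℕ) :
    ∀ a : R, ((p ^ m : ℕ) : R) * a = 0 → a = 0 := by
  induction m with
  | zero => intro a h; rwa [pow_zero, Nat.cast_one, one_mul] at h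
  | succ m ih =>
    intro a h
    rw [pow_succ, Nat.cast_mul, mul_assoc] at h
    exact hT a (ih _ h)

end

end Pool.Agent.Y69.Psi
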