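import Mathlib
import Pool.Agent.Y69.Psi

/-!
# The homomorphism `beta` on the units of a monoid ring
-/

namespace Pool.Agent.Y69.Beta

open Finset MonoidAlgebra Pool.Agent.Y69.Nu Pool.Agent.Y69.Psi

noncomputable section

variable {R : Type*} [CommRing R] {M M' : Type*} [Monoid M] [Monoid M']
  {p n : ℕ} [hp : Fact p.Prime] (π : R →+* ZMod (p ^ (n + 1)))
  {χ : M → ZMod (p ^ (n + 1))} (hχ : ∀ x y, χ (x * y) = χ (y * x))

theorem psi_Inv (A : MonoidAlgebra R M) : (dat (p ^ (n + 1)) π hχ).Inv (psi p n A) :=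
  fun c => psi_sh p n c A

theorem nu_Inv (A : MonoidAlgebra R M) : (dat (p ^ (n + 1)) π hχ).Inv (nu (p ^ (n + 1)) A) :=
  fun c => nu_sh (p ^ (n + 1)) c A

theorem exists_w (hF : ∀ a : R, (p : R) ∣ a ^ p - a) {A B : MonoidAlgebra R M} (hAB : A * B = 1) :
    ∃ w, (dat (p ^ (n + 1)) π hχ).Nm w = nu (p ^ (n + 1)) A * psi p n B - 1 := by
  obtain ⟨w, hw⟩ := exists_Nm (p ^ (n + 1)) π hχ (nu (p ^ (n + 1)) A - psi p n A)
    ((nu_Inv π hχ A).sub (psi_Inv π hχ A)) (dvd_coeff p n hF A)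
  refine ⟨w * psi p n B, ?_⟩
  rw [Cyc.CycData.Nm_mul_inv _ _ (psi_Inv π hχ B), hw, sub_mul, ← psi_mul, hAB, psi_one]

theorem lam_indep (hT : ∀ a : R, (p : R) * a = 0 → a = 0)
    {w w' : MonoidAlgebra R (ZMod (p ^ (n + 1)) → M)}
    (h : IsUnit (1 + (dat (p ^ (n + 1)) π hχ).Nm w))
    (hw : (dat (p ^ (n + 1)) π hχ).Nm w = (dat (p ^ (n + 1)) π hχ).Nm w') :
    (dat (p ^ (n + 1)) π hχ).lam w = (dat (p ^ (n + 1)) π hχ).lam w' := by
  obtain ⟨u, hu⟩ := exists_of_Nm_zero (p ^ (n + 1)) (torsion_pow p hT (n + 1)) π hχ (w' - w)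
    (by rw [Cyc.CycData.Nm_sub, hw, sub_self])
  rw [← Cyc.CycData.lam_diff _ h u, ← hu, add_sub_cancel]

open Classical in
/-- the invariant of a unit -/
def beta (A : (MonoidAlgebra R M)ˣ) : ZMod (p ^ (n + 1)) :=
  if h : ∃ w, (dat (p ^ (n + 1)) π hχ).Nm w =
    nu (p ^ (n + 1)) (A : MonoidAlgebra R M) * psi p n ((A⁻¹ : (MonoidAlgebra R M)ˣ) : _) - 1
  then (dat (p ^ (n + 1)) π hχ).lam h.choose else 0

theorem unit_of {A B : MonoidAlgebra R M} (hAB : A * B = 1) (hBA : B * A = 1)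
    {w : MonoidAlgebra R (ZMod (p ^ (n + 1)) → M)}
    (hw : (dat (p ^ (n + 1)) π hχ).Nm w = nu (p ^ (n + 1)) A * psi p n B - 1) :
    IsUnit (1 + (dat (p ^ (n + 1)) π hχ).Nm w) := by
  rw [hw, add_sub_cancel]
  have h1 : IsUnit (nu (p ^ (n + 1)) A) :=
    ⟨⟨nu (p ^ (n + 1)) A, nu (p ^ (n + 1)) B, by rw [← nu_mul, hAB, nu_one],
      by rw [← nu_mul, hBA, nu_one]⟩, rfl⟩
  have h2 : IsUnit (psi p n B) :=
    ⟨⟨psi p n B, psi p n A, by rw [← psi_mul, hBA, psi_one],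
      by rw [← psi_mul, hAB, psi_one]⟩, rfl⟩
  exact h1.mul h2

theorem beta_eq (hT : ∀ a : R, (p : R) * a = 0 → a = 0) (A : (MonoidAlgebra R M)ˣ)
    {w : MonoidAlgebra R (ZMod (p ^ (n + 1)) → M)}
    (hw : (dat (p ^ (n + 1)) π hχ).Nm w =
      nu (p ^ (n + 1)) (A : MonoidAlgebra R M) * psi p n ((A⁻¹ : (MonoidAlgebra R M)ˣ) : _) - 1) :
    beta π hχ A = (dat (p ^ (n + 1)) π hχ).lam w := by
  unfold beta
  rw [dif_pos ⟨w, hw⟩]
  have h := Exists.choose_spec (⟨w, hw⟩ : ∃ w, (dat (p ^ (n + 1)) π hχ).Nm w =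
    nu (p ^ (n + 1)) (A : MonoidAlgebra R M) * psi p n ((A⁻¹ : (MonoidAlgebra R M)ˣ) : _) - 1)
  refine lam_indep π hχ hT ?_ (h.trans hw.symm)
  exact unit_of π hχ A.mul_inv A.inv_mul h

theorem beta_mul (hT : ∀ a : R, (p : R) * a = 0 → a = 0) (hF : ∀ a : R, (p : R) ∣ a ^ p - a)
    (A B : (MonoidAlgebra R M)ˣ) : beta π hχ (A * B) = beta π hχ A + beta π hχ B := by
  obtain ⟨a, ha⟩ := exists_w (n := n) π hχ hF A.mul_inv
  obtain ⟨b, hb⟩ := exists_w (n := n) π hχ hF B.mul_inv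
  have ua := unit_of π hχ A.mul_inv A.inv_mul ha
  have ub := unit_of π hχ B.mul_inv B.inv_mul hb
  rw [beta_eq π hχ hT A ha, beta_eq π hχ hT B hb]
  have x1 : psi p n (A : MonoidAlgebra R M) * psi p n ((A⁻¹ : (MonoidAlgebra R M)ˣ) : _) = 1 := by
    rw [← psi_mul, A.mul_inv, psi_one]
  have x2 : psi p n ((A⁻¹ : (MonoidAlgebra R M)ˣ) : MonoidAlgebra R M) * psi p n (A : _) = 1 := by
    rw [← psi_mul, A.inv_mul, psi_one]
  set x := psi p n (A : MonoidAlgebra R M) with hx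
  set x' := psi p n ((A⁻¹ : (MonoidAlgebra R M)ˣ) : MonoidAlgebra R M) with hx'
  have h1 := Cyc.CycData.lam_conj _ ub (psi_Inv π hχ (A : MonoidAlgebra R M))
    (psi_Inv π hχ ((A⁻¹ : (MonoidAlgebra R M)ˣ) : MonoidAlgebra R M)) x1 x2
  have hNv : (dat (p ^ (n + 1)) π hχ).Nm (x * b * x') =
      x * (dat (p ^ (n + 1)) π hχ).Nm b * x' := by
    rw [Cyc.CycData.Nm_mul_inv _ _ (psi_Inv π hχ _), Cyc.CycData.Nm_inv_mul _ _ (psi_Inv π hχ _)]
  have hv : 1 + (dat (p ^ (n + 1)) π hχ).Nm (x * b * x') =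
      x * (1 + (dat (p ^ (n + 1)) π hχ).Nm b) * x' := by
    rw [hNv, mul_add, add_mul, mul_one, x1]
  have uv : IsUnit (1 + (dat (p ^ (n + 1)) π hχ).Nm (x * b * x')) := by
    rw [hv]
    have ux : IsUnit x := ⟨⟨x, x', x1, x2⟩, rfl⟩
    have ux' : IsUnit x' := ⟨⟨x', x, x2, x1⟩, rfl⟩
    exact (ux.mul ub).mul ux'
  have h2 := Cyc.CycData.lam_star _ ua uv
  have h3 := Cyc.CycData.Nm_star (dat (p ^ (n + 1)) π hχ) a (x * b * x')
  rw [← h1, ← h2]
  apply beta_eq π hχ hT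
  rw [eq_sub_iff_add_eq', h3, hv, ha, hb, add_sub_cancel, add_sub_cancel]
  rw [Units.val_mul, nu_mul, mul_inv_rev, Units.val_mul, psi_mul, ← hx']
  have e : nu (p ^ (n + 1)) (A : MonoidAlgebra R M) * x' *
      (x * (nu (p ^ (n + 1)) (B : MonoidAlgebra R M) *
        psi p n ((B⁻¹ : (MonoidAlgebra R M)ˣ) : MonoidAlgebra R M)) * x') =
      nu (p ^ (n + 1)) (A : MonoidAlgebra R M) * (x' * x) *
      (nu (p ^ (n + 1)) (B : MonoidAlgebra R M) *
        psi p n ((B⁻¹ : (MonoidAlgebra R M)ˣ) : MonoidAlgebra R M)) * x' := by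
    noncomm_ring
  rw [e, x2]
  noncomm_ring

/-! ### The commutative case -/

variable {C : Type*} [CommMonoid C]

/-- the product homomorphism -/
def prodHom (N : ℕ) [NeZero N] : (ZMod N → C) →* C where
  toFun y := ∏ i, y i
  map_one' := by simp
  map_mul' x y := by
    show ∏ i, (x i * y i) = _
    rw [Finset.prod_mul_distrib]

theorem prod_single {ι : Type*} (s : Finset ι) (m : ι → C) (r : ι → R) :
    ∏ i ∈ s, (single (m i) (r i) : MonoidAlgebra R C) = single (∏ i ∈ s, m i) (∏ i ∈ s, r i) := by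
  classical
  induction s using Finset.induction_on with
  | empty => simp [one_def]
  | insert a s ha ih =>
    rw [Finset.prod_insert ha, Finset.prod_insert ha, Finset.prod_insert ha, ih,
      single_mul_single]

theorem prodHom_nu (N : ℕ) [NeZero N] (V : MonoidAlgebra R C) :
    mapDomainRingHom R (prodHom N) (nu N V) = V ^ N := by
  classical
  have h1 : V ^ N = ∏ _i : ZMod N, ∑ a ∈ V.coeff.support, single a (V.coeff a) := by
    rw [← eq_sum V, Finset.prod_const, Finset.card_univ, ZMod.card]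
  rw [h1, Finset.prod_univ_sum, nu_eq_sum, map_sum]
  refine Finset.sum_congr rfl fun s _ => ?_
  rw [prod_single, mapDomainRingHom_apply, mapDomain_single]
  rfl

theorem prodHom_pre (y : ZMod (p ^ n) → C) :
    prodHom (p ^ (n + 1)) (preHom p n y) = powMonoidHom p (prodHom (p ^ n) y) := by
  show ∏ i, y (pj p n i) = (∏ i, y i) ^ p
  have h : ∏ i ∈ Finset.range (p ^ (n + 1)), y (pj p n ((i : ℕ) : ZMod (p ^ (n + 1)))) =
      ∏ i ∈ Finset.range (p ^ n * p), y (i : ZMod (p ^ n)) := by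
    rw [← pow_succ]
    refine Finset.prod_congr rfl fun i _ => ?_
    rw [map_natCast]
  rw [prod_zmod, prod_zmod, h, ← prod_periodic (fun i => y (i : ZMod (p ^ n))) (p ^ n)]
  · intro i
    show y ((i + p ^ n : ℕ) : ZMod (p ^ n)) = y (i : ZMod (p ^ n))
    rw [Nat.cast_add, ZMod.natCast_self, add_zero]

theorem prodHom_psi (V : MonoidAlgebra R C) :
    mapDomainRingHom R (prodHom (p ^ (n + 1))) (psi p n V) =
      mapDomainRingHom R (powMonoidHom p) V ^ p ^ n := by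
  have h : (prodHom (p ^ (n + 1)) (C := C)).comp (preHom p n) =
      (powMonoidHom p).comp (prodHom (p ^ n)) := by
    exact MonoidHom.ext fun y => prodHom_pre y
  rw [psi, ← RingHom.comp_apply, ← mapDomainRingHom_comp, h, mapDomainRingHom_comp,
    RingHom.comp_apply, prodHom_nu, map_pow]

/-- evaluation of a function on the monoid -/
def ev (π : R →+* ZMod (p ^ (n + 1))) (χ : C → ZMod (p ^ (n + 1))) :
    MonoidAlgebra R C →+ ZMod (p ^ (n + 1)) :=
  (Finsupp.liftAddHom fun y => (AddMonoidHom.mulRight (χ y)).comp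
    (π : R →+ ZMod (p ^ (n + 1)))).comp coeffAddEquiv.toAddMonoidHom

theorem ev_single (π : R →+* ZMod (p ^ (n + 1))) (χ : C → ZMod (p ^ (n + 1))) (c : C) (r : R) :
    ev π χ (single c r) = π r * χ c := by
  show (Finsupp.liftAddHom fun y => (AddMonoidHom.mulRight (χ y)).comp
    (π : R →+ ZMod (p ^ (n + 1)))) (Finsupp.single c r) = _
  rw [Finsupp.liftAddHom_apply_single]
  rfl

/-- the trivial datum -/
def triv (π : R →+* ZMod (p ^ (n + 1))) (χ : C → ZMod (p ^ (n + 1))) :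
    Cyc.CycData (p ^ (n + 1)) (MonoidAlgebra R C) (ZMod (p ^ (n + 1))) where
  σ _ := RingHom.id _
  σ_zero _ := rfl
  σ_add _ _ _ := rfl
  t := ev π χ
  t_comm a b := by rw [RingHom.id_apply, mul_comm]

theorem prd_eq_prod (N : ℕ) [NeZero N] (y : ZMod N → C) : prd N y = ∏ i, y i := by
  rw [prod_zmod, prd]
  show _ = (Multiset.map _ (↑(List.range N) : Multiset ℕ)).prod
  rw [Multiset.map_coe, Multiset.prod_coe]

end

end Pool.Agent.Y69.Beta
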