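import Pool.Agent.Helper970.SH.Defs

/-!
# Colimits over the finite subgroups of a group, functoriality of `K₁` and of Whitehead groups

The group `K₁(R)` (`H970SH.K1`) and the Whitehead group `Wh(G)` (`H970SH.Wh`) are those of
`Pool.Agent.Helper970.SH.Defs`.
-/

namespace Pool.Agent.Y69

open H970SH

noncomputable section

/-- The map `K₁(f) : K₁(R) → K₁(S)` induced by a ring homomorphism, `[M] ↦ [f(M)]`. -/
def K1map {R S : Type} [Ring R] [Ring S] (f : R →+* S) : K1 R →+ K1 S :=
  QuotientAddGroup.lift (AddSubgroup.closure (K1Rel R))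
    (FreeAbelianGroup.lift fun x => K1.mk (Units.map f.mapMatrix.toMonoidHom x.2)) (by
      rw [AddSubgroup.closure_le]
      rintro x (⟨n, M, N, rfl⟩ | ⟨n, M, N, hN, rfl⟩)
      · show FreeAbelianGroup.lift _ _ = 0
        rw [map_sub, map_add, FreeAbelianGroup.lift_apply_of, FreeAbelianGroup.lift_apply_of,
          FreeAbelianGroup.lift_apply_of, sub_eq_zero, map_mul]
        unfold K1.mk
        rw [← map_add, QuotientAddGroup.mk'_apply, QuotientAddGroup.mk'_apply,
          QuotientAddGroup.eq_iff_sub_mem]
        exact AddSubgroup.subset_closure (Or.inl ⟨n, _, _, rfl⟩)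
      · show FreeAbelianGroup.lift _ _ = 0
        rw [map_sub, FreeAbelianGroup.lift_apply_of, FreeAbelianGroup.lift_apply_of, sub_eq_zero]
        unfold K1.mk
        rw [QuotientAddGroup.mk'_apply, QuotientAddGroup.mk'_apply,
          QuotientAddGroup.eq_iff_sub_mem]
        refine AddSubgroup.subset_closure (Or.inr ⟨n, _, _, ?_, rfl⟩)
        show ((N : Matrix (Fin (n + 1)) (Fin (n + 1)) R)).map f = _
        rw [hN]
        ext i j
        show f ((Matrix.fromBlocks (M : Matrix (Fin n) (Fin n) R) 0 0 1)
          (finSumFinEquiv.symm i) (finSumFinEquiv.symm j)) =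
          (Matrix.fromBlocks ((M : Matrix (Fin n) (Fin n) R).map f) 0 0 1)
          (finSumFinEquiv.symm i) (finSumFinEquiv.symm j)
        rcases finSumFinEquiv.symm i with a | a <;> rcases finSumFinEquiv.symm j with b | b
        · rfl
        · exact map_zero f
        · exact map_zero f
        · rw [Matrix.fromBlocks_apply₂₂, Matrix.fromBlocks_apply₂₂, Subsingleton.elim a b,
            Matrix.one_apply_eq, Matrix.one_apply_eq, map_one])

/-- The map `Wh(φ) : Wh(G) → Wh(H)` induced by a group homomorphism. -/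
def Whmap {G H : Type} [Group G] [Group H] (φ : G →* H) : Wh G →+ Wh H :=
  QuotientAddGroup.map (trivialUnits G) (trivialUnits H)
    (K1map (MonoidAlgebra.mapDomainRingHom ℤ φ)) (by
      unfold trivialUnits
      rw [AddSubgroup.closure_le]
      rintro c ⟨g, M, hM, rfl⟩
      refine AddSubgroup.subset_closure ⟨φ g, Units.map
        (MonoidAlgebra.mapDomainRingHom ℤ φ).mapMatrix.toMonoidHom M, ?_, rfl⟩
      show MonoidAlgebra.mapDomainRingHom ℤ φ
          ((M : Matrix (Fin 1) (Fin 1) (MonoidAlgebra ℤ G)) 0 0) = _ ∨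
        MonoidAlgebra.mapDomainRingHom ℤ φ
          ((M : Matrix (Fin 1) (Fin 1) (MonoidAlgebra ℤ G)) 0 0) = _
      rcases hM with h | h
      · left
        rw [h, MonoidAlgebra.of_apply, MonoidAlgebra.of_apply,
          MonoidAlgebra.mapDomainRingHom_apply, MonoidAlgebra.mapDomain_single]
      · right
        rw [h, map_neg, MonoidAlgebra.of_apply, MonoidAlgebra.of_apply,
          MonoidAlgebra.mapDomainRingHom_apply, MonoidAlgebra.mapDomain_single])

/-- The finite subgroups of `G`. -/
abbrev FinSub (G : Type) [Group G] : Type := {H : Subgroup G // Finite H}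

section colimit

variable {G : Type} [Group G] (F : Subgroup G → Type) [∀ H, AddCommGroup (F H)]
  (m : ∀ {H K : Subgroup G}, (H →* K) → F H →+ F K)

/-- The relations of the colimit of the values of the functor `(F, m)` on the finite subgroups:
the symbols `[H, x]`, `x ∈ F(H)`, are additive in `x`, and `[K, F(φ)(x)] = [H, x]` for the maps
`φ : H → K` given by conjugation with an element of `G`. -/
def ColimRel : Set (FreeAbelianGroup (Σ H : FinSub G, F H.1)) :=
  {z | (∃ (H : FinSub G) (x y : F H.1), z = FreeAbelianGroup.of ⟨H, x + y⟩ -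
      (FreeAbelianGroup.of ⟨H, x⟩ + FreeAbelianGroup.of ⟨H, y⟩)) ∨
    ∃ (H K : FinSub G) (g : G) (φ : H.1 →* K.1) (x : F H.1),
      (∀ h : H.1, (φ h : G) = g * h * g⁻¹) ∧
        z = FreeAbelianGroup.of ⟨K, m φ x⟩ - FreeAbelianGroup.of ⟨H, x⟩}

/-- The colimit `colim F(H)` over the finite subgroups `H` of `G`; the morphisms are the maps
given by conjugation with elements of `G`. -/
abbrev Colim : Type :=
  FreeAbelianGroup (Σ H : FinSub G, F H.1) ⧸ AddSubgroup.closure (ColimRel F m)

/-- The structure map `F(H) → colim F` of a finite subgroup. -/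
def Colim.ι (H : FinSub G) (x : F H.1) : Colim F m :=
  QuotientAddGroup.mk' (AddSubgroup.closure (ColimRel F m)) (FreeAbelianGroup.of ⟨H, x⟩)

end colimit

/-- `colim Wh(H)` over the finite subgroups `H` of `G`. -/
abbrev WhColim (G : Type) [Group G] : Type :=
  Colim (G := G) (fun H => Wh H) (fun φ => Whmap φ)

/-- `colim K₁(R[H])` over the finite subgroups `H` of `G`. -/
abbrev K1Colim (R G : Type) [CommRing R] [Group G] : Type :=
  Colim (G := G) (fun H => K1 (MonoidAlgebra R H))
    (fun φ => K1map (MonoidAlgebra.mapDomainRingHom R φ))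

end

end Pool.Agent.Y69
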