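import Mathlib
import Pool.Agent.Y69.ColDef
import Pool.Agent.H842R2.K1

/-!
# The assembly maps from the colimits over the finite subgroups
-/

namespace Pool.Agent.Y69

open H970SH H842 MonoidAlgebra

noncomputable section

section k1

variable {R S T : Type} [Ring R] [Ring S] [Ring T]

theorem K1map_mk (f : R →+* S) {n : ℕ} (M : (Matrix (Fin n) (Fin n) R)ˣ) :
    K1map f (K1.mk M) = K1.mk (mapUnit f M) := by
  show K1map f (QuotientAddGroup.mk' _ _) = _
  unfold K1map
  rw [QuotientAddGroup.mk'_apply, QuotientAddGroup.lift_mk, FreeAbelianGroup.lift_apply_of]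
  rfl

theorem K1map_cl (f : R →+* S) {ι : Type} [Fintype ι] [DecidableEq ι] (M : (Matrix ι ι R)ˣ) :
    K1map f (cl M) = cl (mapUnit f M) := by
  unfold cl
  rw [K1map_mk, mapUnit_reindex]

theorem K1map_comp (f : R →+* S) (g : S →+* T) (x : K1 R) :
    K1map g (K1map f x) = K1map (g.comp f) x := by
  obtain ⟨n, M, rfl⟩ := K1_exists x
  rw [K1map_cl, K1map_cl, K1map_cl]
  rfl

theorem K1map_id (x : K1 R) : K1map (RingHom.id R) x = x := by
  obtain ⟨n, M, rfl⟩ := K1_exists x
  rw [K1map_cl]
  rfl

/-- conjugation by a unit acts trivially on `K₁` -/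
theorem K1map_conj (f : R →+* R) (u : Rˣ) (hf : ∀ r, f r = u * r * ((u⁻¹ : Rˣ) : R)) (x : K1 R) :
    K1map f x = x := by
  obtain ⟨n, M, rfl⟩ := K1_exists x
  rw [K1map_cl]
  let D : (Matrix (Fin n) (Fin n) R)ˣ :=
    { val := Matrix.diagonal fun _ => (u : R)
      inv := Matrix.diagonal fun _ => ((u⁻¹ : Rˣ) : R)
      val_inv := by
        rw [Matrix.diagonal_mul_diagonal]
        simp only [Units.mul_inv, Matrix.diagonal_one]
      inv_val := by
        rw [Matrix.diagonal_mul_diagonal]
        simp only [Units.inv_mul, Matrix.diagonal_one] }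
  have h : mapUnit f M = D * M * D⁻¹ := by
    apply Units.ext
    rw [mapUnit_val]
    ext i j
    rw [Matrix.map_apply, hf]
    show _ = ((Matrix.diagonal (fun _ => (u : R)) * (M : Matrix (Fin n) (Fin n) R) *
      Matrix.diagonal (fun _ => ((u⁻¹ : Rˣ) : R)) : Matrix (Fin n) (Fin n) R)) i j
    rw [Matrix.mul_diagonal, Matrix.diagonal_mul]
  rw [h, cl_conj]

end k1

/-- conjugation by a group element acts trivially on `K₁(R[G])` -/
theorem K1map_conj_group {R G : Type} [CommRing R] [Group G] (g : G)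
    (x : K1 (MonoidAlgebra R G)) :
    K1map (mapDomainRingHom R (MulAut.conj g).toMonoidHom) x = x := by
  let u : (MonoidAlgebra R G)ˣ :=
    { val := single g 1
      inv := single g⁻¹ 1
      val_inv := by rw [single_mul_single, mul_inv_cancel, one_mul, one_def]
      inv_val := by rw [single_mul_single, inv_mul_cancel, one_mul, one_def] }
  apply K1map_conj _ u
  intro r
  show mapDomainRingHom R (MulAut.conj g).toMonoidHom r = single g 1 * r * single g⁻¹ 1
  induction r using MonoidAlgebra.induction_linear with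
  | zero => simp
  | add x y hx hy => rw [map_add, hx, hy, mul_add, add_mul]
  | single h a =>
    rw [mapDomainRingHom_apply, mapDomain_single, single_mul_single, single_mul_single, one_mul,
      mul_one]
    rfl

section colimit

variable {G : Type} [Group G] (F : Subgroup G → Type) [∀ H, AddCommGroup (F H)]
  (m : ∀ {H K : Subgroup G}, (H →* K) → F H →+ F K)

theorem Colim.ι_add (H : FinSub G) (x y : F H.1) :
    Colim.ι F m H (x + y) = Colim.ι F m H x + Colim.ι F m H y := by
  unfold Colim.ι
  rw [← map_add, QuotientAddGroup.mk'_apply, QuotientAddGroup.mk'_apply,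
    QuotientAddGroup.eq_iff_sub_mem]
  exact AddSubgroup.subset_closure (Or.inl ⟨H, x, y, rfl⟩)

/-- the structure map as a homomorphism -/
def Colim.ιHom (H : FinSub G) : F H.1 →+ Colim F m where
  toFun := Colim.ι F m H
  map_zero' := by
    have h := Colim.ι_add F m H 0 0
    rw [add_zero] at h
    exact left_eq_add.1 h
  map_add' := Colim.ι_add F m H

theorem Colim.ι_rel (H K : FinSub G) (g : G) (φ : H.1 →* K.1)
    (hφ : ∀ h : H.1, (φ h : G) = g * h * g⁻¹) (x : F H.1) :
    Colim.ι F m K (m φ x) = Colim.ι F m H x := by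
  unfold Colim.ι
  rw [QuotientAddGroup.mk'_apply, QuotientAddGroup.mk'_apply, QuotientAddGroup.eq_iff_sub_mem]
  exact AddSubgroup.subset_closure (Or.inr ⟨H, K, g, φ, x, hφ, rfl⟩)

variable {F m}

/-- the universal property -/
def Colim.lift {B : Type*} [AddCommGroup B] (f : ∀ H : FinSub G, F H.1 →+ B)
    (hf : ∀ (H K : FinSub G) (g : G) (φ : H.1 →* K.1), (∀ h : H.1, (φ h : G) = g * h * g⁻¹) →
      ∀ x, f K (m φ x) = f H x) : Colim F m →+ B :=
  QuotientAddGroup.lift (AddSubgroup.closure (ColimRel F m))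
    (FreeAbelianGroup.lift fun x => f x.1 x.2) (by
      rw [AddSubgroup.closure_le]
      rintro z (⟨H, x, y, rfl⟩ | ⟨H, K, g, φ, x, hφ, rfl⟩)
      · show FreeAbelianGroup.lift _ _ = 0
        rw [map_sub, map_add, FreeAbelianGroup.lift_apply_of, FreeAbelianGroup.lift_apply_of,
          FreeAbelianGroup.lift_apply_of, sub_eq_zero, map_add]
      · show FreeAbelianGroup.lift _ _ = 0
        rw [map_sub, FreeAbelianGroup.lift_apply_of, FreeAbelianGroup.lift_apply_of, sub_eq_zero]
        exact hf H K g φ hφ x)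

theorem Colim.lift_ι {B : Type*} [AddCommGroup B] (f : ∀ H : FinSub G, F H.1 →+ B)
    (hf : ∀ (H K : FinSub G) (g : G) (φ : H.1 →* K.1), (∀ h : H.1, (φ h : G) = g * h * g⁻¹) →
      ∀ x, f K (m φ x) = f H x) (H : FinSub G) (x : F H.1) :
    Colim.lift f hf (Colim.ι F m H x) = f H x := by
  unfold Colim.lift Colim.ι
  rw [QuotientAddGroup.mk'_apply, QuotientAddGroup.lift_mk, FreeAbelianGroup.lift_apply_of]

theorem Colim.induction {P : Colim F m → Prop} (h0 : P 0)
    (hadd : ∀ x y, P x → P y → P (x + y)) (hneg : ∀ x, P x → P (-x))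
    (hι : ∀ (H : FinSub G) (x : F H.1), P (Colim.ι F m H x)) (z : Colim F m) : P z := by
  obtain ⟨y, rfl⟩ := QuotientAddGroup.mk'_surjective _ z
  induction y using FreeAbelianGroup.induction_on with
  | zero => rw [map_zero]; exact h0
  | of y => exact hι y.1 y.2
  | neg y h => rw [map_neg]; exact hneg _ h
  | add y z hy hz => rw [map_add]; exact hadd _ _ hy hz

end colimit

variable {G : Type} [Group G]

theorem subtype_comp {H K : Subgroup G} (g : G) (φ : H →* K)
    (hφ : ∀ h : H, (φ h : G) = g * h * g⁻¹) :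
    K.subtype.comp φ = (MulAut.conj g).toMonoidHom.comp H.subtype := by
  ext h
  exact hφ h

theorem mapDomainRingHom_comp' {R A B C : Type} [CommRing R] [Group A] [Group B] [Group C]
    (f : B →* C) (g : A →* B) :
    (mapDomainRingHom R f).comp (mapDomainRingHom R g) = mapDomainRingHom R (f.comp g) :=
  (mapDomainRingHom_comp f g).symm

theorem K1_compat (R : Type) [CommRing R] {H K : Subgroup G} (g : G) (φ : H →* K)
    (hφ : ∀ h : H, (φ h : G) = g * h * g⁻¹) (x : K1 (MonoidAlgebra R H)) :
    K1map (mapDomainRingHom R K.subtype) (K1map (mapDomainRingHom R φ) x) =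
      K1map (mapDomainRingHom R H.subtype) x := by
  rw [K1map_comp, mapDomainRingHom_comp', subtype_comp g φ hφ, ← mapDomainRingHom_comp',
    ← K1map_comp, K1map_conj_group]

/-- The assembly map `colim K₁(R[H]) → K₁(R[G])`, induced by the inclusions of the finite
subgroups `H` of `G`. -/
def K1assembly (R G : Type) [CommRing R] [Group G] : K1Colim R G →+ K1 (MonoidAlgebra R G) :=
  Colim.lift (fun H => K1map (mapDomainRingHom R H.1.subtype))
    (fun _ _ g φ hφ x => K1_compat R g φ hφ x)

theorem K1assembly_ι (R : Type) [CommRing R] (H : FinSub G) (x : K1 (MonoidAlgebra R H.1)) :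
    K1assembly R G (Colim.ι _ _ H x) = K1map (mapDomainRingHom R H.1.subtype) x :=
  Colim.lift_ι (G := G) (F := fun H => K1 (MonoidAlgebra R H))
    (m := fun φ => K1map (mapDomainRingHom R φ)) _ _ H x

theorem Whmap_mk {G H : Type} [Group G] [Group H] (φ : G →* H) (x : K1 (MonoidAlgebra ℤ G)) :
    Whmap φ (QuotientAddGroup.mk' (trivialUnits G) x) =
      QuotientAddGroup.mk' (trivialUnits H) (K1map (mapDomainRingHom ℤ φ) x) := rfl

/-- The assembly map `colim Wh(H) → Wh(G)`, induced by the inclusions of the finite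
subgroups `H` of `G`. -/
def Whassembly (G : Type) [Group G] : WhColim G →+ Wh G :=
  Colim.lift (fun H => Whmap H.1.subtype) (fun H K g φ hφ x => by
    obtain ⟨x, rfl⟩ := QuotientAddGroup.mk'_surjective _ x
    rw [Whmap_mk, Whmap_mk, Whmap_mk]
    exact congrArg _ (K1_compat ℤ g φ hφ x))

theorem Whassembly_ι (H : FinSub G) (x : Wh H.1) :
    Whassembly G (Colim.ι _ _ H x) = Whmap H.1.subtype x :=
  Colim.lift_ι (G := G) (F := fun H => Wh H) (m := fun φ => Whmap φ) _ _ H x

/-- the projection to the Whitehead version -/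
def toWh (G : Type) [Group G] : K1Colim ℤ G →+ WhColim G :=
  Colim.lift (fun H => (Colim.ιHom _ _ H).comp (QuotientAddGroup.mk' (trivialUnits H.1)))
    (fun H K g φ hφ x => Colim.ι_rel (G := G) (fun H => Wh H) (fun φ => Whmap φ) H K g φ hφ
      (QuotientAddGroup.mk' (trivialUnits H.1) x))

theorem toWh_ι (H : FinSub G) (x : K1 (MonoidAlgebra ℤ H.1)) :
    toWh G (Colim.ι _ _ H x) = Colim.ι _ _ H (QuotientAddGroup.mk' (trivialUnits H.1) x) := by
  exact Colim.lift_ι (G := G) (F := fun H => K1 (MonoidAlgebra ℤ H))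
    (m := fun φ => K1map (mapDomainRingHom ℤ φ)) _ _ H x

theorem toWh_surjective : Function.Surjective (toWh G) := by
  intro z
  induction z using Colim.induction with
  | h0 => exact ⟨0, map_zero _⟩
  | hadd x y hx hy =>
    obtain ⟨a, rfl⟩ := hx
    obtain ⟨b, rfl⟩ := hy
    exact ⟨a + b, map_add _ _ _⟩
  | hneg x hx =>
    obtain ⟨a, rfl⟩ := hx
    exact ⟨-a, map_neg _ _⟩
  | hι H x =>
    obtain ⟨x, rfl⟩ := QuotientAddGroup.mk'_surjective _ x
    exact ⟨Colim.ι _ _ H x, toWh_ι H x⟩

theorem Whassembly_toWh (z : K1Colim ℤ G) :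
    Whassembly G (toWh G z) = QuotientAddGroup.mk' (trivialUnits G) (K1assembly ℤ G z) := by
  induction z using Colim.induction with
  | h0 => rw [map_zero, map_zero, map_zero, map_zero]
  | hadd x y hx hy => rw [map_add, map_add, hx, hy, map_add, map_add]
  | hneg x hx => rw [map_neg, map_neg, hx, map_neg, map_neg]
  | hι H x =>
    rw [toWh_ι, K1assembly_ι, Whassembly_ι, Whmap_mk]

end

end Pool.Agent.Y69
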