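import Mathlib
import Pool.Agent.Y69.Beta

/-!
# Naturality of `beta` and its value on units coming from commutative monoids
-/

namespace Pool.Agent.Y69.Comm

open Finset MonoidAlgebra Pool.Agent.Y69.Nu Pool.Agent.Y69.Psi Pool.Agent.Y69.Beta

noncomputable section

variable {R : Type*} [CommRing R] {M M' : Type*} [Monoid M] [Monoid M']
  {p n : ℕ} [hp : Fact p.Prime] (π : R →+* ZMod (p ^ (n + 1)))
  {χ : M → ZMod (p ^ (n + 1))} (hχ : ∀ x y, χ (x * y) = χ (y * x))

theorem hcomp {S : Type*} {χ : M → S} (hχ : ∀ x y, χ (x * y) = χ (y * x)) (F : M' →* M) :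
    ∀ x y, (fun x => χ (F x)) (x * y) = (fun x => χ (F x)) (y * x) := by
  intro x y
  show χ (F (x * y)) = χ (F (y * x))
  rw [map_mul, map_mul, hχ]

theorem prd_powHom (N : ℕ) [NeZero N] (F : M' →* M) (y : ZMod N → M') :
    prd N (powHom N F y) = F (prd N y) := by
  unfold prd
  rw [map_list_prod, List.map_map]
  rfl

theorem t_powHom (F : M' →* M) (b : MonoidAlgebra R (ZMod (p ^ (n + 1)) → M')) :
    (dat (p ^ (n + 1)) π (χ := fun x => χ (F x)) (hcomp hχ F)).t b =
      (dat (p ^ (n + 1)) π hχ).t (mapDomainRingHom R (powHom (p ^ (n + 1)) F) b) := by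
  show tr (p ^ (n + 1)) π _ b = tr (p ^ (n + 1)) π _ _
  induction b using MonoidAlgebra.induction_linear with
  | zero => rw [map_zero, map_zero, map_zero]
  | add x y hx hy => rw [map_add, hx, hy, map_add, map_add]
  | single y r =>
    rw [mapDomainRingHom_apply, mapDomain_single, tr_single, tr_single, prd_powHom]

theorem sigma_powHom (F : M' →* M) (c : ZMod (p ^ (n + 1)))
    (b : MonoidAlgebra R (ZMod (p ^ (n + 1)) → M')) :
    mapDomainRingHom R (powHom (p ^ (n + 1)) F) ((dat (p ^ (n + 1)) π (χ := fun x => χ (F x)) (hcomp hχ F)).σ c b) =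
      (dat (p ^ (n + 1)) π hχ).σ c (mapDomainRingHom R (powHom (p ^ (n + 1)) F) b) := by
  show mapDomainRingHom R (powHom (p ^ (n + 1)) F) (mapDomainRingHom R (shHom _ c) b) =
    mapDomainRingHom R (shHom _ c) (mapDomainRingHom R (powHom (p ^ (n + 1)) F) b)
  rw [← RingHom.comp_apply, ← RingHom.comp_apply, ← mapDomainRingHom_comp,
    ← mapDomainRingHom_comp]
  rfl

/-- naturality of `beta` -/
theorem beta_map (hT : ∀ a : R, (p : R) * a = 0 → a = 0) (hF : ∀ a : R, (p : R) ∣ a ^ p - a)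
    (F : M' →* M) (A : (MonoidAlgebra R M')ˣ) :
    beta π hχ (Units.map (mapDomainRingHom R F : MonoidAlgebra R M' →* MonoidAlgebra R M) A) =
      beta π (χ := fun x => χ (F x)) (hcomp hχ F) A := by
  obtain ⟨a, ha⟩ := exists_w (n := n) π (χ := fun x => χ (F x)) (hcomp hχ F) hF A.mul_inv
  have ua := unit_of π (χ := fun x => χ (F x)) (hcomp hχ F) A.mul_inv A.inv_mul ha
  rw [beta_eq π (χ := fun x => χ (F x)) (hcomp hχ F) hT A ha]
  rw [Cyc.CycData.lam_map (dat (p ^ (n + 1)) π hχ) (dat (p ^ (n + 1)) π (χ := fun x => χ (F x)) (hcomp hχ F))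
    (mapDomainRingHom R (powHom (p ^ (n + 1)) F)) (sigma_powHom π hχ F) (t_powHom π hχ F) ua]
  apply beta_eq π hχ hT
  rw [← Cyc.CycData.Nm_map (dat (p ^ (n + 1)) π hχ) (dat (p ^ (n + 1)) π (χ := fun x => χ (F x)) (hcomp hχ F))
    (mapDomainRingHom R (powHom (p ^ (n + 1)) F)) (sigma_powHom π hχ F), ha, map_sub, map_mul,
    map_one, ← nu_map, ← psi_map]
  rfl

variable {C : Type*} [CommMonoid C]

theorem t_prod (χ : C → ZMod (p ^ (n + 1))) (hχ : ∀ x y, χ (x * y) = χ (y * x))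
    (b : MonoidAlgebra R (ZMod (p ^ (n + 1)) → C)) :
    (dat (p ^ (n + 1)) π hχ).t b =
      (triv π χ).t (mapDomainRingHom R (prodHom (p ^ (n + 1))) b) := by
  show tr (p ^ (n + 1)) π _ b = ev π _ _
  induction b using MonoidAlgebra.induction_linear with
  | zero => rw [map_zero, map_zero, map_zero]
  | add x y hx hy => rw [map_add, hx, hy, map_add, map_add]
  | single y r =>
    rw [mapDomainRingHom_apply, mapDomain_single, tr_single, ev_single, prd_eq_prod]
    rfl

theorem sigma_prod (χ : C → ZMod (p ^ (n + 1))) (hχ : ∀ x y, χ (x * y) = χ (y * x))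
    (c : ZMod (p ^ (n + 1))) (b : MonoidAlgebra R (ZMod (p ^ (n + 1)) → C)) :
    mapDomainRingHom R (prodHom (p ^ (n + 1))) ((dat (p ^ (n + 1)) π hχ).σ c b) =
      (triv π χ).σ c (mapDomainRingHom R (prodHom (p ^ (n + 1))) b) := by
  show mapDomainRingHom R (prodHom (p ^ (n + 1))) (mapDomainRingHom R (shHom _ c) b) =
    mapDomainRingHom R (prodHom (p ^ (n + 1))) b
  rw [← RingHom.comp_apply, ← mapDomainRingHom_comp]
  congr 2
  refine MonoidHom.ext fun y => ?_
  show ∏ i, y (i + c) = ∏ i, y i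
  exact Fintype.prod_equiv (Equiv.addRight c) _ _ (fun i => rfl)

/-- the value of `beta` in the commutative case -/
theorem beta_comm (hodd : Odd p) (hT : ∀ a : R, (p : R) * a = 0 → a = 0)
    (hF : ∀ a : R, (p : R) ∣ a ^ p - a)
    (χ : C → ZMod (p ^ (n + 1))) (hχ : ∀ x y, χ (x * y) = χ (y * x))
    (V : (MonoidAlgebra R C)ˣ) (ω : MonoidAlgebra R C)
    (hω : (V : MonoidAlgebra R C) ^ p ^ (n + 1) =
      mapDomainRingHom R (powMonoidHom p) (V : MonoidAlgebra R C) ^ p ^ n *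
        (1 + ((p ^ (n + 1) : ℕ) : MonoidAlgebra R C) * ω)) :
    beta π hχ V = ev π χ ω := by
  obtain ⟨a, ha⟩ := exists_w (n := n) π hχ hF V.mul_inv
  have ua := unit_of π hχ V.mul_inv V.inv_mul ha
  rw [beta_eq π hχ hT V ha]
  rw [Cyc.CycData.lam_map (triv π χ) (dat (p ^ (n + 1)) π hχ)
    (mapDomainRingHom R (prodHom (p ^ (n + 1)))) (sigma_prod π χ hχ) (t_prod π χ hχ) ua]
  rw [Cyc.CycData.lam_triv _ (hodd.pow) (fun c b => rfl)]
  show ev π χ _ = ev π χ _
  congr 1
  set v := mapDomainRingHom R (prodHom (p ^ (n + 1))) a with hv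
  have h1 := Cyc.CycData.Nm_map (triv π χ) (dat (p ^ (n + 1)) π hχ)
    (mapDomainRingHom R (prodHom (p ^ (n + 1)))) (sigma_prod π χ hχ) a
  rw [ha, map_sub, map_mul, map_one, prodHom_nu, prodHom_psi, ← hv] at h1
  have h2 : (triv π χ).Nm v = ((p ^ (n + 1) : ℕ) : MonoidAlgebra R C) * v := by
    show ∑ _c : ZMod (p ^ (n + 1)), v = _
    rw [Finset.sum_const, Finset.card_univ, ZMod.card, nsmul_eq_mul]
  rw [h2] at h1
  set Φ := mapDomainRingHom R (powMonoidHom p : C →* C) with hΦ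
  have h3 : Φ (V : MonoidAlgebra R C) ^ p ^ n *
      Φ ((V⁻¹ : (MonoidAlgebra R C)ˣ) : MonoidAlgebra R C) ^ p ^ n = 1 := by
    rw [← mul_pow, ← map_mul, V.mul_inv, map_one, one_pow]
  have h4 : ((p ^ (n + 1) : ℕ) : MonoidAlgebra R C) * ω =
      ((p ^ (n + 1) : ℕ) : MonoidAlgebra R C) * v := by
    rw [← h1, hω, mul_right_comm, h3, one_mul, add_sub_cancel_left]
  have h5 : ((p ^ (n + 1) : ℕ) : MonoidAlgebra R C) * (v - ω) = 0 := by
    rw [mul_sub, h4, sub_self]
  have h6 : v - ω = 0 := by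
    ext c
    have h7 : (((p ^ (n + 1) : ℕ) : MonoidAlgebra R C) * (v - ω)).coeff c =
        (0 : MonoidAlgebra R C).coeff c := by rw [h5]
    rw [← nsmul_eq_mul, coeff_smul, Finsupp.smul_apply, nsmul_eq_mul, coeff_zero,
      Finsupp.zero_apply] at h7
    rw [coeff_zero, Finsupp.zero_apply]
    exact torsion_pow p hT (n + 1) _ h7
  exact sub_eq_zero.1 h6

end

end Pool.Agent.Y69.Comm
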