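import Mathlib

/-!
# The monoid of elementary matrices over a monoid, and matrix rings over monoid rings
-/

namespace Pool.Agent.Y69.Mon

open Finset MonoidAlgebra Matrix

/-- the monoid with elements `1`, `0` and the elementary matrices with one entry in `G` -/
inductive EM (I G : Type*) : Type _
  | one : EM I G
  | zero : EM I G
  | e : I → I → G → EM I G

namespace EM

variable {I G H : Type*}

/-- multiplication -/
def mul' [DecidableEq I] [Mul G] : EM I G → EM I G → EM I G
  | .one, y => y
  | .zero, _ => .zero
  | .e i j g, .one => .e i j g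
  | .e _ _ _, .zero => .zero
  | .e i j g, .e k l h => if j = k then .e i l (g * h) else .zero

instance [DecidableEq I] [Monoid G] : Monoid (EM I G) where
  one := .one
  mul := mul'
  one_mul _ := rfl
  mul_one x := by cases x <;> rfl
  mul_assoc x y z := by
    show mul' (mul' x y) z = mul' x (mul' y z)
    rcases x with _ | _ | ⟨i, j, g⟩
    · rfl
    · rfl
    · rcases y with _ | _ | ⟨k, l, h⟩
      · rfl
      · rfl
      · rcases z with _ | _ | ⟨m, q, r⟩
        · by_cases h1 : j = k <;> simp [mul', h1]
        · by_cases h1 : j = k <;> simp [mul', h1]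
        · by_cases h1 : j = k <;> by_cases h2 : l = m <;> simp [mul', h1, h2, mul_assoc]

theorem one_eq [DecidableEq I] [Monoid G] : (1 : EM I G) = .one := rfl

theorem zero_mul' [DecidableEq I] [Monoid G] (x : EM I G) : EM.zero * x = .zero := rfl

theorem mul_zero' [DecidableEq I] [Monoid G] (x : EM I G) : x * EM.zero = .zero := by
  cases x <;> rfl

theorem e_mul_e [DecidableEq I] [Monoid G] (i j k l : I) (g h : G) :
    (EM.e i j g * EM.e k l h : EM I G) = if j = k then .e i l (g * h) else .zero := rfl

/-- functoriality -/
def map {J : Type*} [DecidableEq I] [DecidableEq J] [Monoid G] [Monoid H] (f : I → J)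
    (hf : Function.Injective f) (φ : G →* H) : EM I G →* EM J H where
  toFun x := match x with
    | .one => .one
    | .zero => .zero
    | .e i j g => .e (f i) (f j) (φ g)
  map_one' := rfl
  map_mul' x y := by
    rcases x with _ | _ | ⟨i, j, g⟩
    · rfl
    · rfl
    · rcases y with _ | _ | ⟨k, l, h⟩
      · rfl
      · rfl
      · rw [e_mul_e]
        show _ = (EM.e (f i) (f j) (φ g) * EM.e (f k) (f l) (φ h) : EM J H)
        rw [e_mul_e]
        by_cases h1 : j = k
        · rw [if_pos h1, if_pos (congrArg f h1)]
          show EM.e _ _ (φ (g * h)) = _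
          rw [map_mul]
        · rw [if_neg h1, if_neg (fun h2 => h1 (hf h2))]

theorem map_e {J : Type*} [DecidableEq I] [DecidableEq J] [Monoid G] [Monoid H] (f : I → J)
    (hf : Function.Injective f) (φ : G →* H) (i j : I) (g : G) :
    map f hf φ (.e i j g) = .e (f i) (f j) (φ g) := rfl

theorem map_zero' {J : Type*} [DecidableEq I] [DecidableEq J] [Monoid G] [Monoid H] (f : I → J)
    (hf : Function.Injective f) (φ : G →* H) :
    map f hf φ (.zero) = .zero := rfl

/-- the trace function -/
def trc {S : Type*} [Zero S] [DecidableEq I] (h : G → S) : EM I G → S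
  | .one => 0
  | .zero => 0
  | .e i j g => if i = j then h g else 0

theorem trc_comm {S : Type*} [Zero S] [DecidableEq I] [Monoid G] {h : G → S}
    (hh : ∀ x y, h (x * y) = h (y * x)) (x y : EM I G) : trc h (x * y) = trc h (y * x) := by
  rcases x with _ | _ | ⟨i, j, g⟩
  · show trc h (1 * y) = trc h (y * 1)
    rw [one_mul, mul_one]
  · rw [zero_mul', mul_zero']
  · rcases y with _ | _ | ⟨k, l, g'⟩
    · show trc h (_ * 1) = trc h (1 * _)
      rw [one_mul, mul_one]
    · rw [zero_mul', mul_zero']
    · rw [e_mul_e, e_mul_e]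
      by_cases h1 : j = k <;> by_cases h2 : l = i
      · subst h1; subst h2; simp [trc, hh g g']
      · have h3 : ¬ i = l := fun h => h2 h.symm
        simp [h1, h2, h3, trc]
      · have h3 : ¬ k = j := fun h => h1 h.symm
        simp [h1, h2, h3, trc]
      · simp [h1, h2]

instance {C : Type*} [CommGroup C] : CommMonoid (EM Unit C) where
  mul_comm x y := by
    rcases x with _ | _ | ⟨i, j, g⟩
    · show (1 * y : EM Unit C) = y * 1
      rw [one_mul, mul_one]
    · rw [zero_mul', mul_zero']
    · rcases y with _ | _ | ⟨k, l, g'⟩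
      · show (_ * 1 : EM Unit C) = 1 * _
        rw [one_mul, mul_one]
      · rw [zero_mul', mul_zero']
      · rw [e_mul_e, e_mul_e, if_pos rfl, if_pos rfl, mul_comm]

end EM

noncomputable section

variable {R : Type*} [CommRing R] {I G H : Type*} [DecidableEq I] [Monoid G] [Monoid H]

/-- the additive map `g ↦ e i j g - zero` -/
def el (i j : I) : MonoidAlgebra R G →+ MonoidAlgebra R (EM I G) where
  toFun x := mapDomain (fun g => EM.e i j g) x - mapDomain (fun _ => EM.zero) x
  map_zero' := by rw [mapDomain_zero, mapDomain_zero, sub_zero]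
  map_add' x y := by rw [mapDomain_add, mapDomain_add]; abel

theorem el_single (i j : I) (g : G) (r : R) :
    el i j (single g r : MonoidAlgebra R G) = single (EM.e i j g) r - single EM.zero r := by
  show mapDomain (fun g => EM.e i j g) (single g r) - mapDomain (fun _ => EM.zero) (single g r) = _
  rw [mapDomain_single, mapDomain_single]

theorem el_mul (i j k l : I) (a b : MonoidAlgebra R G) :
    el i j a * el k l b = if j = k then el i l (a * b) else 0 := by
  induction a using MonoidAlgebra.induction_linear with
  | zero => simp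
  | add x y hx hy =>
    rw [map_add, add_mul, hx, hy, add_mul, map_add]
    by_cases h : j = k <;> simp [h]
  | single g r =>
    induction b using MonoidAlgebra.induction_linear with
    | zero => simp
    | add x y hx hy =>
      rw [map_add, mul_add, hx, hy, mul_add, map_add]
      by_cases h : j = k <;> simp [h]
    | single h s =>
      rw [el_single, el_single, single_mul_single, el_single, mul_sub, sub_mul, sub_mul,
        single_mul_single, single_mul_single, single_mul_single, single_mul_single,
        EM.e_mul_e, EM.zero_mul', EM.mul_zero', EM.zero_mul']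
      by_cases h1 : j = k <;> simp [h1]

/-- the non-unital embedding of the matrix ring -/
def emb {n : Type*} [Fintype n] (c : n → I) : Matrix n n (MonoidAlgebra R G) →+ MonoidAlgebra R (EM I G) where
  toFun x := ∑ i, ∑ j, el (c i) (c j) (x i j)
  map_zero' := by simp
  map_add' x y := by
    simp only [Matrix.add_apply, map_add, Finset.sum_add_distrib]

theorem emb_apply {n : Type*} [Fintype n] (c : n → I) (x : Matrix n n (MonoidAlgebra R G)) :
    emb c x = ∑ i, ∑ j, el (c i) (c j) (x i j) := rfl

theorem emb_mul {n : Type*} [Fintype n] (c : n → I) (hc : Function.Injective c)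
    (x y : Matrix n n (MonoidAlgebra R G)) : emb c (x * y) = emb c x * emb c y := by
  classical
  rw [emb_apply, emb_apply, emb_apply]
  have h1 : ∀ i j k l, el (c i) (c j) (x i j) * el (c k) (c l) (y k l) =
      if j = k then el (c i) (c l) (x i j * y k l) else 0 := by
    intro i j k l
    rw [el_mul]
    by_cases h : j = k
    · rw [if_pos h, if_pos (congrArg c h)]
    · rw [if_neg h, if_neg (fun h' => h (hc h'))]
  rw [Finset.sum_mul]
  refine Finset.sum_congr rfl fun i _ => ?_
  rw [Finset.sum_mul]
  have h2 : ∀ j, el (c i) (c j) (x i j) * ∑ k, ∑ l, el (c k) (c l) (y k l) =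
      ∑ l, el (c i) (c l) (x i j * y j l) := by
    intro j
    rw [Finset.mul_sum, Finset.sum_eq_single j]
    · rw [Finset.mul_sum]
      refine Finset.sum_congr rfl fun l _ => ?_
      rw [h1, if_pos rfl]
    · intro k _ hk
      rw [Finset.mul_sum]
      refine Finset.sum_eq_zero fun l _ => ?_
      rw [h1, if_neg (fun h => hk h.symm)]
    · intro h; exact absurd (Finset.mem_univ _) h
  simp only [h2]
  rw [Finset.sum_comm]
  refine Finset.sum_congr rfl fun l _ => ?_
  rw [Matrix.mul_apply, map_sum]

/-- the multiplicative map `A ↦ 1 + L(A - 1)` -/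
def Th {n : Type*} [Fintype n] [DecidableEq n] (c : n → I) (hc : Function.Injective c) :
    Matrix n n (MonoidAlgebra R G) →* MonoidAlgebra R (EM I G) where
  toFun x := 1 + emb c (x - 1)
  map_one' := by rw [sub_self, map_zero, add_zero]
  map_mul' x y := by
    have h : x * y - 1 = (x - 1) * (y - 1) + (x - 1) + (y - 1) := by noncomm_ring
    rw [h, map_add, map_add, emb_mul c hc]
    noncomm_ring

theorem Th_apply {n : Type*} [Fintype n] [DecidableEq n] (c : n → I) (hc : Function.Injective c)
    (x : Matrix n n (MonoidAlgebra R G)) : Th c hc x = 1 + emb c (x - 1) := rfl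

theorem Th_stab {n : ℕ} (M : Matrix (Fin n) (Fin n) (MonoidAlgebra R G)) :
    Th (fun i : Fin (n + 1) => i.val) Fin.val_injective
      (Matrix.reindex finSumFinEquiv finSumFinEquiv
            (Matrix.fromBlocks M 0 0 (1 : Matrix (Fin 1) (Fin 1) (MonoidAlgebra R G)))) =
    Th (fun i : Fin n => i.val) Fin.val_injective M := by
  rw [Th_apply, Th_apply]
  congr 1
  rw [emb_apply, emb_apply]
  rw [← finSumFinEquiv.sum_comp, Fintype.sum_sum_type]
  have h2 : ∀ i : Fin 1, ∑ j : Fin (n + 1), el ((finSumFinEquiv (Sum.inr i : Fin n ⊕ Fin 1)) : ℕ) (j : ℕ)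
      (((Matrix.reindex finSumFinEquiv finSumFinEquiv
            (Matrix.fromBlocks M 0 0 (1 : Matrix (Fin 1) (Fin 1) (MonoidAlgebra R G)))) - 1)
            (finSumFinEquiv (Sum.inr i : Fin n ⊕ Fin 1)) j) = 0 := by
    intro i
    refine Finset.sum_eq_zero fun j _ => ?_
    have : ((Matrix.reindex finSumFinEquiv finSumFinEquiv
            (Matrix.fromBlocks M 0 0 (1 : Matrix (Fin 1) (Fin 1) (MonoidAlgebra R G)))) - 1)
            (finSumFinEquiv (Sum.inr i : Fin n ⊕ Fin 1)) j = 0 := by
      obtain ⟨j', rfl⟩ := finSumFinEquiv.surjective j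
      rcases j' with j' | j'
      · rw [Matrix.sub_apply, Matrix.reindex_apply, Matrix.submatrix_apply,
          Equiv.symm_apply_apply, Equiv.symm_apply_apply, Matrix.fromBlocks_apply₂₁,
          Matrix.one_apply_ne, Matrix.zero_apply, sub_zero]
        intro h
        have := finSumFinEquiv.injective h
        cases this
      · rw [Matrix.sub_apply, Matrix.reindex_apply, Matrix.submatrix_apply,
          Equiv.symm_apply_apply, Equiv.symm_apply_apply, Matrix.fromBlocks_apply₂₂,
          Subsingleton.elim j' i, Matrix.one_apply_eq, Matrix.one_apply_eq, sub_self]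
    rw [this, map_zero]
  rw [Finset.sum_eq_zero (s := (Finset.univ : Finset (Fin 1))) (fun i _ => h2 i), add_zero]
  refine Finset.sum_congr rfl fun i _ => ?_
  rw [← finSumFinEquiv.sum_comp, Fintype.sum_sum_type]
  have h3 : ∀ j : Fin 1, (((Matrix.reindex finSumFinEquiv finSumFinEquiv
            (Matrix.fromBlocks M 0 0 (1 : Matrix (Fin 1) (Fin 1) (MonoidAlgebra R G)))) - 1)
            (finSumFinEquiv (Sum.inl i : Fin n ⊕ Fin 1)) (finSumFinEquiv (Sum.inr j))) = 0 := by
    intro j
    rw [Matrix.sub_apply, Matrix.reindex_apply, Matrix.submatrix_apply,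
          Equiv.symm_apply_apply, Equiv.symm_apply_apply, Matrix.fromBlocks_apply₁₂,
          Matrix.one_apply_ne, Matrix.zero_apply, sub_zero]
    intro h
    have := finSumFinEquiv.injective h
    cases this
  have h4 : ∀ j : Fin n, (((Matrix.reindex finSumFinEquiv finSumFinEquiv
            (Matrix.fromBlocks M 0 0 (1 : Matrix (Fin 1) (Fin 1) (MonoidAlgebra R G)))) - 1)
            (finSumFinEquiv (Sum.inl i : Fin n ⊕ Fin 1)) (finSumFinEquiv (Sum.inl j))) =
            (M - 1) i j := by
    intro j
    rw [Matrix.sub_apply, Matrix.reindex_apply, Matrix.submatrix_apply,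
          Equiv.symm_apply_apply, Equiv.symm_apply_apply, Matrix.fromBlocks_apply₁₁,
          Matrix.sub_apply]
    congr 1
    by_cases h : i = j
    · rw [h, Matrix.one_apply_eq, Matrix.one_apply_eq]
    · rw [Matrix.one_apply_ne h, Matrix.one_apply_ne]
      intro h'
      exact h (Sum.inl_injective (finSumFinEquiv.injective h'))
  simp only [h3, h4, map_zero, Finset.sum_const_zero, add_zero]
  rfl

end

end Pool.Agent.Y69.Mon
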