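import Mathlib
import Pool.Agent.H842R2.K1
import Pool.Agent.Y69.Comm
import Pool.Agent.Y69.Mon

/-!
# The trace on `K₁` of a group ring with values modulo `p ^ (n+1)`
-/

namespace Pool.Agent.Y69.KTr

open Finset MonoidAlgebra Matrix H970SH H842 Pool.Agent.Y69.Beta Pool.Agent.Y69.Comm
  Pool.Agent.Y69.Mon

noncomputable section

theorem K1_lift {R : Type} [Ring R] {A : Type*} [AddCommGroup A]
    (F : ∀ n, (Matrix (Fin n) (Fin n) R)ˣ → A) (hmul : ∀ n M N, F n (M * N) = F n M + F n N)
    (hstab : ∀ n (M : (Matrix (Fin n) (Fin n) R)ˣ) (N : (Matrix (Fin (n + 1)) (Fin (n + 1)) R)ˣ),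
        (N : Matrix (Fin (n + 1)) (Fin (n + 1)) R) =
          Matrix.reindex finSumFinEquiv finSumFinEquiv
            (Matrix.fromBlocks (M : Matrix (Fin n) (Fin n) R) 0 0 (1 : Matrix (Fin 1) (Fin 1) R)) →
        F (n + 1) N = F n M) :
    ∃ Φ : K1 R →+ A, ∀ n M, Φ (K1.mk M) = F n M := by
  let g : FreeAbelianGroup (Σ n : ℕ, (Matrix (Fin n) (Fin n) R)ˣ) →+ A :=
    FreeAbelianGroup.lift fun x => F x.1 x.2
  have hg : AddSubgroup.closure (K1Rel R) ≤ g.ker := by
    rw [AddSubgroup.closure_le]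
    rintro x (⟨n, M, N, rfl⟩ | ⟨n, M, N, hN, rfl⟩)
    · show g _ = 0
      rw [map_sub, map_add]
      simp only [g, FreeAbelianGroup.lift_apply_of]
      rw [hmul, sub_self]
    · show g _ = 0
      rw [map_sub]
      simp only [g, FreeAbelianGroup.lift_apply_of]
      rw [hstab n M N hN, sub_self]
  refine ⟨QuotientAddGroup.lift _ g hg, ?_⟩
  intro n M
  show g _ = _
  simp only [g, FreeAbelianGroup.lift_apply_of]

variable {R : Type} [CommRing R] {G : Type} [Group G]
  {p n : ℕ} [hp : Fact p.Prime] (π : R →+* ZMod (p ^ (n + 1)))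

theorem Phi_el {C : Type} [CommGroup C] (x : MonoidAlgebra R C) :
    mapDomainRingHom R (powMonoidHom p) (el () () x) =
      el () () (mapDomainRingHom R (powMonoidHom p) x) := by
  have hpow : ∀ (c : C) (m : ℕ), (EM.e () () c : EM Unit C) ^ (m + 1) = EM.e () () (c ^ (m + 1)) := by
    intro c m
    induction m with
    | zero => rw [zero_add, pow_one, pow_one]
    | succ m ih => rw [pow_succ, ih, EM.e_mul_e, if_pos rfl, ← pow_succ]
  have hz : ∀ m : ℕ, (EM.zero : EM Unit C) ^ (m + 1) = EM.zero := by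
    intro m
    rw [pow_succ, EM.mul_zero']
  obtain ⟨m, hm⟩ : ∃ m, p = m + 1 := ⟨p - 1, (Nat.succ_pred_eq_of_pos hp.out.pos).symm⟩
  induction x using MonoidAlgebra.induction_linear with
  | zero => simp
  | add x y hx hy => rw [map_add, map_add, hx, hy, map_add, map_add]
  | single c r =>
    rw [el_single, map_sub, mapDomainRingHom_apply, mapDomainRingHom_apply,
      mapDomainRingHom_apply, mapDomain_single, mapDomain_single, mapDomain_single, el_single]
    rw [powMonoidHom_apply, powMonoidHom_apply, powMonoidHom_apply, hm, hpow, hz]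

/-- `x ↦ 1 + el (x - 1)` -/
def th1 {C : Type} [CommGroup C] : MonoidAlgebra R C →* MonoidAlgebra R (EM Unit C) where
  toFun x := 1 + el () () (x - 1)
  map_one' := by rw [sub_self, map_zero, add_zero]
  map_mul' x y := by
    have h : x * y - 1 = (x - 1) * (y - 1) + (x - 1) + (y - 1) := by noncomm_ring
    have h2 := el_mul (R := R) () () () () (x - 1) (y - 1)
    rw [if_pos rfl] at h2
    rw [h, map_add, map_add, ← h2]
    noncomm_ring

theorem th1_apply {C : Type} [CommGroup C] (x : MonoidAlgebra R C) :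
    th1 x = 1 + el () () (x - 1) := rfl

theorem map_el {C : Type} [CommGroup C] (φ : C →* G) (x : MonoidAlgebra R C) :
    mapDomainRingHom R (EM.map (fun _ : Unit => (0 : ℕ)) (Function.injective_of_subsingleton _) φ)
      (el () () x) = el 0 0 (mapDomainRingHom R φ x) := by
  induction x using MonoidAlgebra.induction_linear with
  | zero => simp
  | add x y hx hy => rw [map_add, map_add, hx, hy, map_add, map_add]
  | single c r =>
    rw [el_single, map_sub, mapDomainRingHom_apply, mapDomainRingHom_apply,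
      mapDomainRingHom_apply, mapDomain_single, mapDomain_single, mapDomain_single, el_single]
    rfl

theorem ev_el {C : Type} [CommGroup C] (f : C → ZMod (p ^ (n + 1)))
    (χ : EM Unit C → ZMod (p ^ (n + 1))) (h0 : χ EM.zero = 0) (h1 : ∀ c, χ (EM.e () () c) = f c)
    (x : MonoidAlgebra R C) : ev π χ (el () () x) = ev π f x := by
  induction x using MonoidAlgebra.induction_linear with
  | zero => simp
  | add x y hx hy => rw [map_add, map_add, hx, hy, map_add]
  | single c r =>
    rw [el_single, map_sub, ev_single, ev_single, ev_single, h0, h1, mul_zero, sub_zero]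

theorem Th_unit1 {C : Type} [CommGroup C] (φ : C →* G) (u : (MonoidAlgebra R C)ˣ) :
    Units.map (Th (fun i : Fin (Fintype.card Unit) => i.val) Fin.val_injective)
      (reindexUnit (Fintype.equivFin Unit) (mapUnit (mapDomainRingHom R φ) (unit1 u))) =
      Units.map (mapDomainRingHom R (EM.map (fun _ : Unit => (0 : ℕ))
        (Function.injective_of_subsingleton _) φ) : MonoidAlgebra R (EM Unit C) →*
          MonoidAlgebra R (EM ℕ G)) (Units.map th1 u) := by
  apply Units.ext
  show Th _ _ _ = mapDomainRingHom R _ (th1 (u : MonoidAlgebra R C))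
  rw [Th_apply, th1_apply, map_add, map_one, map_el, (mapDomainRingHom R φ).map_sub,
    (mapDomainRingHom R φ).map_one, emb_apply]
  congr 1
  rw [← (Fintype.equivFin Unit).sum_comp]
  rw [Fintype.sum_unique]
  rw [← (Fintype.equivFin Unit).sum_comp]
  rw [Fintype.sum_unique]
  have e2 : ((Fintype.equivFin Unit) default : Fin (Fintype.card Unit)).val = 0 := by
    have := ((Fintype.equivFin Unit) default : Fin (Fintype.card Unit)).isLt
    have h2 : Fintype.card Unit = 1 := Fintype.card_unit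
    omega
  rw [e2]
  congr 1
  rw [Matrix.sub_apply, Matrix.one_apply_eq]
  congr 1

theorem th1_cond {C : Type} [CommGroup C] (u : (MonoidAlgebra R C)ˣ) (η : MonoidAlgebra R C)
    (hη : (u : MonoidAlgebra R C) ^ p ^ (n + 1) =
          mapDomainRingHom R (powMonoidHom p) (u : MonoidAlgebra R C) ^ p ^ n *
            (1 + ((p ^ (n + 1) : ℕ) : MonoidAlgebra R C) * η)) :
    ((Units.map th1 u : (MonoidAlgebra R (EM Unit C))ˣ) : MonoidAlgebra R (EM Unit C)) ^ p ^ (n + 1) =
      mapDomainRingHom R (powMonoidHom p)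
        ((Units.map th1 u : (MonoidAlgebra R (EM Unit C))ˣ) : MonoidAlgebra R (EM Unit C)) ^ p ^ n *
      (1 + ((p ^ (n + 1) : ℕ) : MonoidAlgebra R (EM Unit C)) * el () () η) := by
  rw [Units.coe_map]
  have e3 : mapDomainRingHom R (powMonoidHom p) (th1 (u : MonoidAlgebra R C)) =
      th1 (mapDomainRingHom R (powMonoidHom p) (u : MonoidAlgebra R C)) := by
    rw [th1_apply, th1_apply, map_add, map_one, Phi_el, map_sub, map_one]
  have e4 : (1 + ((p ^ (n + 1) : ℕ) : MonoidAlgebra R (EM Unit C)) * el () () η) =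
      th1 (1 + ((p ^ (n + 1) : ℕ) : MonoidAlgebra R C) * η) := by
    rw [th1_apply, add_sub_cancel_left, ← nsmul_eq_mul, ← nsmul_eq_mul, map_nsmul]
  rw [e3, e4, ← map_pow, ← map_pow, ← map_mul, hη]

/-- the value on matrices -/
def trF (h : G → ZMod (p ^ (n + 1))) (hh : ∀ x y, h (x * y) = h (y * x)) (m : ℕ)
    (M : (Matrix (Fin m) (Fin m) (MonoidAlgebra R G))ˣ) : ZMod (p ^ (n + 1)) :=
  beta π (χ := EM.trc h) (EM.trc_comm hh)
      (Units.map (Th (fun i : Fin m => i.val) Fin.val_injective) M)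

theorem trF_mul (hT : ∀ a : R, (p : R) * a = 0 → a = 0)
    (hF : ∀ a : R, (p : R) ∣ a ^ p - a) (h : G → ZMod (p ^ (n + 1)))
    (hh : ∀ x y, h (x * y) = h (y * x)) (m : ℕ)
    (M N : (Matrix (Fin m) (Fin m) (MonoidAlgebra R G))ˣ) :
    trF π h hh m (M * N) = trF π h hh m M + trF π h hh m N := by
  unfold trF
  rw [map_mul]
  exact beta_mul π _ hT hF _ _

theorem trF_stab (h : G → ZMod (p ^ (n + 1)))
    (hh : ∀ x y, h (x * y) = h (y * x)) (m : ℕ)
    (M : (Matrix (Fin m) (Fin m) (MonoidAlgebra R G))ˣ)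
    (N : (Matrix (Fin (m + 1)) (Fin (m + 1)) (MonoidAlgebra R G))ˣ)
    (hN : (N : Matrix (Fin (m + 1)) (Fin (m + 1)) (MonoidAlgebra R G)) =
          Matrix.reindex finSumFinEquiv finSumFinEquiv
            (Matrix.fromBlocks (M : Matrix (Fin m) (Fin m) (MonoidAlgebra R G)) 0 0
              (1 : Matrix (Fin 1) (Fin 1) (MonoidAlgebra R G)))) :
    trF π h hh (m + 1) N = trF π h hh m M := by
  have : Units.map (Th (fun i : Fin (m + 1) => i.val) Fin.val_injective) N =
      Units.map (Th (fun i : Fin m => i.val) Fin.val_injective) M := by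
    apply Units.ext
    rw [Units.coe_map, Units.coe_map, hN, Th_stab]
  unfold trF
  rw [this]

theorem beta_th1 {C : Type} [CommGroup C] (hodd : Odd p) (hT : ∀ a : R, (p : R) * a = 0 → a = 0)
    (hF : ∀ a : R, (p : R) ∣ a ^ p - a) (χ : EM Unit C → ZMod (p ^ (n + 1)))
    (hχ : ∀ x y, χ (x * y) = χ (y * x)) (u : (MonoidAlgebra R C)ˣ) (η : MonoidAlgebra R C)
    (hη : (u : MonoidAlgebra R C) ^ p ^ (n + 1) =
          mapDomainRingHom R (powMonoidHom p) (u : MonoidAlgebra R C) ^ p ^ n *
            (1 + ((p ^ (n + 1) : ℕ) : MonoidAlgebra R C) * η)) :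
    beta π hχ (Units.map th1 u) = ev π χ (el () () η) := by
  exact beta_comm π hodd hT hF χ hχ (Units.map th1 u) (el () () η) (th1_cond u η hη)

/-- the trace on `K₁` and its values on units of the group rings of abelian groups -/
theorem exists_trace (hodd : Odd p) (hT : ∀ a : R, (p : R) * a = 0 → a = 0)
    (hF : ∀ a : R, (p : R) ∣ a ^ p - a) (h : G → ZMod (p ^ (n + 1)))
    (hh : ∀ x y, h (x * y) = h (y * x)) :
    ∃ T : K1 (MonoidAlgebra R G) →+ ZMod (p ^ (n + 1)),
      ∀ (C : Type) [CommGroup C] (φ : C →* G) (u : (MonoidAlgebra R C)ˣ) (η : MonoidAlgebra R C),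
        (u : MonoidAlgebra R C) ^ p ^ (n + 1) =
          mapDomainRingHom R (powMonoidHom p) (u : MonoidAlgebra R C) ^ p ^ n *
            (1 + ((p ^ (n + 1) : ℕ) : MonoidAlgebra R C) * η) →
        T (cl (mapUnit (mapDomainRingHom R φ) (unit1 u))) = ev π (fun c => h (φ c)) η := by
  obtain ⟨T, hTT⟩ := K1_lift (R := MonoidAlgebra R G) (trF π h hh) (trF_mul π hT hF h hh)
    (trF_stab π h hh)
  refine ⟨T, ?_⟩
  intro C _ φ u η hη
  unfold cl
  rw [hTT]
  unfold trF
  rw [Th_unit1, beta_map π _ hT hF, beta_th1 π hodd hT hF _ _ u η hη]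
  exact ev_el π _ _ rfl (fun c => rfl) η

end

end Pool.Agent.Y69.KTr
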