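import Mathlib

/-!
# Separating classes induced from cyclic subgroups by class functions
-/

namespace Pool.Agent.Y69.StepC

open Finset

/-- A functor on finite abelian groups with a character map. -/
structure Theory (Λ : Type) [CommRing Λ] (E : ℕ) where
  U : (C : Type) → [CommGroup C] → Type
  grp : ∀ (C : Type) [CommGroup C], AddCommGroup (U C)
  map : ∀ {C D : Type} [CommGroup C] [CommGroup D], (C →* D) → U C →+ U D
  b : ∀ {C : Type} [CommGroup C], U C → C → Λ
  b_add : ∀ {C : Type} [CommGroup C] [Finite C], Nat.card C ∣ E → ∀ u v : U C,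
    b (u + v) = b u + b v
  b_map : ∀ {C D : Type} [CommGroup C] [CommGroup D] [Finite C] [Finite D], Nat.card D ∣ E →
    ∀ (f : C →* D), Function.Injective f → ∀ (u : U C) (c : C), b (map f u) (f c) = b u c
  b_map_not : ∀ {C D : Type} [CommGroup C] [CommGroup D] [Finite C] [Finite D], Nat.card D ∣ E →
    ∀ (f : C →* D), Function.Injective f → ∀ (u : U C) (d : D), d ∉ Set.range f →
      b (map f u) d = 0
  res : ∀ {C : Type} [CommGroup C] [Finite C], Nat.card C ∣ E → ∀ (D : Subgroup C) (u : U C),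
    ∃ (k : ℕ) (v : U D), 0 < k ∧ ∀ d : D, b v d = k * b u d
  tors : ∀ {C : Type} [CommGroup C] [Finite C], Nat.card C ∣ E → ∀ u : U C, b u = 0 →
    ∃ k : ℕ, 0 < k ∧ k • u = 0

attribute [instance] Theory.grp

namespace Theory

variable {Λ : Type} [CommRing Λ] {E : ℕ} (S : Theory Λ E)

theorem b_zero {C : Type} [CommGroup C] [Finite C] (hC : Nat.card C ∣ E) :
    S.b (0 : S.U C) = 0 := by
  have h := S.b_add hC (0 : S.U C) 0
  rw [add_zero] at h
  exact left_eq_add.1 h

theorem b_neg {C : Type} [CommGroup C] [Finite C] (hC : Nat.card C ∣ E) (u : S.U C) :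
    S.b (-u) = -S.b u := by
  have h := S.b_add hC u (-u)
  rw [add_neg_cancel, S.b_zero hC] at h
  exact (neg_eq_of_add_eq_zero_right h.symm).symm

theorem b_nsmul {C : Type} [CommGroup C] [Finite C] (hC : Nat.card C ∣ E) (u : S.U C) (k : ℕ)
    (c : C) : S.b (k • u) c = k * S.b u c := by
  induction k with
  | zero => rw [zero_smul, S.b_zero hC, Nat.cast_zero, zero_mul]; rfl
  | succ k ih => rw [succ_nsmul, S.b_add hC, Pi.add_apply, ih, Nat.cast_succ, add_mul, one_mul]

theorem b_sum {C : Type} [CommGroup C] [Finite C] (hC : Nat.card C ∣ E) {ι : Type*}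
    (s : Finset ι) (u : ι → S.U C) (c : C) : S.b (∑ i ∈ s, u i) c = ∑ i ∈ s, S.b (u i) c := by
  classical
  induction s using Finset.induction_on with
  | empty => rw [Finset.sum_empty, Finset.sum_empty, S.b_zero hC]; rfl
  | insert a s ha ih =>
    rw [Finset.sum_insert ha, Finset.sum_insert ha, S.b_add hC, Pi.add_apply, ih]

/-- supported on the generators -/
def Good {C : Type} [CommGroup C] (u : S.U C) : Prop :=
  ∀ c, Subgroup.zpowers c ≠ ⊤ → S.b u c = 0

/-- objects -/
structure Obj (G : Type) [Group G] where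
  C : Type
  [grp : CommGroup C]
  [fin : Finite C]
  dvd : Nat.card C ∣ E
  φ : C →* G
  inj : Function.Injective φ
  u : S.U C
  good : S.Good u

attribute [instance] Obj.grp Obj.fin

variable {S} {G : Type} [Group G] {𝒜 : Type} [AddCommGroup 𝒜]

/-- the conjugation relation of the underlying subgroups -/
def Conj (X Y : Obj S G) : Prop :=
  ∃ (f : Y.C ≃* X.C) (g : G), ∀ y, X.φ (f y) = g * Y.φ y * g⁻¹

theorem Conj.refl (X : Obj S G) : Conj X X := ⟨MulEquiv.refl _, 1, fun y => by simp⟩

theorem conj_of {X Y : Obj S G} {x : X.C} {y : Y.C} (hx : Subgroup.zpowers x = ⊤)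
    (hy : Subgroup.zpowers y = ⊤) {g : G} (h : X.φ x = g * Y.φ y * g⁻¹) : Conj X Y := by
  have ho : orderOf y = orderOf x := by
    rw [← orderOf_injective X.φ X.inj x, ← orderOf_injective Y.φ Y.inj y, h]
    exact ((MulAut.conj g).orderOf_eq (Y.φ y)).symm
  have hx' : ∀ z, z ∈ Subgroup.zpowers x := fun z => by rw [hx]; exact Subgroup.mem_top z
  have hy' : ∀ z, z ∈ Subgroup.zpowers y := fun z => by rw [hy]; exact Subgroup.mem_top z
  refine ⟨mulEquivOfOrderOfEq hy' hx' ho, g, fun z => ?_⟩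
  obtain ⟨k, rfl⟩ := Subgroup.mem_zpowers_iff.1 (hy' z)
  rw [map_zpow, mulEquivOfOrderOfEq_apply_gen, map_zpow, map_zpow, h, conj_zpow]

variable (sym : ∀ {C : Type} [CommGroup C] [Finite C], (C →* G) → (S.U C →+ 𝒜))
  (hs : ∀ {C D : Type} [CommGroup C] [CommGroup D] [Finite C] [Finite D] (φ : C →* G)
    (ψ : D →* G) (f : D →* C) (g : G), (∀ x, φ (f x) = g * ψ x * g⁻¹) →
      ∀ u, sym φ (S.map f u) = sym ψ u)

/-- the value of an object -/
def val (X : Obj S G) : 𝒜 := sym X.φ X.u

/-- the subgroup generated by the values of objects -/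
def Q : AddSubgroup 𝒜 := AddSubgroup.closure (Set.range (val sym))

/-- its torsion saturation -/
def Qtor : AddSubgroup 𝒜 where
  carrier := {y | ∃ m : ℕ, 0 < m ∧ m • y ∈ Q sym}
  zero_mem' := ⟨1, one_pos, by rw [smul_zero]; exact (Q sym).zero_mem⟩
  add_mem' := by
    rintro a b ⟨m, hm, ha⟩ ⟨n, hn, hb⟩
    refine ⟨m * n, Nat.mul_pos hm hn, ?_⟩
    rw [smul_add]
    refine (Q sym).add_mem ?_ ?_
    · rw [mul_comm, mul_smul]; exact (Q sym).nsmul_mem ha n
    · rw [mul_smul]; exact (Q sym).nsmul_mem hb m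
  neg_mem' := by
    rintro a ⟨m, hm, ha⟩
    exact ⟨m, hm, by rw [smul_neg]; exact (Q sym).neg_mem ha⟩

include hs in
theorem C3 : ∀ (n : ℕ) (C : Type) [CommGroup C] [Finite C] (_ : Nat.card C = n)
    (_ : Nat.card C ∣ E) (φ : C →* G) (_ : Function.Injective φ) (u : S.U C),
    sym φ u ∈ Qtor sym := by
  intro n
  induction n using Nat.strong_induction_on with
  | _ n ih =>
  intro C _ _ hn hE φ hφ u
  classical
  have key : ∀ 𝒟 : Finset (Subgroup C), (∀ D ∈ 𝒟, D ≠ ⊤) → ∃ (M : ℕ) (u' : S.U C), 0 < M ∧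
      M • sym φ u - sym φ u' ∈ Qtor sym ∧ ∀ D ∈ 𝒟, ∀ c ∈ D, S.b u' c = 0 := by
    intro 𝒟
    induction 𝒟 using Finset.induction_on with
    | empty =>
      intro _
      refine ⟨1, u, one_pos, ?_, ?_⟩
      · rw [one_smul, sub_self]; exact (Qtor sym).zero_mem
      · intro D hD; exact absurd hD (Finset.notMem_empty D)
    | insert D 𝒟 _ ih2 =>
      intro h𝒟
      obtain ⟨M, u', hM, h1, h2⟩ := ih2 fun D' hD' => h𝒟 D' (Finset.mem_insert_of_mem hD')
      have hD : D ≠ ⊤ := h𝒟 D (Finset.mem_insert_self D 𝒟)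
      obtain ⟨k, v, hk, hv⟩ := S.res hE D u'
      have hcard : Nat.card D ∣ Nat.card C := Subgroup.card_subgroup_dvd_card D
      have hlt : Nat.card D < n := by
        rw [← hn]
        refine lt_of_le_of_ne (Nat.le_of_dvd Nat.card_pos hcard) ?_
        intro h
        exact hD ((Subgroup.card_eq_iff_eq_top D).1 h)
      have h3 : sym (φ.comp D.subtype) v ∈ Qtor sym :=
        ih (Nat.card D) hlt D rfl (hcard.trans hE) (φ.comp D.subtype)
          (hφ.comp Subtype.val_injective) v
      have h4 : sym φ (S.map D.subtype v) = sym (φ.comp D.subtype) v :=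
        hs φ (φ.comp D.subtype) D.subtype 1 (fun x => by simp) v
      refine ⟨k * M, k • u' - S.map D.subtype v, Nat.mul_pos hk hM, ?_, ?_⟩
      · rw [map_sub, map_nsmul, h4]
        have e : (k * M) • sym φ u - (k • sym φ u' - sym (φ.comp D.subtype) v) =
          k • (M • sym φ u - sym φ u') + sym (φ.comp D.subtype) v := by
          rw [mul_smul, smul_sub]; abel
        rw [e]
        exact (Qtor sym).add_mem ((Qtor sym).nsmul_mem h1 k) h3
      · have h5 : ∀ c, c ∈ D → S.b (k • u' - S.map D.subtype v) c = 0 := by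
          intro c hc
          rw [sub_eq_add_neg, S.b_add hE, Pi.add_apply, S.b_neg hE, Pi.neg_apply, S.b_nsmul hE]
          have h6 := S.b_map hE D.subtype Subtype.val_injective v ⟨c, hc⟩
          have h7 : D.subtype ⟨c, hc⟩ = c := rfl
          rw [h7] at h6
          rw [h6, hv ⟨c, hc⟩, add_neg_cancel]
        intro D' hD' c hc
        rcases Finset.mem_insert.1 hD' with rfl | hD'
        · exact h5 c hc
        · by_cases hcD : c ∈ D
          · exact h5 c hcD
          · rw [sub_eq_add_neg, S.b_add hE, Pi.add_apply, S.b_neg hE, Pi.neg_apply,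
              S.b_nsmul hE, h2 D' hD' c hc, mul_zero, S.b_map_not hE D.subtype
                Subtype.val_injective v c (by
                  rintro ⟨d, hd⟩
                  exact hcD (hd ▸ d.2)), neg_zero, add_zero]
  have : Fintype (Subgroup C) := Fintype.ofFinite _
  obtain ⟨M, u', hM, h1, h2⟩ := key (Finset.univ.filter fun D => D ≠ ⊤)
    (fun D hD => (Finset.mem_filter.1 hD).2)
  have hgood : S.Good u' := by
    intro c hc
    exact h2 (Subgroup.zpowers c) (Finset.mem_filter.2 ⟨Finset.mem_univ _, hc⟩) c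
      (Subgroup.mem_zpowers c)
  have h3 : sym φ u' ∈ Q sym :=
    AddSubgroup.subset_closure ⟨{ C := C, dvd := hE, φ := φ, inj := hφ, u := u', good := hgood }, rfl⟩
  have h4 : M • sym φ u ∈ Qtor sym := by
    have : M • sym φ u = (M • sym φ u - sym φ u') + sym φ u' := by abel
    rw [this]
    exact (Qtor sym).add_mem h1 ⟨1, one_pos, by rw [one_smul]; exact h3⟩
  obtain ⟨m, hm, h5⟩ := h4
  exact ⟨m * M, Nat.mul_pos hm hM, by rw [mul_smul]; exact h5⟩

theorem Good.zero {C : Type} [CommGroup C] [Finite C] (hC : Nat.card C ∣ E) :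
    S.Good (0 : S.U C) := fun c _ => by rw [S.b_zero hC]; rfl

theorem Good.add {C : Type} [CommGroup C] [Finite C] (hC : Nat.card C ∣ E) {u v : S.U C}
    (hu : S.Good u) (hv : S.Good v) : S.Good (u + v) := fun c hc => by
  rw [S.b_add hC, Pi.add_apply, hu c hc, hv c hc, add_zero]

theorem Good.neg {C : Type} [CommGroup C] [Finite C] (hC : Nat.card C ∣ E) {u : S.U C}
    (hu : S.Good u) : S.Good (-u) := fun c hc => by
  rw [S.b_neg hC, Pi.neg_apply, hu c hc, neg_zero]

theorem zpowers_map_top {C D : Type} [CommGroup C] [CommGroup D] (f : C ≃* D) (c : C)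
    (h : Subgroup.zpowers (f c) ≠ ⊤) : Subgroup.zpowers c ≠ ⊤ := by
  intro h1
  apply h
  rw [eq_top_iff]
  intro d _
  have h2 : f.symm d ∈ Subgroup.zpowers c := by rw [h1]; exact Subgroup.mem_top _
  obtain ⟨k, hk⟩ := Subgroup.mem_zpowers_iff.1 h2
  refine Subgroup.mem_zpowers_iff.2 ⟨k, ?_⟩
  rw [← map_zpow, hk, MulEquiv.apply_symm_apply]

theorem Good.map {C D : Type} [CommGroup C] [CommGroup D] [Finite C] [Finite D]
    (hD : Nat.card D ∣ E) {u : S.U C} (hu : S.Good u) (f : C ≃* D) :
    S.Good (S.map f.toMonoidHom u) := by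
  intro d hd
  have h1 : d = f.toMonoidHom (f.symm d) := (f.apply_symm_apply d).symm
  rw [h1, S.b_map hD f.toMonoidHom f.injective]
  apply hu
  apply zpowers_map_top f
  rw [MulEquiv.apply_symm_apply]
  exact hd

include hs in
theorem merge (X : Obj S G) (m : Multiset (Obj S G)) (hm : ∀ Y ∈ m, Conj X Y) :
    ∃ V : S.U X.C, S.Good V ∧ (m.map (val sym)).sum = sym X.φ V := by
  induction m using Multiset.induction_on with
  | empty => exact ⟨0, Good.zero X.dvd, by simp⟩
  | cons Y m ih =>
    obtain ⟨V, hV, h1⟩ := ih fun Z hZ => hm Z (Multiset.mem_cons_of_mem hZ)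
    obtain ⟨f, g, hfg⟩ := hm Y (Multiset.mem_cons_self Y m)
    refine ⟨S.map f.toMonoidHom Y.u + V, Good.add X.dvd (Good.map X.dvd Y.good f) hV, ?_⟩
    rw [Multiset.map_cons, Multiset.sum_cons, h1, map_add, hs X.φ Y.φ f.toMonoidHom g hfg]
    rfl

variable (T : (G → ℤ) → 𝒜 →+ Λ)
  (hT : ∀ h : G → ℤ, (∀ x y, h (x * y) = h (y * x)) → ∀ (C : Type) [CommGroup C] [Fintype C]
    (_ : Nat.card C ∣ E) (φ : C →* G) (u : S.U C),
      T h (sym φ u) = ∑ c, S.b u c * ((h (φ c) : ℤ) : Λ))

/-- the function `h` is supported on the conjugates of the generators of `X` -/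
def Supp (X : Obj S G) (h : G → ℤ) : Prop :=
  ∀ y : G, h y ≠ 0 → ∃ (x : X.C) (g : G), Subgroup.zpowers x = ⊤ ∧ X.φ x = g * y * g⁻¹

include hT in
theorem T_nonconj {X Y : Obj S G} (hXY : ¬ Conj X Y) {h : G → ℤ}
    (hh : ∀ x y, h (x * y) = h (y * x)) (hsupp : Supp X h) : T h (val sym Y) = 0 := by
  classical
  have : Fintype Y.C := Fintype.ofFinite _
  unfold val
  rw [hT h hh Y.C Y.dvd]
  refine Finset.sum_eq_zero fun y _ => ?_
  by_cases hy : Subgroup.zpowers y = ⊤
  · by_cases h0 : h (Y.φ y) = 0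
    · rw [h0, Int.cast_zero, mul_zero]
    · obtain ⟨x, g, hx, hxg⟩ := hsupp _ h0
      exact absurd (conj_of hx hy hxg) hXY
  · rw [Y.good y hy, zero_mul]

include hs hT in
theorem torsion_of {X : Obj S G} (V : S.U X.C) (hV : S.Good V)
    (h0 : ∀ h : G → ℤ, (∀ x y, h (x * y) = h (y * x)) → Supp X h → T h (sym X.φ V) = 0) :
    ∃ k : ℕ, 0 < k ∧ k • sym X.φ V = 0 := by
  classical
  have : Fintype X.C := Fintype.ofFinite _
  have : Fintype (X.C ≃* X.C) := Fintype.ofFinite _
  let W : Finset (X.C ≃* X.C) :=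
    Finset.univ.filter fun w => ∃ g : G, ∀ c, X.φ (w c) = g * X.φ c * g⁻¹
  have hW1 : (MulEquiv.refl X.C) ∈ W :=
    Finset.mem_filter.2 ⟨Finset.mem_univ _, 1, fun c => by simp⟩
  have hWpos : 0 < W.card := Finset.card_pos.2 ⟨_, hW1⟩
  let V' : S.U X.C := ∑ w ∈ W, S.map w.toMonoidHom V
  have e1 : sym X.φ V' = W.card • sym X.φ V := by
    show sym X.φ (∑ w ∈ W, S.map w.toMonoidHom V) = _
    rw [map_sum, ← Finset.sum_const]
    refine Finset.sum_congr rfl fun w hw => ?_
    obtain ⟨g, hg⟩ := (Finset.mem_filter.1 hw).2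
    exact hs X.φ X.φ w.toMonoidHom g hg V
  have e2 : ∀ c, S.b V' c = ∑ w ∈ W, S.b V (w.symm c) := by
    intro c
    show S.b (∑ w ∈ W, S.map w.toMonoidHom V) c = _
    rw [S.b_sum X.dvd]
    refine Finset.sum_congr rfl fun w _ => ?_
    have h1 : c = w.toMonoidHom (w.symm c) := (w.apply_symm_apply c).symm
    conv_lhs => rw [h1]
    rw [S.b_map X.dvd w.toMonoidHom w.injective]
  have e3 : S.b V' = 0 := by
    funext c
    rw [e2]
    by_cases hc : Subgroup.zpowers c = ⊤
    · -- use the indicator function of the conjugacy class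
      let h : G → ℤ := fun y => if IsConj (X.φ c) y then 1 else 0
      have hh : ∀ x y, h (x * y) = h (y * x) := by
        intro x y
        have : IsConj (X.φ c) (x * y) ↔ IsConj (X.φ c) (y * x) := by
          have hxy : IsConj (x * y) (y * x) := isConj_iff.2 ⟨y, by group⟩
          exact ⟨fun h => h.trans hxy, fun h => h.trans hxy.symm⟩
        show (if IsConj (X.φ c) (x * y) then (1 : ℤ) else 0) = if IsConj (X.φ c) (y * x) then 1 else 0
        simp only [this]
      have hsupp : Supp X h := by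
        intro y hy
        have h2 : IsConj (X.φ c) y := by
          by_contra h3
          exact hy (if_neg h3)
        obtain ⟨g, hg⟩ := isConj_iff.1 h2
        exact ⟨c, g⁻¹, hc, by rw [← hg]; group⟩
      have h4 := h0 h hh hsupp
      rw [hT h hh X.C X.dvd] at h4
      have h5 : ∑ x, S.b V x * ((h (X.φ x) : ℤ) : Λ) =
          ∑ x ∈ Finset.univ.filter (fun x => IsConj (X.φ c) (X.φ x)), S.b V x := by
        rw [Finset.sum_filter]
        refine Finset.sum_congr rfl fun x _ => ?_
        show S.b V x * (((if IsConj (X.φ c) (X.φ x) then (1 : ℤ) else 0) : ℤ) : Λ) = _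
        by_cases h6 : IsConj (X.φ c) (X.φ x)
        · rw [if_pos h6, if_pos h6, Int.cast_one, mul_one]
        · rw [if_neg h6, if_neg h6, Int.cast_zero, mul_zero]
      rw [h5] at h4
      rw [Pi.zero_apply, ← h4]
      refine Finset.sum_bij (fun w _ => w.symm c) ?_ ?_ ?_ ?_
      · intro w hw
        rw [Finset.mem_filter]
        refine ⟨Finset.mem_univ _, ?_⟩
        obtain ⟨g, hg⟩ := (Finset.mem_filter.1 hw).2
        have h7 := hg (w.symm c)
        rw [MulEquiv.apply_symm_apply] at h7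
        exact (isConj_iff.2 ⟨g, h7.symm⟩).symm
      · intro w hw w' hw' hww
        have h8 : w.symm = w'.symm := by
          ext z
          have hz : z ∈ Subgroup.zpowers c := by rw [hc]; exact Subgroup.mem_top _
          obtain ⟨k, rfl⟩ := Subgroup.mem_zpowers_iff.1 hz
          rw [map_zpow, map_zpow]
          rw [hww]
        have h9 := congrArg MulEquiv.symm h8
        exact h9
      · intro x hx
        obtain ⟨g, hg⟩ := isConj_iff.1 (Finset.mem_filter.1 hx).2
        have ho : orderOf x = orderOf c := by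
          rw [← orderOf_injective X.φ X.inj x, ← orderOf_injective X.φ X.inj c, ← hg]
          exact (MulAut.conj g).orderOf_eq (X.φ c)
        have hcx : Subgroup.zpowers x = ⊤ := by
          rw [← Subgroup.card_eq_iff_eq_top, Nat.card_zpowers, ho, ← Nat.card_zpowers, hc]
          exact (Subgroup.card_eq_iff_eq_top _).2 rfl
        have hx' : ∀ z, z ∈ Subgroup.zpowers x := fun z => by rw [hcx]; exact Subgroup.mem_top z
        have hc' : ∀ z, z ∈ Subgroup.zpowers c := fun z => by rw [hc]; exact Subgroup.mem_top z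
        let w : X.C ≃* X.C := mulEquivOfOrderOfEq hx' hc' ho
        have hwx : w x = c := mulEquivOfOrderOfEq_apply_gen hx' hc' ho
        refine ⟨w, ?_, ?_⟩
        · rw [Finset.mem_filter]
          refine ⟨Finset.mem_univ _, g⁻¹, fun z => ?_⟩
          obtain ⟨k, rfl⟩ := Subgroup.mem_zpowers_iff.1 (hx' z)
          rw [map_zpow, hwx, map_zpow, map_zpow, ← hg, ← conj_zpow]
          congr 1
          group
        · rw [← hwx, MulEquiv.symm_apply_apply]
      · intro w _; rfl
    · rw [Pi.zero_apply]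
      refine Finset.sum_eq_zero fun w _ => hV _ ?_
      apply zpowers_map_top w
      rw [MulEquiv.apply_symm_apply]
      exact hc
  obtain ⟨k, hk, h1⟩ := S.tors X.dvd V' e3
  refine ⟨k * W.card, Nat.mul_pos hk hWpos, ?_⟩
  rw [mul_smul, ← e1, ← map_nsmul, h1, map_zero]

include hs hT in
theorem multiset_torsion : ∀ (n : ℕ) (m : Multiset (Obj S G)), m.card = n →
    (∀ h : G → ℤ, (∀ x y, h (x * y) = h (y * x)) → T h (m.map (val sym)).sum = 0) →
    ∃ k : ℕ, 0 < k ∧ k • (m.map (val sym)).sum = 0 := by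
  classical
  intro n
  induction n using Nat.strong_induction_on with
  | _ n ih =>
  intro m hm h0
  by_cases hempty : m = 0
  · exact ⟨1, one_pos, by rw [hempty]; simp⟩
  obtain ⟨X, hX⟩ := Multiset.exists_mem_of_ne_zero hempty
  have hsplit := Multiset.filter_add_not (fun Y => Conj X Y) m
  set m1 := m.filter (fun Y => Conj X Y) with hm1
  set m2 := m.filter (fun Y => ¬ Conj X Y) with hm2
  obtain ⟨V, hV, hV1⟩ := merge sym hs X m1 fun Y hY => (Multiset.mem_filter.1 hY).2
  have hsum : (m.map (val sym)).sum = sym X.φ V + (m2.map (val sym)).sum := by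
    rw [← hsplit, Multiset.map_add, Multiset.sum_add, hV1]
  have hz : ∀ h : G → ℤ, (∀ x y, h (x * y) = h (y * x)) → Supp X h → T h (sym X.φ V) = 0 := by
    intro h hh hsupp
    have h1 := h0 h hh
    rw [hsum, map_add] at h1
    have h2 : T h (m2.map (val sym)).sum = 0 := by
      rw [map_multiset_sum, Multiset.map_map]
      apply Multiset.sum_eq_zero
      intro x hx
      obtain ⟨Y, hY, rfl⟩ := Multiset.mem_map.1 hx
      exact T_nonconj sym T hT (Multiset.mem_filter.1 hY).2 hh hsupp
    rw [h2, add_zero] at h1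
    exact h1
  have hz2 : ∀ h : G → ℤ, (∀ x y, h (x * y) = h (y * x)) → T h (sym X.φ V) = 0 := by
    intro h hh
    have : Fintype X.C := Fintype.ofFinite _
    let h' : G → ℤ := fun y =>
      if ∃ (x : X.C) (g : G), Subgroup.zpowers x = ⊤ ∧ X.φ x = g * y * g⁻¹ then h y else 0
    have hh' : ∀ x y, h' (x * y) = h' (y * x) := by
      intro x y
      have h1 : (∃ (z : X.C) (g : G), Subgroup.zpowers z = ⊤ ∧ X.φ z = g * (x * y) * g⁻¹) ↔
          ∃ (z : X.C) (g : G), Subgroup.zpowers z = ⊤ ∧ X.φ z = g * (y * x) * g⁻¹ := by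
        constructor
        · rintro ⟨z, g, hz, hzg⟩
          exact ⟨z, g * x, hz, by rw [hzg]; group⟩
        · rintro ⟨z, g, hz, hzg⟩
          exact ⟨z, g * y, hz, by rw [hzg]; group⟩
      show (if _ then h (x * y) else 0) = if _ then h (y * x) else 0
      simp only [h1, hh x y]
    have hsupp : Supp X h' := by
      intro y hy
      by_contra h2
      exact hy (if_neg h2)
    have h3 := hz h' hh' hsupp
    rw [hT h' hh' X.C X.dvd] at h3
    rw [hT h hh X.C X.dvd, ← h3]
    refine Finset.sum_congr rfl fun c _ => ?_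
    by_cases hc : Subgroup.zpowers c = ⊤
    · have : h' (X.φ c) = h (X.φ c) := if_pos ⟨c, 1, hc, by group⟩
      rw [this]
    · rw [hV c hc, zero_mul, zero_mul]
  obtain ⟨k1, hk1, h1⟩ := torsion_of sym hs T hT V hV hz
  have hcard : m2.card < n := by
    have h2 : m1.card + m2.card = n := by rw [← Multiset.card_add, hsplit, hm]
    have h3 : 0 < m1.card :=
      Multiset.card_pos_iff_exists_mem.2 ⟨X, Multiset.mem_filter.2 ⟨hX, Conj.refl X⟩⟩
    omega
  obtain ⟨k2, hk2, h2⟩ := ih m2.card hcard m2 rfl (by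
    intro h hh
    have h3 := h0 h hh
    rw [hsum, map_add, hz2 h hh, zero_add] at h3
    exact h3)
  refine ⟨k1 * k2, Nat.mul_pos hk1 hk2, ?_⟩
  rw [hsum, smul_add, mul_comm, mul_smul, h1, smul_zero, mul_comm, mul_smul, h2, smul_zero,
    add_zero]

/-- the negative object -/
def negObj (X : Obj S G) : Obj S G where
  C := X.C
  dvd := X.dvd
  φ := X.φ
  inj := X.inj
  u := -X.u
  good := Good.neg X.dvd X.good

theorem exists_multiset {y : 𝒜} (hy : y ∈ Q sym) : ∃ m : Multiset (Obj S G),
    (m.map (val sym)).sum = y := by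
  unfold Q at hy
  induction hy using AddSubgroup.closure_induction with
  | mem x hx =>
    obtain ⟨X, rfl⟩ := hx
    exact ⟨{X}, by simp⟩
  | zero => exact ⟨0, by simp⟩
  | add x y _ _ hx hy =>
    obtain ⟨m, rfl⟩ := hx
    obtain ⟨m', rfl⟩ := hy
    exact ⟨m + m', by simp⟩
  | neg x _ hx =>
    obtain ⟨m, rfl⟩ := hx
    refine ⟨m.map negObj, ?_⟩
    rw [Multiset.map_map, ← Multiset.sum_map_neg', Multiset.map_map]
    congr 1
    refine Multiset.map_congr rfl fun X _ => ?_
    show sym X.φ (-X.u) = - sym X.φ X.u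
    rw [map_neg]

include hs hT in
/-- **Main theorem**: a combination of classes coming from cyclic subgroups which is not detected
by class functions is torsion. -/
theorem main {y : 𝒜} (hy : y ∈ AddSubgroup.closure {z : 𝒜 | ∃ (C : Type) (_ : CommGroup C)
      (_ : Finite C) (_ : Nat.card C ∣ E) (φ : C →* G) (_ : Function.Injective φ) (u : S.U C),
      z = sym φ u})
    (h0 : ∀ h : G → ℤ, (∀ x y, h (x * y) = h (y * x)) → T h y = 0) :
    ∃ k : ℕ, 0 < k ∧ k • y = 0 := by
  have h1 : y ∈ Qtor sym := by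
    have h2 : AddSubgroup.closure {z : 𝒜 | ∃ (C : Type) (_ : CommGroup C)
      (_ : Finite C) (_ : Nat.card C ∣ E) (φ : C →* G) (_ : Function.Injective φ) (u : S.U C),
      z = sym φ u} ≤ Qtor sym := by
      rw [AddSubgroup.closure_le]
      rintro z ⟨C, _, _, hC, φ, hφ, u, rfl⟩
      exact C3 sym hs _ C rfl hC φ hφ u
    exact h2 hy
  obtain ⟨m, hm, h2⟩ := h1
  obtain ⟨M, hM⟩ := exists_multiset sym h2
  obtain ⟨k, hk, h3⟩ := multiset_torsion sym hs T hT M.card M rfl (by
    intro h hh
    rw [hM, map_nsmul, h0 h hh, smul_zero])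
  refine ⟨k * m, Nat.mul_pos hk hm, ?_⟩
  rw [mul_smul, ← hM, h3]

end Theory

end Pool.Agent.Y69.StepC
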