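import Mathlib
import Pool.Agent.Y69.Psi

/-!
# Logarithm-like invariants of units of group rings of abelian groups over the p-adic integers
-/

namespace Pool.Agent.Y69.Uni

open Finset MonoidAlgebra

noncomputable section

section gen

variable {O : Type*} [CommRing O] {p : ℕ} [hp : Fact p.Prime]

theorem one_add_pow {S : Type*} [CommRing S] (t : S) (n : ℕ) :
    ∃ k, (1 + t) ^ n = 1 + n * t + t ^ 2 * k := by
  induction n with
  | zero => exact ⟨0, by simp⟩
  | succ n ih =>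
    obtain ⟨k, hk⟩ := ih
    refine ⟨n + k + t * k, ?_⟩
    rw [pow_succ, hk]
    push_cast
    ring

theorem frob_dvd (hF : ∀ a : O, (p : O) ∣ a ^ p - a) {C : Type*} [CommMonoid C]
    (x : MonoidAlgebra O C) :
    (p : MonoidAlgebra O C) ∣ x ^ p - mapDomainRingHom O (powMonoidHom p) x := by
  induction x using MonoidAlgebra.induction_linear with
  | zero => rw [map_zero, zero_pow hp.out.ne_zero, sub_zero]; exact dvd_zero _
  | add x y hx hy =>
    obtain ⟨r, hr⟩ := exists_add_pow_prime_eq hp.out x y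
    rw [hr, map_add]
    have e : x ^ p + y ^ p + p * x * y * r -
        (mapDomainRingHom O (powMonoidHom p) x + mapDomainRingHom O (powMonoidHom p) y) =
        (x ^ p - mapDomainRingHom O (powMonoidHom p) x) +
        (y ^ p - mapDomainRingHom O (powMonoidHom p) y) + p * (x * y * r) := by ring
    rw [e]
    exact dvd_add (dvd_add hx hy) (dvd_mul_right _ _)
  | single c a =>
    obtain ⟨b, hb⟩ := hF a
    rw [mapDomainRingHom_apply, mapDomain_single, single_pow, powMonoidHom_apply]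
    refine ⟨single (c ^ p) b, ?_⟩
    have : (p : MonoidAlgebra O C) * single (c ^ p) b = single (c ^ p) ((p : O) * b) := by
      rw [← nsmul_eq_mul, smul_single, nsmul_eq_mul]
    rw [this, ← hb, single_sub]

variable {C : Type*} [CommGroup C]

theorem eta_exists (hF : ∀ a : O, (p : O) ∣ a ^ p - a) (hC : ∀ c : C, c ^ p = c)
    {v w : MonoidAlgebra O C} (hvw : v * w = 1) (n : ℕ) :
    ∃ η, v ^ ((p - 1) * p ^ n) = 1 + ((p ^ (n + 1) : ℕ) : MonoidAlgebra O C) * η := by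
  have h1 := frob_dvd (p := p) hF v
  have h2 : (powMonoidHom p : C →* C) = MonoidHom.id C := by
    ext c; exact hC c
  rw [h2, mapDomainRingHom_id, RingHom.id_apply] at h1
  have h3 : (p : MonoidAlgebra O C) ∣ v ^ (p - 1) - 1 := by
    have h4 : v ^ (p - 1) - 1 = (v ^ p - v) * w := by
      obtain ⟨q, hq⟩ : ∃ q, p = q + 1 := ⟨p - 1, (Nat.succ_pred_eq_of_pos hp.out.pos).symm⟩
      have h5 : v ^ p = v ^ (p - 1) * v := by
        rw [hq, Nat.add_sub_cancel, pow_succ]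
      rw [h5, sub_mul, mul_assoc, hvw, mul_one]
    rw [h4]
    exact h1.mul_right w
  have h6 := dvd_sub_pow_of_dvd_sub h3 n
  rw [one_pow, ← pow_mul] at h6
  obtain ⟨η, hη⟩ := h6
  refine ⟨η, ?_⟩
  rw [Nat.cast_pow, ← hη]
  ring

theorem natCast_mul_cancel (hT : ∀ a : O, (p : O) * a = 0 → a = 0) (m : ℕ)
    {x y : MonoidAlgebra O C}
    (h : ((p ^ m : ℕ) : MonoidAlgebra O C) * x = ((p ^ m : ℕ) : MonoidAlgebra O C) * y) :
    x = y := by
  have h5 : ((p ^ m : ℕ) : MonoidAlgebra O C) * (x - y) = 0 := by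
    rw [mul_sub, h, sub_self]
  have h6 : x - y = 0 := by
    ext c
    have h7 : (((p ^ m : ℕ) : MonoidAlgebra O C) * (x - y)).coeff c =
        (0 : MonoidAlgebra O C).coeff c := by rw [h5]
    rw [← nsmul_eq_mul, coeff_smul, Finsupp.smul_apply, nsmul_eq_mul, coeff_zero,
      Finsupp.zero_apply] at h7
    rw [coeff_zero, Finsupp.zero_apply]
    exact Psi.torsion_pow p hT m _ h7
  exact sub_eq_zero.1 h6

variable (p) in
open Classical in
/-- the divided difference -/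
def eta (n : ℕ) (v : MonoidAlgebra O C) : MonoidAlgebra O C :=
  if h : ∃ η, v ^ ((p - 1) * p ^ n) = 1 + ((p ^ (n + 1) : ℕ) : MonoidAlgebra O C) * η
  then h.choose else 0

theorem eta_eq (hT : ∀ a : O, (p : O) * a = 0 → a = 0) {n : ℕ} {v η : MonoidAlgebra O C}
    (h : v ^ ((p - 1) * p ^ n) = 1 + ((p ^ (n + 1) : ℕ) : MonoidAlgebra O C) * η) :
    eta p n v = η := by
  unfold eta
  rw [dif_pos ⟨η, h⟩]
  have h2 := Exists.choose_spec (⟨η, h⟩ : ∃ η, v ^ ((p - 1) * p ^ n) =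
    1 + ((p ^ (n + 1) : ℕ) : MonoidAlgebra O C) * η)
  have h3 := h.symm.trans h2
  exact (natCast_mul_cancel hT (n + 1) (add_left_cancel h3)).symm

end gen

/-! ### p-adic coefficients -/

section padic

variable {p : ℕ} [hp : Fact p.Prime]

theorem hT : ∀ a : ℤ_[p], (p : ℤ_[p]) * a = 0 → a = 0 := by
  intro a h
  rcases mul_eq_zero.1 h with h | h
  · exact absurd h (by exact_mod_cast hp.out.ne_zero)
  · exact h

theorem toZModPow_eq_zero_iff (n : ℕ) (a : ℤ_[p]) :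
    PadicInt.toZModPow n a = 0 ↔ (p : ℤ_[p]) ^ n ∣ a := by
  rw [← RingHom.mem_ker, PadicInt.ker_toZModPow, Ideal.mem_span_singleton]

theorem hF : ∀ a : ℤ_[p], (p : ℤ_[p]) ∣ a ^ p - a := by
  intro a
  have h := (toZModPow_eq_zero_iff 1 (a ^ p - a)).1 (by
    rw [map_sub, map_pow]
    have key : ∀ x : ZMod (p ^ 1), x ^ p - x = 0 := by
      rw [pow_one]
      intro x
      rw [ZMod.pow_card, sub_self]
    exact key _)
  rwa [pow_one] at h

theorem eq_zero_of_dvd {a : ℤ_[p]} (h : ∀ n, (p : ℤ_[p]) ^ n ∣ a) : a = 0 := by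
  apply PadicInt.ext_of_toZModPow.1
  intro n
  rw [map_zero]
  exact (toZModPow_eq_zero_iff n a).2 (h n)

variable {C : Type*} [CommGroup C]

theorem eq_zero_of_dvd' {z : MonoidAlgebra ℤ_[p] C}
    (h : ∀ n, ((p ^ n : ℕ) : MonoidAlgebra ℤ_[p] C) ∣ z) : z = 0 := by
  ext c
  rw [coeff_zero, Finsupp.zero_apply]
  apply eq_zero_of_dvd
  intro n
  obtain ⟨y, hy⟩ := h n
  rw [hy, ← nsmul_eq_mul, coeff_smul, Finsupp.smul_apply, nsmul_eq_mul, Nat.cast_pow]
  exact dvd_mul_right _ _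

theorem dvd_of_coeff {z : MonoidAlgebra ℤ_[p] C} (n : ℕ)
    (h : ∀ c, PadicInt.toZModPow n (z.coeff c) = 0) :
    ((p ^ n : ℕ) : MonoidAlgebra ℤ_[p] C) ∣ z := by
  classical
  have h1 : ∀ c, ∃ y : ℤ_[p], z.coeff c = (p : ℤ_[p]) ^ n * y :=
    fun c => (toZModPow_eq_zero_iff n _).1 (h c)
  choose y hy using h1
  refine ⟨.ofCoeff (Finsupp.onFinset z.coeff.support (fun c => if z.coeff c = 0 then 0 else y c)
    (by
      intro c hc
      rw [Finsupp.mem_support_iff]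
      intro h0
      exact hc (if_pos h0))), ?_⟩
  ext c
  rw [← nsmul_eq_mul, coeff_smul, Finsupp.smul_apply, nsmul_eq_mul, coeff_ofCoeff,
    Finsupp.onFinset_apply, Nat.cast_pow]
  by_cases h0 : z.coeff c = 0
  · rw [if_pos h0, h0, mul_zero]
  · rw [if_neg h0, hy c]

/-- a unit whose invariants all vanish is a root of unity -/
theorem pow_eq_one {v w : MonoidAlgebra ℤ_[p] C} (hC : ∀ c : C, c ^ p = c) (hvw : v * w = 1)
    (h0 : ∀ n c, PadicInt.toZModPow (n + 1) ((eta p n v).coeff c) = 0) :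
    v ^ ((p - 1) * p) = 1 := by
  set y := v ^ ((p - 1) * p) with hy
  set z := y - 1 with hz
  by_contra hne
  have hz0 : z ≠ 0 := fun h => hne (sub_eq_zero.1 h)
  -- divisibility of `v ^ ((p-1) p ^ n) - 1`
  have hdiv : ∀ n, ((p ^ (2 * (n + 1)) : ℕ) : MonoidAlgebra ℤ_[p] C) ∣
      v ^ ((p - 1) * p ^ n) - 1 := by
    intro n
    obtain ⟨η, hη⟩ := eta_exists (p := p) hF hC hvw n
    have h1 := eta_eq hT hη
    obtain ⟨y', hy'⟩ := dvd_of_coeff (n + 1) (h0 n)
    rw [h1] at hy'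
    rw [hη, hy']
    refine ⟨y', ?_⟩
    rw [two_mul, pow_add]
    push_cast
    ring
  have hz2 : ((p ^ 2 : ℕ) : MonoidAlgebra ℤ_[p] C) ∣ z := by
    have h1 := hdiv 1
    rw [pow_one] at h1
    exact Dvd.dvd.trans ⟨((p ^ 2 : ℕ) : MonoidAlgebra ℤ_[p] C), by
      rw [← Nat.cast_mul, ← pow_add]⟩ h1
  -- exact valuation
  classical
  have hex : ∃ m, ¬ ((p ^ m : ℕ) : MonoidAlgebra ℤ_[p] C) ∣ z := by
    by_contra h
    push Not at h
    exact hz0 (eq_zero_of_dvd' h)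
  obtain ⟨m, hm, hm1, z', hz'⟩ : ∃ m, 2 ≤ m ∧ ¬ ((p ^ (m + 1) : ℕ) : MonoidAlgebra ℤ_[p] C) ∣ z ∧
      ∃ z', z = ((p ^ m : ℕ) : MonoidAlgebra ℤ_[p] C) * z' := by
    have h1 := Nat.find_spec hex
    have h2 : 3 ≤ Nat.find hex := by
      by_contra h3
      apply h1
      have h4 : Nat.find hex ≤ 2 := by omega
      refine Dvd.dvd.trans ?_ hz2
      rw [← Nat.add_sub_cancel' h4, pow_add, Nat.cast_mul]
      exact dvd_mul_right _ _
    refine ⟨Nat.find hex - 1, by omega, ?_, ?_⟩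
    · rw [Nat.sub_add_cancel (by omega)]; exact h1
    · have h5 := Nat.find_min hex (m := Nat.find hex - 1) (by omega)
      rw [not_not] at h5
      exact h5
  have hz'p : ¬ (p : MonoidAlgebra ℤ_[p] C) ∣ z' := by
    rintro ⟨t, ht⟩
    apply hm1
    refine ⟨t, ?_⟩
    rw [hz', ht, pow_succ, Nat.cast_mul]
    ring
  have hpow : ∀ n, ∃ w', y ^ p ^ n =
      1 + ((p ^ (m + n) : ℕ) : MonoidAlgebra ℤ_[p] C) * (z' + (p : MonoidAlgebra ℤ_[p] C) * w') := by
    intro n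
    induction n with
    | zero =>
      refine ⟨0, ?_⟩
      rw [pow_zero, pow_one, mul_zero, add_zero, add_zero, ← hz', hz]
      ring
    | succ n ih =>
      obtain ⟨w', hw'⟩ := ih
      rw [pow_succ, pow_mul, hw']
      obtain ⟨k, hk⟩ := one_add_pow
        (((p ^ (m + n) : ℕ) : MonoidAlgebra ℤ_[p] C) * (z' + (p : MonoidAlgebra ℤ_[p] C) * w')) p
      rw [hk]
      obtain ⟨q, hq⟩ : ∃ q, m + n = q + 2 := ⟨m + n - 2, by omega⟩
      refine ⟨w' + ((p ^ q : ℕ) : MonoidAlgebra ℤ_[p] C) *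
        (z' + (p : MonoidAlgebra ℤ_[p] C) * w') ^ 2 * k, ?_⟩
      rw [← add_assoc, hq]
      push_cast
      ring
  obtain ⟨w', hw'⟩ := hpow m
  have h1 := hdiv (m + 1)
  have h2 : v ^ ((p - 1) * p ^ (m + 1)) = y ^ p ^ m := by
    rw [hy, ← pow_mul]
    congr 1
    ring
  rw [h2, hw', add_sub_cancel_left] at h1
  obtain ⟨s, hs⟩ := h1
  have h3 : z' + (p : MonoidAlgebra ℤ_[p] C) * w' = ((p ^ 4 : ℕ) : MonoidAlgebra ℤ_[p] C) * s := by
    apply natCast_mul_cancel hT (m + m)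
    rw [hs, ← mul_assoc, ← Nat.cast_mul, ← pow_add]
    congr 3
    ring
  apply hz'p
  refine ⟨((p ^ 3 : ℕ) : MonoidAlgebra ℤ_[p] C) * s - w', ?_⟩
  rw [mul_sub, ← mul_assoc, ← Nat.cast_mul, ← pow_succ', ← h3]
  ring

end padic

end

end Pool.Agent.Y69.Uni
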