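import Mathlib
import Pool.Agent.Y69.Uni

/-!
# The norm map for a subgroup of a finite abelian group
-/

namespace Pool.Agent.Y69.Tra

open Finset MonoidAlgebra Pool.Agent.Y69.Uni

noncomputable section

variable (A : Type) [CommRing A] {C : Type} [CommGroup C] (D : Subgroup C) [Fintype (C ⧸ D)]
  [DecidableEq (C ⧸ D)]

/-- the induced representation, with values in the group ring of the subgroup -/
def psHom : C →* Matrix (C ⧸ D) (C ⧸ D) (MonoidAlgebra A D) where
  toFun g := Matrix.of fun x y => if h : g • y = x then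
    MonoidAlgebra.of A D ⟨(Quotient.out x)⁻¹ * (g * Quotient.out y), by
      rw [← QuotientGroup.eq, QuotientGroup.out_eq', ← smul_eq_mul, ← h]
      conv_lhs => rw [← QuotientGroup.out_eq' y]
      rfl⟩ else 0
  map_one' := by
    ext x y : 1
    simp only [Matrix.of_apply, one_smul, Matrix.one_apply, one_mul]
    by_cases h : x = y
    · subst h
      simp only [if_true, dite_true, inv_mul_cancel]
      exact (MonoidAlgebra.of A D).map_one
    · rw [if_neg h, dif_neg (Ne.symm h)]
  map_mul' g h := by
    ext x z : 1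
    rw [Matrix.mul_apply, Finset.sum_eq_single (h • z)]
    · simp only [Matrix.of_apply, dite_true]
      by_cases hx : g • h • z = x
      · rw [dif_pos (by rw [mul_smul]; exact hx), dif_pos hx, ← map_mul]
        refine congrArg _ (Subtype.ext ?_)
        simp only [Subgroup.coe_mul]
        group
      · rw [dif_neg (by rw [mul_smul]; exact hx), dif_neg hx, zero_mul]
    · intro b _ hb
      simp only [Matrix.of_apply]
      rw [dif_neg (Ne.symm hb : h • z ≠ b), mul_zero]
    · simp

/-- restriction to the subgroup as a ring homomorphism to matrices -/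
def ps : MonoidAlgebra A C →+* Matrix (C ⧸ D) (C ⧸ D) (MonoidAlgebra A D) :=
  (MonoidAlgebra.lift A (Matrix (C ⧸ D) (C ⧸ D) (MonoidAlgebra A D)) C (psHom A D)).toRingHom

theorem ps_single (c : C) (a : A) : ps A D (single c a) = a • psHom A D c := by
  show (MonoidAlgebra.lift A (Matrix (C ⧸ D) (C ⧸ D) (MonoidAlgebra A D)) C (psHom A D)) _ = _
  rw [MonoidAlgebra.lift_single]

theorem smul_coset (c : C) (x : C ⧸ D) : c • x = x ↔ c ∈ D := by
  induction x using QuotientGroup.induction_on with
  | H z =>
    have h : c • (z : C ⧸ D) = ((c * z : C) : C ⧸ D) := rfl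
    rw [h, eq_comm, QuotientGroup.eq, ← mul_assoc, mul_comm z⁻¹ c, mul_assoc, inv_mul_cancel,
      mul_one]

theorem trace_ps (x : MonoidAlgebra A C) (d : D) :
    (Matrix.trace (ps A D x)).coeff d = (Fintype.card (C ⧸ D) : A) * x.coeff d := by
  classical
  induction x using MonoidAlgebra.induction_linear with
  | zero => simp
  | add x y hx hy =>
    rw [map_add, Matrix.trace_add, coeff_add, Finsupp.add_apply, hx, hy, coeff_add,
      Finsupp.add_apply, mul_add]
  | single c a =>
    rw [ps_single, Matrix.trace_smul, coeff_smul, Finsupp.smul_apply, coeff_single]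
    by_cases hc : c ∈ D
    · have h1 : ∀ q : C ⧸ D, psHom A D c q q = MonoidAlgebra.of A D ⟨c, hc⟩ := by
        intro q
        show (if h : c • q = q then MonoidAlgebra.of A D _ else 0) = _
        rw [dif_pos ((smul_coset D c q).2 hc)]
        congr 1
        apply Subtype.ext
        show (Quotient.out q)⁻¹ * (c * Quotient.out q) = c
        rw [mul_comm c, inv_mul_cancel_left]
      have h2 : Matrix.trace (psHom A D c) =
          (Fintype.card (C ⧸ D)) • MonoidAlgebra.of A D ⟨c, hc⟩ := by
        show ∑ q, psHom A D c q q = _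
        rw [Finset.sum_congr rfl fun q _ => h1 q, Finset.sum_const, Finset.card_univ]
      rw [h2, coeff_smul, Finsupp.smul_apply, of_apply, coeff_single, nsmul_eq_mul, smul_eq_mul]
      by_cases h3 : c = d
      · subst h3
        rw [Finsupp.single_eq_same, Finsupp.single_eq_same]
        ring
      · rw [Finsupp.single_eq_of_ne' h3, Finsupp.single_eq_of_ne' (fun h4 =>
          h3 (congrArg Subtype.val h4)), mul_zero, mul_zero]
    · have h2 : Matrix.trace (psHom A D c) = 0 := by
        show ∑ q, psHom A D c q q = _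
        refine Finset.sum_eq_zero fun q _ => ?_
        show (if h : c • q = q then MonoidAlgebra.of A D _ else 0) = _
        rw [dif_neg (fun h => hc ((smul_coset D c q).1 h))]
      rw [h2, coeff_zero, Finsupp.zero_apply, smul_zero, Finsupp.single_eq_of_ne', mul_zero]
      rintro rfl
      exact hc d.2

/-- the norm -/
def nrm : MonoidAlgebra A C →* MonoidAlgebra A D :=
  (Matrix.detMonoidHom (n := C ⧸ D) (R := MonoidAlgebra A D)).comp (ps A D).toMonoidHom

theorem nrm_apply (x : MonoidAlgebra A C) : nrm A D x = (ps A D x).det := rfl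

theorem ps_map {B : Type} [CommRing B] (j : A →+* B) (x : MonoidAlgebra A C) :
    ps B D (mapRingHom C j x) = (ps A D x).map (mapRingHom D j) := by
  induction x using MonoidAlgebra.induction_linear with
  | zero => ext i k : 2; simp
  | add x y hx hy =>
    rw [map_add, map_add, map_add, hx, hy]
    ext i k : 1
    rw [Matrix.add_apply, Matrix.map_apply, Matrix.map_apply, Matrix.map_apply, Matrix.add_apply,
      map_add]
  | single c a =>
    have h1 : mapRingHom C j (single c a) = single c (j a) := map_single _ _ _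
    rw [h1, ps_single, ps_single]
    ext i k : 1
    rw [Matrix.map_apply, Matrix.smul_apply, Matrix.smul_apply]
    show j a • (if h : c • k = i then MonoidAlgebra.of B D _ else 0) =
      mapRingHom D j (a • (if h : c • k = i then MonoidAlgebra.of A D _ else 0))
    by_cases h : c • k = i
    · rw [dif_pos h, dif_pos h, of_apply, of_apply, smul_single, smul_single]
      have h2 : ∀ (d : D) (b : A), mapRingHom D j (single d b) = single d (j b) :=
        fun d b => map_single _ _ _
      rw [h2, smul_eq_mul, smul_eq_mul, map_mul, map_one]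
    · rw [dif_neg h, dif_neg h, smul_zero, smul_zero, map_zero]

theorem nrm_map {B : Type} [CommRing B] (j : A →+* B) (x : MonoidAlgebra A C) :
    nrm B D (mapRingHom C j x) = mapRingHom D j (nrm A D x) := by
  rw [nrm_apply, nrm_apply, ps_map, RingHom.map_det]
  rfl

variable {p : ℕ} [hp : Fact p.Prime]

theorem eta_nrm (hC : ∀ c : C, c ^ p = c) {v w : MonoidAlgebra ℤ_[p] C} (hvw : v * w = 1) (n : ℕ)
    (d : D) : PadicInt.toZModPow (n + 1) ((eta p n (nrm ℤ_[p] D v)).coeff d) =
      (Fintype.card (C ⧸ D) : ZMod (p ^ (n + 1))) *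
        PadicInt.toZModPow (n + 1) ((eta p n v).coeff d) := by
  obtain ⟨η, hη⟩ := eta_exists (p := p) hF hC hvw n
  rw [eta_eq hT hη]
  have h1 : nrm ℤ_[p] D v ^ ((p - 1) * p ^ n) =
      nrm ℤ_[p] D (1 + ((p ^ (n + 1) : ℕ) : MonoidAlgebra ℤ_[p] C) * η) := by
    rw [← map_pow, hη]
  have h2 : ps ℤ_[p] D (1 + ((p ^ (n + 1) : ℕ) : MonoidAlgebra ℤ_[p] C) * η) =
      1 + ((p ^ (n + 1) : ℕ) : MonoidAlgebra ℤ_[p] D) • ps ℤ_[p] D η := by
    rw [map_add, map_one, map_mul, map_natCast]
    congr 1
    ext i k : 1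
    rw [Matrix.smul_apply, ← nsmul_eq_mul, Matrix.smul_apply, nsmul_eq_mul, smul_eq_mul]
  rw [nrm_apply ℤ_[p] D (1 + ((p ^ (n + 1) : ℕ) : MonoidAlgebra ℤ_[p] C) * η), h2,
    Matrix.det_one_add_smul] at h1
  set K := Polynomial.eval ((p ^ (n + 1) : ℕ) : MonoidAlgebra ℤ_[p] D)
    (1 + (Polynomial.X : Polynomial (MonoidAlgebra ℤ_[p] D)) •
      (ps ℤ_[p] D η).map Polynomial.C).det.divX.divX with hK
  have h3 : nrm ℤ_[p] D v ^ ((p - 1) * p ^ n) =
      1 + ((p ^ (n + 1) : ℕ) : MonoidAlgebra ℤ_[p] D) *
        ((ps ℤ_[p] D η).trace + ((p ^ (n + 1) : ℕ) : MonoidAlgebra ℤ_[p] D) * K) := by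
    rw [h1]
    ring
  have h4 : (((p ^ (n + 1) : ℕ) : MonoidAlgebra ℤ_[p] D) * K).coeff d =
      ((p ^ (n + 1) : ℕ) : ℤ_[p]) * K.coeff d := by
    rw [← nsmul_eq_mul, coeff_smul, Finsupp.smul_apply, nsmul_eq_mul]
  rw [eta_eq hT h3, coeff_add, Finsupp.add_apply, map_add, trace_ps, map_mul, map_natCast,
    h4, map_mul, map_natCast, ZMod.natCast_self, zero_mul, add_zero]

end

end Pool.Agent.Y69.Tra
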