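import Mathlib
import Pool.Agent.Y69.Tra
import Pool.Agent.Y69.StepC
import Pool.Agent.Y69.KTr

/-!
# The theory of units of group rings over a subring of the p-adic integers
-/

namespace Pool.Agent.Y69.Thy

open Finset MonoidAlgebra Pool.Agent.Y69.Uni Pool.Agent.Y69.Tra Pool.Agent.Y69.StepC

noncomputable section

variable {A : Type} [CommRing A] {p : ℕ} [hp : Fact p.Prime] (j : A →+* ℤ_[p])

/-- the coefficient ring -/
abbrev Lam (p : ℕ) : Type := ∀ n : ℕ, ZMod (p ^ (n + 1))

/-- the character map -/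
def bb {C : Type} [CommGroup C] (u : Additive (MonoidAlgebra A C)ˣ) (c : C) : Lam p := fun n =>
  PadicInt.toZModPow (n + 1)
    ((eta p n (mapRingHom C j ((u.toMul : (MonoidAlgebra A C)ˣ) : MonoidAlgebra A C))).coeff c)

theorem pow_p {C : Type} [CommGroup C] [Finite C] (hC : Nat.card C ∣ p - 1) (c : C) :
    c ^ p = c := by
  obtain ⟨k, hk⟩ := hC
  have h1 : p = (p - 1) + 1 := (Nat.succ_pred_eq_of_pos hp.out.pos).symm
  rw [h1, pow_succ, hk, pow_mul, pow_card_eq_one', one_pow, one_mul]

theorem ju_mul {C : Type} [CommGroup C] (u : (MonoidAlgebra A C)ˣ) :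
    mapRingHom C j (u : MonoidAlgebra A C) *
      mapRingHom C j ((u⁻¹ : (MonoidAlgebra A C)ˣ) : MonoidAlgebra A C) = 1 := by
  rw [← map_mul, u.mul_inv, map_one]

theorem bb_add {C : Type} [CommGroup C] [Finite C] (hC : Nat.card C ∣ p - 1)
    (u v : Additive (MonoidAlgebra A C)ˣ) : bb j (u + v) = bb j u + bb j v := by
  funext c n
  obtain ⟨η, hη⟩ := eta_exists (p := p) hF (pow_p hC) (ju_mul j u.toMul) n
  obtain ⟨θ, hθ⟩ := eta_exists (p := p) hF (pow_p hC) (ju_mul j v.toMul) n
  have h : (mapRingHom C j (((u + v).toMul : (MonoidAlgebra A C)ˣ) : MonoidAlgebra A C)) ^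
      ((p - 1) * p ^ n) = 1 + ((p ^ (n + 1) : ℕ) : MonoidAlgebra ℤ_[p] C) *
        (η + θ + ((p ^ (n + 1) : ℕ) : MonoidAlgebra ℤ_[p] C) * (η * θ)) := by
    rw [toMul_add, Units.val_mul, map_mul, mul_pow, hη, hθ]
    ring
  have h4 : (((p ^ (n + 1) : ℕ) : MonoidAlgebra ℤ_[p] C) * (η * θ)).coeff c =
      ((p ^ (n + 1) : ℕ) : ℤ_[p]) * (η * θ).coeff c := by
    rw [← nsmul_eq_mul, coeff_smul, Finsupp.smul_apply, nsmul_eq_mul]
  show PadicInt.toZModPow (n + 1) _ = PadicInt.toZModPow (n + 1) _ + PadicInt.toZModPow (n + 1) _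
  rw [eta_eq hT h, eta_eq hT hη, eta_eq hT hθ, coeff_add, coeff_add, Finsupp.add_apply,
    Finsupp.add_apply, map_add, map_add, h4, map_mul, map_natCast, ZMod.natCast_self, zero_mul,
    add_zero]

/-- functoriality of units -/
def umap (A : Type) [CommRing A] {C D : Type} [CommGroup C] [CommGroup D] (f : C →* D) :
    Additive (MonoidAlgebra A C)ˣ →+ Additive (MonoidAlgebra A D)ˣ :=
  (Units.map (mapDomainRingHom A f : MonoidAlgebra A C →* MonoidAlgebra A D)).toAdditive

theorem map_comm {C D : Type} [CommGroup C] [CommGroup D] (f : C →* D) (x : MonoidAlgebra A C) :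
    mapRingHom D j (mapDomainRingHom A f x) = mapDomainRingHom ℤ_[p] f (mapRingHom C j x) := by
  induction x using MonoidAlgebra.induction_linear with
  | zero => simp
  | add x y hx hy => rw [map_add, map_add, map_add, map_add, hx, hy]
  | single c a =>
    have h2 : ∀ (C : Type) [CommGroup C] (d : C) (b : A),
      mapRingHom C j (single d b) = single d (j b) := fun C _ d b => map_single _ _ _
    rw [h2, mapDomainRingHom_apply, mapDomainRingHom_apply, mapDomain_single, mapDomain_single, h2]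

theorem eta_umap {C D : Type} [CommGroup C] [CommGroup D] [Finite C] (hC : Nat.card C ∣ p - 1)
    (f : C →* D) (u : Additive (MonoidAlgebra A C)ˣ) (n : ℕ) :
    eta p n (mapRingHom D j (((umap A f u).toMul : (MonoidAlgebra A D)ˣ) : MonoidAlgebra A D)) =
      mapDomainRingHom ℤ_[p] f
        (eta p n (mapRingHom C j ((u.toMul : (MonoidAlgebra A C)ˣ) : MonoidAlgebra A C))) := by
  obtain ⟨η, hη⟩ := eta_exists (p := p) hF (pow_p hC) (ju_mul j u.toMul) n
  rw [eta_eq hT hη]
  apply eta_eq hT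
  have h1 : (((umap A f u).toMul : (MonoidAlgebra A D)ˣ) : MonoidAlgebra A D) =
      mapDomainRingHom A f ((u.toMul : (MonoidAlgebra A C)ˣ) : MonoidAlgebra A C) := rfl
  rw [h1, map_comm, ← map_pow, hη, map_add, map_one, map_mul, map_natCast]

theorem card_dvd_of_inj {C D : Type} [CommGroup C] [CommGroup D] [Finite D]
    (f : C →* D) (hf : Function.Injective f) : Nat.card C ∣ Nat.card D :=
  Subgroup.card_dvd_of_injective f hf

theorem mapRingHom_inj (hj : Function.Injective j) (C : Type) [CommGroup C] :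
    Function.Injective (mapRingHom C j) := MonoidAlgebra.map_injective (j : A →+ ℤ_[p]) hj

/-- the theory of units of group rings -/
def theory (hj : Function.Injective j) : Theory (Lam p) (p - 1) where
  U C _ := Additive (MonoidAlgebra A C)ˣ
  grp C _ := inferInstance
  map f := umap A f
  b u := bb j u
  b_add hC u v := bb_add j hC u v
  b_map := by
    intro C D _ _ _ _ hD f hf u c
    funext n
    show PadicInt.toZModPow (n + 1) _ = PadicInt.toZModPow (n + 1) _
    rw [eta_umap j ((card_dvd_of_inj f hf).trans hD) f u n, mapDomainRingHom_apply,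
      mapDomain, coeff_ofCoeff, Finsupp.mapDomain_apply hf]
  b_map_not := by
    intro C D _ _ _ _ hD f hf u d hd
    funext n
    show PadicInt.toZModPow (n + 1) _ = 0
    rw [eta_umap j ((card_dvd_of_inj f hf).trans hD) f u n, mapDomainRingHom_apply,
      mapDomain, coeff_ofCoeff, Finsupp.mapDomain_of_notMem_range _ _ hd, map_zero]
  res := by
    intro C _ _ hC D u
    classical
    have : Fintype (C ⧸ D) := Fintype.ofFinite _
    refine ⟨Fintype.card (C ⧸ D), Additive.ofMul (Units.map (nrm A D) u.toMul),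
      Fintype.card_pos, ?_⟩
    intro d
    funext n
    show PadicInt.toZModPow (n + 1) ((eta p n (mapRingHom D j (nrm A D
      ((u.toMul : (MonoidAlgebra A C)ˣ) : MonoidAlgebra A C)))).coeff d) = _
    rw [← nrm_map, eta_nrm D (pow_p hC) (ju_mul j u.toMul)]
    rfl
  tors := by
    intro C _ _ hC u hu
    refine ⟨(p - 1) * p, Nat.mul_pos (Nat.sub_pos_of_lt hp.out.one_lt) hp.out.pos, ?_⟩
    have h1 := pow_eq_one (pow_p hC) (ju_mul j u.toMul)
      (fun n c => congrFun (congrFun hu c) n)
    rw [← map_pow, ← map_one (mapRingHom C j)] at h1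
    have h2 := mapRingHom_inj j hj C h1
    apply Additive.toMul.injective
    rw [toMul_nsmul, toMul_zero]
    apply Units.ext
    rw [Units.val_pow_eq_pow_val, h2, Units.val_one]

/-! ### The traces -/

open H970SH H842 Pool.Agent.Y69.KTr Pool.Agent.Y69.Beta

theorem ev_eq_sum {C : Type} [CommGroup C] [Fintype C] {n : ℕ} (π : ℤ_[p] →+* ZMod (p ^ (n + 1)))
    (f : C → ZMod (p ^ (n + 1))) (x : MonoidAlgebra ℤ_[p] C) :
    ev π f x = ∑ c, π (x.coeff c) * f c := by
  classical
  induction x using MonoidAlgebra.induction_linear with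
  | zero => simp
  | add x y hx hy =>
    rw [map_add, hx, hy, ← Finset.sum_add_distrib]
    refine Finset.sum_congr rfl fun c _ => ?_
    rw [coeff_add, Finsupp.add_apply, map_add, add_mul]
  | single c a =>
    rw [ev_single, Finset.sum_eq_single c]
    · rw [coeff_single, Finsupp.single_eq_same]
    · intro d _ hd
      rw [coeff_single, Finsupp.single_eq_of_ne hd, map_zero, zero_mul]
    · intro h; exact absurd (Finset.mem_univ c) h

variable {G : Type} [Group G]

theorem map_unit1 {C : Type} [CommGroup C] (φ : C →* G) (u : (MonoidAlgebra A C)ˣ) :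
    mapUnit (mapRingHom G j) (mapUnit (mapDomainRingHom A φ) (unit1 u)) =
      mapUnit (mapDomainRingHom ℤ_[p] φ)
        (unit1 (Units.map (mapRingHom C j : MonoidAlgebra A C →* MonoidAlgebra ℤ_[p] C) u)) := by
  apply Units.ext
  rw [mapUnit_val, mapUnit_val, mapUnit_val]
  ext i k : 1
  rw [Matrix.map_apply, Matrix.map_apply, Matrix.map_apply]
  show mapRingHom G j (mapDomainRingHom A φ (u : MonoidAlgebra A C)) =
    mapDomainRingHom ℤ_[p] φ (mapRingHom C j (u : MonoidAlgebra A C))
  generalize (u : MonoidAlgebra A C) = x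
  induction x using MonoidAlgebra.induction_linear with
  | zero => simp
  | add x y hx hy => rw [map_add, map_add, map_add, map_add, hx, hy]
  | single c a =>
    have h2 : ∀ (C : Type) [Group C] (d : C) (b : A),
      mapRingHom C j (single d b) = single d (j b) := fun C _ d b => map_single _ _ _
    rw [h2, mapDomainRingHom_apply, mapDomainRingHom_apply, mapDomain_single, mapDomain_single, h2]

theorem exists_Tn (hodd : Odd p) (h : G → ℤ) (hh : ∀ x y, h (x * y) = h (y * x)) (n : ℕ) :
    ∃ T : K1 (MonoidAlgebra ℤ_[p] G) →+ ZMod (p ^ (n + 1)),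
      ∀ (C : Type) [CommGroup C] (φ : C →* G) (u : (MonoidAlgebra ℤ_[p] C)ˣ)
        (η : MonoidAlgebra ℤ_[p] C),
        (u : MonoidAlgebra ℤ_[p] C) ^ p ^ (n + 1) =
          mapDomainRingHom ℤ_[p] (powMonoidHom p) (u : MonoidAlgebra ℤ_[p] C) ^ p ^ n *
            (1 + ((p ^ (n + 1) : ℕ) : MonoidAlgebra ℤ_[p] C) * η) →
        T (cl (mapUnit (mapDomainRingHom ℤ_[p] φ) (unit1 u))) =
          ev (PadicInt.toZModPow (n + 1)) (fun c => ((h (φ c) : ℤ) : ZMod (p ^ (n + 1)))) η := by
  have h2 : ∀ x y : G, ((h (x * y) : ℤ) : ZMod (p ^ (n + 1))) = ((h (y * x) : ℤ) : ZMod _) :=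
    fun x y => by rw [hh]
  obtain ⟨T, hT1⟩ := exists_trace (R := ℤ_[p]) (G := G) (p := p) (n := n)
    (PadicInt.toZModPow (n + 1)) hodd hT hF (fun g => ((h g : ℤ) : ZMod (p ^ (n + 1)))) h2
  exact ⟨T, fun C _ φ u η hη => hT1 C φ u η hη⟩

/-- the trace homomorphism on `K₁` -/
theorem exists_TK (hodd : Odd p) (h : G → ℤ) (hh : ∀ x y, h (x * y) = h (y * x)) :
    ∃ T : K1 (MonoidAlgebra A G) →+ Lam p,
      (∀ (C : Type) [CommGroup C] [Fintype C] (_ : Nat.card C ∣ p - 1) (φ : C →* G)
        (u : Additive (MonoidAlgebra A C)ˣ),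
        T (cl (mapUnit (mapDomainRingHom A φ) (unit1 u.toMul))) =
          ∑ c, bb j u c * ((h (φ c) : ℤ) : Lam p)) ∧
      (∀ (C : Type) [CommGroup C] (φ : C →* G) (u : (MonoidAlgebra A C)ˣ),
        (∀ n, (u : MonoidAlgebra A C) ^ p ^ (n + 1) =
          mapDomainRingHom A (powMonoidHom p) (u : MonoidAlgebra A C) ^ p ^ n) →
        T (cl (mapUnit (mapDomainRingHom A φ) (unit1 u))) = 0) := by
  obtain ⟨F, hFF⟩ := K1map_exists (mapRingHom G j : MonoidAlgebra A G →+* MonoidAlgebra ℤ_[p] G)
  choose T hTT using exists_Tn (p := p) (G := G) hodd h hh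
  refine ⟨(AddMonoidHom.pi T).comp F, ?_, ?_⟩
  · intro C _ _ hC φ u
    funext n
    rw [AddMonoidHom.comp_apply, hFF, map_unit1]
    show T n _ = _
    obtain ⟨η, hη⟩ := eta_exists (p := p) hF (pow_p hC) (ju_mul j u.toMul) n
    rw [hTT n C φ (Units.map (mapRingHom C j : MonoidAlgebra A C →* MonoidAlgebra ℤ_[p] C) u.toMul)
      η ?_, ev_eq_sum, Finset.sum_apply]
    · refine Finset.sum_congr rfl fun c _ => ?_
      show _ = PadicInt.toZModPow (n + 1) _ * _
      rw [eta_eq hT hη]
      rfl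
    · rw [Units.coe_map]
      have h2 : (powMonoidHom p : C →* C) = MonoidHom.id C := by
        ext c; exact pow_p hC c
      rw [h2, mapDomainRingHom_id, RingHom.id_apply]
      show mapRingHom C j (u.toMul : MonoidAlgebra A C) ^ p ^ (n + 1) =
        mapRingHom C j (u.toMul : MonoidAlgebra A C) ^ p ^ n * _
      rw [← hη, ← pow_add]
      congr 1
      have h3 : p = (p - 1) + 1 := (Nat.succ_pred_eq_of_pos hp.out.pos).symm
      calc p ^ (n + 1) = p ^ n * p := pow_succ p n
        _ = p ^ n * ((p - 1) + 1) := by rw [← h3]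
        _ = p ^ n + (p - 1) * p ^ n := by ring
  · intro C _ φ u hu
    funext n
    rw [AddMonoidHom.comp_apply, hFF, map_unit1]
    show T n _ = 0
    rw [hTT n C φ (Units.map (mapRingHom C j : MonoidAlgebra A C →* MonoidAlgebra ℤ_[p] C) u)
      0 ?_, map_zero]
    rw [mul_zero, add_zero, mul_one, Units.coe_map]
    show mapRingHom C j (u : MonoidAlgebra A C) ^ p ^ (n + 1) =
      mapDomainRingHom ℤ_[p] (powMonoidHom p) (mapRingHom C j (u : MonoidAlgebra A C)) ^ p ^ n
    rw [← map_comm, ← map_pow, hu, map_pow]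

end

end Pool.Agent.Y69.Thy
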