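import Mathlib
import Pool.Agent.Y69.Thy
import Pool.Agent.Y69.ColAsm
import Pool.Agent.H842R2.Mennicke
import Pool.Agent.H842R2.Artin

/-!
# The colimit of the Whitehead groups of the finite subgroups injects rationally
-/

namespace Pool.Agent.Y69.Main

open H970SH H842 MonoidAlgebra Pool.Agent.Y69 Pool.Agent.Y69.Thy Pool.Agent.Y69.StepC

noncomputable section

theorem unit1_mul' {R : Type} [Ring R] (u v : Rˣ) : unit1 (u * v) = unit1 u * unit1 v := by
  apply Units.ext
  ext i k
  rw [Units.val_mul, Matrix.mul_apply]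
  simp [unit1]

theorem mapUnit_mul {R S : Type} [Ring R] [Ring S] (f : R →+* S) {ι : Type} [Fintype ι]
    [DecidableEq ι] (M N : (Matrix ι ι R)ˣ) : mapUnit f (M * N) = mapUnit f M * mapUnit f N :=
  map_mul _ _ _

variable (A : Type) [CommRing A] {G : Type} [Group G]

/-- the image of a finite group -/
def rg {C : Type} [CommGroup C] [Finite C] (φ : C →* G) : FinSub G :=
  ⟨φ.range, Finite.of_surjective φ.rangeRestrict φ.rangeRestrict_surjective⟩

/-- the projection to the image -/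
def rrg {C : Type} [CommGroup C] [Finite C] (φ : C →* G) : C →* (rg φ).1 := φ.rangeRestrict

/-- the class of a unit -/
def sym {C : Type} [CommGroup C] [Finite C] (φ : C →* G) :
    Additive (MonoidAlgebra A C)ˣ →+ K1Colim A G where
  toFun u := Colim.ι _ _ (rg φ)
    (cl (mapUnit (mapDomainRingHom A (rrg φ)) (unit1 u.toMul)))
  map_zero' := by
    have h : unit1 (Additive.toMul (0 : Additive (MonoidAlgebra A C)ˣ)) = 1 := by
      apply Units.ext
      ext i k
      simp [unit1]
    rw [h]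
    have h2 : mapUnit (mapDomainRingHom A (rrg φ)) (1 : (Matrix Unit Unit _)ˣ) = 1 :=
      map_one _
    rw [h2, cl_one]
    exact (Colim.ιHom (G := G) (fun H => K1 (MonoidAlgebra A H))
      (fun φ => K1map (mapDomainRingHom A φ)) (rg φ)).map_zero
  map_add' u v := by
    rw [toMul_add, unit1_mul', mapUnit_mul, cl_mul, Colim.ι_add]

theorem sym_apply {C : Type} [CommGroup C] [Finite C] (φ : C →* G)
    (u : Additive (MonoidAlgebra A C)ˣ) : sym A φ u = Colim.ι _ _ (rg φ)
    (cl (mapUnit (mapDomainRingHom A (rrg φ)) (unit1 u.toMul))) := rfl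

theorem mapUnit_comp {C D H : Type} [Group C] [Group D] [Group H] (f : C →* D) (g : D →* H)
    (u : (MonoidAlgebra A C)ˣ) :
    mapUnit (mapDomainRingHom A g) (mapUnit (mapDomainRingHom A f) (unit1 u)) =
      mapUnit (mapDomainRingHom A (g.comp f)) (unit1 u) := by
  rw [mapDomainRingHom_comp]
  rfl

/-- naturality of the classes -/
theorem sym_map {C D : Type} [CommGroup C] [CommGroup D] [Finite C] [Finite D] (φ : C →* G)
    (ψ : D →* G) (f : D →* C) (g : G) (h : ∀ x, φ (f x) = g * ψ x * g⁻¹)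
    (u : Additive (MonoidAlgebra A D)ˣ) : sym A φ (umap A f u) = sym A ψ u := by
  have hmem : ∀ y : (rg ψ).1, g * (y : G) * g⁻¹ ∈ (rg φ).1 := by
    rintro ⟨_, x, rfl⟩
    exact ⟨f x, h x⟩
  let θ : (rg ψ).1 →* (rg φ).1 :=
    { toFun := fun y => ⟨g * (y : G) * g⁻¹, hmem y⟩
      map_one' := by
        apply Subtype.ext
        show g * (1 : G) * g⁻¹ = 1
        group
      map_mul' := fun y z => by
        apply Subtype.ext
        show g * ((y : G) * (z : G)) * g⁻¹ = (g * (y : G) * g⁻¹) * (g * (z : G) * g⁻¹)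
        group }
  have h1 := Colim.ι_rel (G := G) (fun H => K1 (MonoidAlgebra A H))
    (fun φ => K1map (mapDomainRingHom A φ)) (rg ψ) (rg φ) g θ (fun y => rfl)
    (cl (mapUnit (mapDomainRingHom A (rrg ψ)) (unit1 u.toMul)))
  have h2 : θ.comp (rrg ψ) = (rrg φ).comp f := by
    ext x
    exact (h x).symm
  rw [K1map_cl, mapUnit_comp, h2, ← mapUnit_comp] at h1
  rw [sym_apply, sym_apply]
  exact h1

theorem assembly_sym {C : Type} [CommGroup C] [Finite C] (φ : C →* G)
    (u : Additive (MonoidAlgebra A C)ˣ) : K1assembly A G (sym A φ u) =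
      cl (mapUnit (mapDomainRingHom A φ) (unit1 u.toMul)) := by
  rw [sym_apply, K1assembly_ι, K1map_cl, mapUnit_comp]
  rfl

/-- the classes of order dividing `E` -/
def SE (A : Type) [CommRing A] (G : Type) [Group G] (E : ℕ) : AddSubgroup (K1Colim A G) :=
  AddSubgroup.closure {z | ∃ (C : Type) (_ : CommGroup C)
      (_ : Finite C) (_ : Nat.card C ∣ E) (φ : C →* G) (_ : Function.Injective φ)
      (u : Additive (MonoidAlgebra A C)ˣ), z = sym A φ u}

theorem SE_mono {E E' : ℕ} (h : E ∣ E') : SE A G E ≤ SE A G E' := by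
  unfold SE
  apply AddSubgroup.closure_mono
  rintro z ⟨C, i1, i2, hC, φ, hφ, u, rfl⟩
  exact ⟨C, i1, i2, hC.trans h, φ, hφ, u, rfl⟩

/-- every element has a multiple in the subgroup -/
def Cov (z : K1Colim A G) : Prop := ∃ (k E : ℕ), 0 < k ∧ 0 < E ∧ k • z ∈ SE A G E

theorem Cov.zero : Cov A (0 : K1Colim A G) :=
  ⟨1, 1, one_pos, one_pos, by rw [smul_zero]; exact AddSubgroup.zero_mem _⟩

theorem Cov.add {x y : K1Colim A G} (hx : Cov A x) (hy : Cov A y) : Cov A (x + y) := by
  obtain ⟨k, E, hk, hE, h1⟩ := hx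
  obtain ⟨l, F, hl, hF, h2⟩ := hy
  refine ⟨k * l, E * F, Nat.mul_pos hk hl, Nat.mul_pos hE hF, ?_⟩
  rw [smul_add]
  refine AddSubgroup.add_mem _ ?_ ?_
  · rw [mul_comm k l, mul_smul]
    exact AddSubgroup.nsmul_mem _ (SE_mono A (dvd_mul_right E F) h1) l
  · rw [mul_smul]
    exact AddSubgroup.nsmul_mem _ (SE_mono A (dvd_mul_left F E) h2) k

theorem Cov.neg {x : K1Colim A G} (hx : Cov A x) : Cov A (-x) := by
  obtain ⟨k, E, hk, hE, h1⟩ := hx
  exact ⟨k, E, hk, hE, by rw [smul_neg]; exact AddSubgroup.neg_mem _ h1⟩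

theorem Cov.of_nsmul {x : K1Colim A G} (l : ℕ) (hl : 0 < l) (hx : Cov A (l • x)) : Cov A x := by
  obtain ⟨k, E, hk, hE, h1⟩ := hx
  exact ⟨k * l, E, Nat.mul_pos hk hl, hE, by rw [mul_smul]; exact h1⟩

theorem Cov.sym {C : Type} [CommGroup C] [Finite C] (φ : C →* G) (hφ : Function.Injective φ)
    (u : Additive (MonoidAlgebra A C)ˣ) : Cov A (sym A φ u) :=
  ⟨1, Nat.card C, one_pos, Nat.card_pos, by
    rw [one_smul]
    exact AddSubgroup.subset_closure ⟨C, _, _, dvd_rfl, φ, hφ, u, rfl⟩⟩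

/-- for integral coefficients, classes of matrices over group rings of cyclic groups -/
theorem cov_comm {H : FinSub G} {C : Type} [CommGroup C] [Finite C] (φ : C →* H.1)
    (hφ : Function.Injective φ) (x : K1 (MonoidAlgebra ℤ C)) :
    Cov ℤ (Colim.ι _ _ H (K1map (mapDomainRingHom ℤ φ) x) : K1Colim ℤ G) := by
  obtain ⟨s, u, hs, hu⟩ := mennicke C x
  apply Cov.of_nsmul ℤ s hs
  have h1 : s • (Colim.ι _ _ H (K1map (mapDomainRingHom ℤ φ) x) : K1Colim ℤ G) =
      Colim.ι _ _ H (K1map (mapDomainRingHom ℤ φ) (s • x)) := by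
    rw [map_nsmul]
    exact ((Colim.ιHom (G := G) (fun H => K1 (MonoidAlgebra ℤ H))
      (fun φ => K1map (mapDomainRingHom ℤ φ)) H).map_nsmul s _).symm
  rw [h1, hu, K1map_cl]
  have hinj : Function.Injective (H.1.subtype.comp φ) := Subtype.val_injective.comp hφ
  have h2 := Cov.sym ℤ (H.1.subtype.comp φ) hinj (Additive.ofMul u)
  -- the inclusion of the image
  have hmem : ∀ y : (rg (H.1.subtype.comp φ)).1, (y : G) ∈ H.1 := by
    rintro ⟨_, x, rfl⟩
    exact (φ x).2
  let θ : (rg (H.1.subtype.comp φ)).1 →* H.1 :=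
    { toFun := fun y => ⟨(y : G), hmem y⟩
      map_one' := rfl
      map_mul' := fun y z => rfl }
  have h3 := Colim.ι_rel (G := G) (fun H => K1 (MonoidAlgebra ℤ H))
    (fun φ => K1map (mapDomainRingHom ℤ φ)) (rg (H.1.subtype.comp φ)) H 1 θ
    (fun y => by
      show (y : G) = 1 * (y : G) * 1⁻¹
      group)
    (cl (mapUnit (mapDomainRingHom ℤ (rrg (H.1.subtype.comp φ))) (unit1 u)))
  rw [sym_apply] at h2
  have h4 : θ.comp (rrg (H.1.subtype.comp φ)) = φ := by
    ext x
    rfl
  rw [K1map_cl, mapUnit_comp, h4] at h3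
  rw [h3]
  exact h2

theorem cov_all (z : K1Colim ℤ G) : Cov ℤ z := by
  induction z using Colim.induction with
  | h0 => exact Cov.zero ℤ
  | hadd x y hx hy => exact Cov.add ℤ hx hy
  | hneg x hx => exact Cov.neg ℤ hx
  | hι H x =>
    have := H.2
    obtain ⟨k, hk, h1⟩ := artin x
    apply Cov.of_nsmul ℤ k hk
    have h2 : k • (Colim.ι _ _ H x : K1Colim ℤ G) = Colim.ι _ _ H (k • x) :=
      ((Colim.ιHom (G := G) (fun H => K1 (MonoidAlgebra ℤ H))
        (fun φ => K1map (mapDomainRingHom ℤ φ)) H).map_nsmul k _).symm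
    rw [h2]
    generalize k • x = y at h1 ⊢
    induction h1 using AddSubgroup.closure_induction with
    | mem y hy =>
      obtain ⟨C, hC, n, M, rfl⟩ := hy
      rw [← K1map_cl]
      exact @cov_comm G _ H C (IsCyclic.commGroup) _ C.subtype Subtype.val_injective (cl M)
    | zero =>
      have : (Colim.ι _ _ H (0 : K1 (MonoidAlgebra ℤ H.1)) : K1Colim ℤ G) = 0 :=
        (Colim.ιHom (G := G) (fun H => K1 (MonoidAlgebra ℤ H))
          (fun φ => K1map (mapDomainRingHom ℤ φ)) H).map_zero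
      rw [this]
      exact Cov.zero ℤ
    | add x y _ _ hx hy =>
      rw [Colim.ι_add]
      exact Cov.add ℤ hx hy
    | neg x _ hx =>
      have : (Colim.ι _ _ H (-x) : K1Colim ℤ G) = - Colim.ι _ _ H x :=
        (Colim.ιHom (G := G) (fun H => K1 (MonoidAlgebra ℤ H))
          (fun φ => K1map (mapDomainRingHom ℤ φ)) H).map_neg x
      rw [this]
      exact Cov.neg ℤ hx

/-! ### The separation theorem -/

section sep

variable {A} {p : ℕ} [hp : Fact p.Prime] (j : A →+* ℤ_[p]) (hj : Function.Injective j)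

/-- the trace on the colimit -/
theorem exists_TT (hodd : Odd p) : ∃ T : (G → ℤ) → K1 (MonoidAlgebra A G) →+ Lam p,
    ∀ h : G → ℤ, (∀ x y, h (x * y) = h (y * x)) →
      (∀ (C : Type) [CommGroup C] [Fintype C] (_ : Nat.card C ∣ p - 1) (φ : C →* G)
        (u : Additive (MonoidAlgebra A C)ˣ),
        T h (cl (mapUnit (mapDomainRingHom A φ) (unit1 u.toMul))) =
          ∑ c, bb j u c * ((h (φ c) : ℤ) : Lam p)) ∧
      (∀ (C : Type) [CommGroup C] (φ : C →* G) (u : (MonoidAlgebra A C)ˣ),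
        (∀ n, (u : MonoidAlgebra A C) ^ p ^ (n + 1) =
          mapDomainRingHom A (powMonoidHom p) (u : MonoidAlgebra A C) ^ p ^ n) →
        T h (cl (mapUnit (mapDomainRingHom A φ) (unit1 u))) = 0) := by
  classical
  refine ⟨fun h => if hh : ∀ x y, h (x * y) = h (y * x) then
    (exists_TK j hodd h hh).choose else 0, ?_⟩
  intro h hh
  beta_reduce
  rw [dif_pos hh]
  exact (exists_TK j hodd h hh).choose_spec

include hj in
/-- A combination of classes of units of group rings of abelian subgroups of order dividing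
`p - 1` whose image in `K₁(A[G])` is killed by all the traces is torsion. -/
theorem separation (T : (G → ℤ) → K1 (MonoidAlgebra A G) →+ Lam p)
    (hT : ∀ h : G → ℤ, (∀ x y, h (x * y) = h (y * x)) →
      (∀ (C : Type) [CommGroup C] [Fintype C] (_ : Nat.card C ∣ p - 1) (φ : C →* G)
        (u : Additive (MonoidAlgebra A C)ˣ),
        T h (cl (mapUnit (mapDomainRingHom A φ) (unit1 u.toMul))) =
          ∑ c, bb j u c * ((h (φ c) : ℤ) : Lam p))) {y : K1Colim A G} (hy : y ∈ SE A G (p - 1))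
    (h0 : ∀ h : G → ℤ, (∀ x y, h (x * y) = h (y * x)) → T h (K1assembly A G y) = 0) :
    ∃ k : ℕ, 0 < k ∧ k • y = 0 := by
  refine Theory.main (S := theory j hj) (G := G) (𝒜 := K1Colim A G)
    (fun {C} _ _ φ => sym A φ) ?_ (fun h => (T h).comp (K1assembly A G)) ?_ hy h0
  · intro C D _ _ _ _ φ ψ f g h u
    exact sym_map A φ ψ f g h u
  · intro h hh C _ _ hC φ u
    exact (congrArg (T h) (assembly_sym A φ u)).trans (hT h hh C hC φ u)

end sep

theorem trivialUnits_le {B : Type*} [AddCommGroup B] (T : K1 (MonoidAlgebra ℤ G) →+ B) {p : ℕ}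
    (hodd : Odd p)
    (hT : ∀ (C : Type) [CommGroup C] (φ : C →* G) (u : (MonoidAlgebra ℤ C)ˣ),
        (∀ n, (u : MonoidAlgebra ℤ C) ^ p ^ (n + 1) =
          mapDomainRingHom ℤ (powMonoidHom p) (u : MonoidAlgebra ℤ C) ^ p ^ n) →
        T (cl (mapUnit (mapDomainRingHom ℤ φ) (unit1 u))) = 0) :
    trivialUnits G ≤ T.ker := by
  unfold trivialUnits
  rw [AddSubgroup.closure_le]
  rintro c ⟨g, M, hM, rfl⟩
  show T (K1.mk M) = 0
  let φ : Multiplicative ℤ →* G := zpowersHom G g
  have hφ : φ (Multiplicative.ofAdd 1) = g := by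
    show g ^ (1 : ℤ) = g
    rw [zpow_one]
  have key : ∀ (u : (MonoidAlgebra ℤ (Multiplicative ℤ))ˣ),
      (M : Matrix (Fin 1) (Fin 1) (MonoidAlgebra ℤ G)) 0 0 =
        mapDomainRingHom ℤ φ (u : MonoidAlgebra ℤ (Multiplicative ℤ)) →
      K1.mk M = cl (mapUnit (mapDomainRingHom ℤ φ) (unit1 u)) := by
    intro u hu
    rw [← cl_fin]
    apply cl_congr (Equiv.equivPUnit (Fin 1) : Fin 1 ≃ Unit)
    intro i k
    rw [Subsingleton.elim i 0, Subsingleton.elim k 0, hu]
    rfl
  let v : (MonoidAlgebra ℤ (Multiplicative ℤ))ˣ :=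
    { val := single (Multiplicative.ofAdd 1) 1
      inv := single (Multiplicative.ofAdd 1)⁻¹ 1
      val_inv := by rw [single_mul_single, mul_inv_cancel, one_mul, one_def]
      inv_val := by rw [single_mul_single, inv_mul_cancel, one_mul, one_def] }
  rcases hM with h | h
  · rw [key v (by
      rw [h]
      show _ = mapDomainRingHom ℤ φ (single (Multiplicative.ofAdd 1) 1)
      rw [mapDomainRingHom_apply, mapDomain_single, hφ, of_apply])]
    apply hT
    intro n
    show (single (Multiplicative.ofAdd 1) 1 : MonoidAlgebra ℤ (Multiplicative ℤ)) ^ p ^ (n + 1) =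
      mapDomainRingHom ℤ (powMonoidHom p) (single (Multiplicative.ofAdd 1) 1) ^ p ^ n
    rw [mapDomainRingHom_apply, mapDomain_single, single_pow, single_pow, powMonoidHom_apply,
      one_pow, one_pow, ← pow_mul, pow_succ']
  · rw [key (-v) (by
      rw [h]
      show _ = mapDomainRingHom ℤ φ (-single (Multiplicative.ofAdd 1) 1)
      rw [map_neg, mapDomainRingHom_apply, mapDomain_single, hφ, of_apply])]
    apply hT
    intro n
    show (-single (Multiplicative.ofAdd 1) 1 : MonoidAlgebra ℤ (Multiplicative ℤ)) ^ p ^ (n + 1) =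
      mapDomainRingHom ℤ (powMonoidHom p) (-single (Multiplicative.ofAdd 1) 1) ^ p ^ n
    rw [map_neg, mapDomainRingHom_apply, mapDomain_single, (hodd.pow).neg_pow, (hodd.pow).neg_pow,
      single_pow, single_pow, powMonoidHom_apply, one_pow, one_pow, ← pow_mul, pow_succ']

/-- **Theorem.** If the image in `Wh(G)` of an element of `colim K₁(ℤ[H])` is torsion, then the
element is torsion. -/
theorem K1_main (x : K1Colim ℤ G) (n : ℕ) (hn : 0 < n)
    (hx : n • K1assembly ℤ G x ∈ trivialUnits G) : ∃ k : ℕ, 0 < k ∧ k • x = 0 := by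
  obtain ⟨k, E, hk, hE, h1⟩ := cov_all x
  obtain ⟨p, hp, hp2, hpE⟩ := Nat.exists_prime_gt_modEq_one 2 hE.ne'
  have : Fact p.Prime := ⟨hp⟩
  have hodd : Odd p := hp.odd_of_ne_two (by omega)
  have hE' : E ∣ p - 1 := (Nat.modEq_iff_dvd' hp.one_lt.le).1 hpE.symm
  obtain ⟨T, hT⟩ := exists_TT (G := G) (Int.castRingHom ℤ_[p]) hodd
  have h2 : n • (k • x) ∈ SE ℤ G (p - 1) := AddSubgroup.nsmul_mem _ (SE_mono ℤ hE' h1) n
  obtain ⟨l, hl, h3⟩ := separation (Int.castRingHom ℤ_[p]) (Int.cast_injective) T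
    (fun h hh => (hT h hh).1) h2 (by
      intro h hh
      have h4 := trivialUnits_le (T h) hodd (hT h hh).2 hx
      rw [smul_smul, mul_comm, mul_smul, map_nsmul, map_nsmul, map_nsmul]
      have h5 : T h (n • K1assembly ℤ G x) = 0 := h4
      rw [h5, smul_zero])
  refine ⟨l * (n * k), Nat.mul_pos hl (Nat.mul_pos hn hk), ?_⟩
  rw [mul_smul, mul_smul, h3]

/-- **Theorem.** The kernel of `colim Wh(H) → Wh(G)` is a torsion group; more generally, an element
with torsion image is torsion. -/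
theorem Wh_main (x : WhColim G) (n : ℕ) (hn : 0 < n) (hx : n • Whassembly G x = 0) :
    ∃ k : ℕ, 0 < k ∧ k • x = 0 := by
  obtain ⟨y, rfl⟩ := toWh_surjective x
  rw [Whassembly_toWh, ← map_nsmul, QuotientAddGroup.mk'_apply, QuotientAddGroup.eq_zero_iff] at hx
  obtain ⟨k, hk, h1⟩ := K1_main y n hn hx
  exact ⟨k, hk, by rw [← map_nsmul, h1, map_zero]⟩

end

end Pool.Agent.Y69.Main
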