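import Pool.Agent.Y69.ColAsm

/-!
# Whitehead groups and their colimit over the finite subgroups
-/

namespace Pool.Agent.Y69.FJ

noncomputable section

/-- The relations `[M N] = [M] + [N]` and `[M ⊕ 1] = [M]` for invertible matrices over `R`. -/
def K1Rel (R : Type) [Ring R] : Set (FreeAbelianGroup (Σ n : ℕ, (Matrix (Fin n) (Fin n) R)ˣ)) :=
  {x | (∃ (n : ℕ) (M N : (Matrix (Fin n) (Fin n) R)ˣ), x = FreeAbelianGroup.of ⟨n, M * N⟩ -
        (FreeAbelianGroup.of ⟨n, M⟩ + FreeAbelianGroup.of ⟨n, N⟩)) ∨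
      (∃ (n : ℕ) (M : (Matrix (Fin n) (Fin n) R)ˣ) (N : (Matrix (Fin (n + 1)) (Fin (n + 1)) R)ˣ),
        (N : Matrix (Fin (n + 1)) (Fin (n + 1)) R) =
          Matrix.reindex finSumFinEquiv finSumFinEquiv
            (Matrix.fromBlocks (M : Matrix (Fin n) (Fin n) R) 0 0 (1 : Matrix (Fin 1) (Fin 1) R)) ∧
        x = FreeAbelianGroup.of ⟨n + 1, N⟩ - FreeAbelianGroup.of ⟨n, M⟩)}

/-- `K₁(R)`: the abelian group generated by the classes `[M]` of the invertible matrices over `R`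
with the relations `[M N] = [M] + [N]` and `[M ⊕ 1] = [M]`. -/
def K1 (R : Type) [Ring R] : Type :=
  FreeAbelianGroup (Σ n : ℕ, (Matrix (Fin n) (Fin n) R)ˣ) ⧸ AddSubgroup.closure (K1Rel R)

instance (R : Type) [Ring R] : AddCommGroup (K1 R) :=
  QuotientAddGroup.Quotient.addCommGroup (AddSubgroup.closure (K1Rel R))

/-- The class `[M]` in `K₁(R)` of an invertible matrix. -/
def K1.mk {R : Type} [Ring R] {n : ℕ} (M : (Matrix (Fin n) (Fin n) R)ˣ) : K1 R :=
  QuotientAddGroup.mk (FreeAbelianGroup.of ⟨n, M⟩)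

theorem K1.mk_eq_zero {R : Type} [Ring R]
    {x : FreeAbelianGroup (Σ n : ℕ, (Matrix (Fin n) (Fin n) R)ˣ)} (hx : x ∈ K1Rel R) :
    (QuotientAddGroup.mk x : K1 R) = 0 :=
  (QuotientAddGroup.eq_zero_iff x).2 (AddSubgroup.subset_closure hx)

theorem K1.mk_stab {R : Type} [Ring R] {n : ℕ} (M : (Matrix (Fin n) (Fin n) R)ˣ)
    (N : (Matrix (Fin (n + 1)) (Fin (n + 1)) R)ˣ)
    (h : (N : Matrix (Fin (n + 1)) (Fin (n + 1)) R) =
          Matrix.reindex finSumFinEquiv finSumFinEquiv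
            (Matrix.fromBlocks (M : Matrix (Fin n) (Fin n) R) 0 0
              (1 : Matrix (Fin 1) (Fin 1) R))) : K1.mk N - K1.mk M = 0 := by
  have h1 : (FreeAbelianGroup.of (⟨n + 1, N⟩ : Σ n : ℕ, (Matrix (Fin n) (Fin n) R)ˣ) -
    FreeAbelianGroup.of ⟨n, M⟩) ∈ K1Rel R := Or.inr ⟨n, M, N, h, rfl⟩
  exact K1.mk_eq_zero h1

theorem K1.mk_mul {R : Type} [Ring R] {n : ℕ} (M N : (Matrix (Fin n) (Fin n) R)ˣ) :
    K1.mk (M * N) - (K1.mk M + K1.mk N) = 0 := by
  have h1 : (FreeAbelianGroup.of (⟨n, M * N⟩ : Σ n : ℕ, (Matrix (Fin n) (Fin n) R)ˣ) -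
    (FreeAbelianGroup.of ⟨n, M⟩ + FreeAbelianGroup.of ⟨n, N⟩)) ∈ K1Rel R :=
    Or.inl ⟨n, M, N, rfl⟩
  exact K1.mk_eq_zero h1

/-- The entrywise image of an invertible matrix under a ring homomorphism. -/
def mapGL {R S : Type} [Ring R] [Ring S] (f : R →+* S) {n : ℕ} (M : (Matrix (Fin n) (Fin n) R)ˣ) :
    (Matrix (Fin n) (Fin n) S)ˣ :=
  Units.map (f.mapMatrix : Matrix (Fin n) (Fin n) R →+* Matrix (Fin n) (Fin n) S).toMonoidHom M

/-- The homomorphism with `M ↦ [f(M)]` on the free abelian group on the invertible matrices. -/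
def K1.premap {R S : Type} [Ring R] [Ring S] (f : R →+* S) :
    FreeAbelianGroup (Σ n : ℕ, (Matrix (Fin n) (Fin n) R)ˣ) →+ K1 S :=
  FreeAbelianGroup.lift fun x => K1.mk (mapGL f x.2)

theorem K1.map_aux {R S : Type} [Ring R] [Ring S] (f : R →+* S) :
    AddSubgroup.closure (K1Rel R) ≤ (K1.premap f).ker := by
  rw [AddSubgroup.closure_le]
  rintro x (⟨n, M, N, rfl⟩ | ⟨n, M, N, hN, rfl⟩)
  · show K1.premap f _ = 0
    rw [map_sub, map_add]
    unfold K1.premap
    rw [FreeAbelianGroup.lift_apply_of, FreeAbelianGroup.lift_apply_of,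
      FreeAbelianGroup.lift_apply_of]
    have h : mapGL f (M * N) = mapGL f M * mapGL f N := map_mul _ _ _
    rw [h]
    exact K1.mk_mul _ _
  · show K1.premap f _ = 0
    rw [map_sub]
    unfold K1.premap
    rw [FreeAbelianGroup.lift_apply_of, FreeAbelianGroup.lift_apply_of]
    apply K1.mk_stab
    show ((N : Matrix (Fin (n + 1)) (Fin (n + 1)) R)).map f = _
    rw [hN]
    ext i j
    show f ((Matrix.fromBlocks (M : Matrix (Fin n) (Fin n) R) 0 0 1)
      (finSumFinEquiv.symm i) (finSumFinEquiv.symm j)) =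
      (Matrix.fromBlocks ((M : Matrix (Fin n) (Fin n) R).map f) 0 0 1)
      (finSumFinEquiv.symm i) (finSumFinEquiv.symm j)
    rcases finSumFinEquiv.symm i with a | a <;> rcases finSumFinEquiv.symm j with b | b
    · rfl
    · exact map_zero f
    · exact map_zero f
    · rw [Matrix.fromBlocks_apply₂₂, Matrix.fromBlocks_apply₂₂, Subsingleton.elim a b,
        Matrix.one_apply_eq, Matrix.one_apply_eq, map_one]

/-- The map `K₁(f) : K₁(R) → K₁(S)`, `[M] ↦ [f(M)]`, induced by a ring homomorphism `f`. -/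
def K1.map {R S : Type} [Ring R] [Ring S] (f : R →+* S) : K1 R →+ K1 S :=
  QuotientAddGroup.lift (AddSubgroup.closure (K1Rel R)) (K1.premap f) (K1.map_aux f)

theorem K1.map_mk {R S : Type} [Ring R] [Ring S] (f : R →+* S) {n : ℕ}
    (M : (Matrix (Fin n) (Fin n) R)ˣ) :
    K1.map f (K1.mk M) = K1.mk (mapGL f M) := by
  show QuotientAddGroup.lift _ _ _ (QuotientAddGroup.mk _) = _
  rw [QuotientAddGroup.lift_mk, K1.premap, FreeAbelianGroup.lift_apply_of]

/-- The subgroup of `K₁(ℤ[G])` generated by the classes of the units `g` and `-g`, `g ∈ G`. -/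
def trivialUnits (G : Type) [Group G] : AddSubgroup (K1 (MonoidAlgebra ℤ G)) :=
  AddSubgroup.closure {c | ∃ (g : G) (M : (Matrix (Fin 1) (Fin 1) (MonoidAlgebra ℤ G))ˣ),
    ((M : Matrix (Fin 1) (Fin 1) (MonoidAlgebra ℤ G)) 0 0 = MonoidAlgebra.of ℤ G g ∨
      (M : Matrix (Fin 1) (Fin 1) (MonoidAlgebra ℤ G)) 0 0 = -MonoidAlgebra.of ℤ G g) ∧
        c = K1.mk M}

/-- The Whitehead group `Wh(G) = K₁(ℤ[G]) / {±g : g ∈ G}`. -/
def Wh (G : Type) [Group G] : Type := K1 (MonoidAlgebra ℤ G) ⧸ trivialUnits G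

instance (G : Type) [Group G] : AddCommGroup (Wh G) :=
  QuotientAddGroup.Quotient.addCommGroup (trivialUnits G)

theorem Wh.map_aux {G H : Type} [Group G] [Group H] (φ : G →* H) :
    trivialUnits G ≤ (trivialUnits H).comap (K1.map (MonoidAlgebra.mapDomainRingHom ℤ φ)) := by
  unfold trivialUnits
  rw [AddSubgroup.closure_le]
  rintro c ⟨g, M, hM, rfl⟩
  refine AddSubgroup.subset_closure ⟨φ g, mapGL (MonoidAlgebra.mapDomainRingHom ℤ φ) M, ?_,
    K1.map_mk _ _⟩
  show MonoidAlgebra.mapDomainRingHom ℤ φ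
      ((M : Matrix (Fin 1) (Fin 1) (MonoidAlgebra ℤ G)) 0 0) = _ ∨
    MonoidAlgebra.mapDomainRingHom ℤ φ
      ((M : Matrix (Fin 1) (Fin 1) (MonoidAlgebra ℤ G)) 0 0) = _
  rcases hM with h | h
  · left
    rw [h, MonoidAlgebra.of_apply, MonoidAlgebra.of_apply,
      MonoidAlgebra.mapDomainRingHom_apply, MonoidAlgebra.mapDomain_single]
  · right
    rw [h, map_neg, MonoidAlgebra.of_apply, MonoidAlgebra.of_apply,
      MonoidAlgebra.mapDomainRingHom_apply, MonoidAlgebra.mapDomain_single]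

/-- The map `Wh(φ) : Wh(G) → Wh(H)` induced by a group homomorphism `φ`. -/
def Wh.map {G H : Type} [Group G] [Group H] (φ : G →* H) : Wh G →+ Wh H :=
  QuotientAddGroup.map (trivialUnits G) (trivialUnits H)
    (K1.map (MonoidAlgebra.mapDomainRingHom ℤ φ)) (Wh.map_aux φ)

/-- The finite subgroups of `G`. -/
def FinSub (G : Type) [Group G] : Type := {H : Subgroup G // Finite H}

/-- The set of the symbols `[H, x]`, for `H` a finite subgroup of `G` and `x ∈ Wh(H)`. -/
def Sym (G : Type) [Group G] : Type := Σ H : FinSub G, Wh H.1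

/-- The symbol `[H, x]` as an element of the free abelian group on the symbols. -/
def sym {G : Type} [Group G] (H : FinSub G) (x : Wh H.1) : FreeAbelianGroup (Sym G) :=
  FreeAbelianGroup.of ⟨H, x⟩

/-- The relations of `colim Wh(H)`: the symbols `[H, x]` are additive in `x`, and
`[K, Wh(φ)(x)] = [H, x]` if `φ : H → K` is given by conjugation with an element of `G`. -/
def ColimRel (G : Type) [Group G] : Set (FreeAbelianGroup (Sym G)) :=
  {z | (∃ (H : FinSub G) (x y : Wh H.1), z = sym H (x + y) - (sym H x + sym H y)) ∨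
    ∃ (H K : FinSub G) (g : G) (φ : H.1 →* K.1) (x : Wh H.1),
      (∀ h : H.1, (φ h : G) = g * h * g⁻¹) ∧ z = sym K (Wh.map φ x) - sym H x}

/-- `colim Wh(H)` over the finite subgroups `H` of `G`. -/
def ColimWh (G : Type) [Group G] : Type :=
  FreeAbelianGroup (Sym G) ⧸ AddSubgroup.closure (ColimRel G)

instance (G : Type) [Group G] : AddCommGroup (ColimWh G) :=
  QuotientAddGroup.Quotient.addCommGroup (AddSubgroup.closure (ColimRel G))

theorem Wh.compat {G : Type} [Group G] (H K : FinSub G) (g : G) (φ : H.1 →* K.1)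
    (hφ : ∀ h : H.1, (φ h : G) = g * h * g⁻¹) (x : Wh H.1) :
    Wh.map K.1.subtype (Wh.map φ x) = Wh.map H.1.subtype x := by
  obtain ⟨y, rfl⟩ := QuotientAddGroup.mk'_surjective (trivialUnits H.1) x
  exact congrArg (QuotientAddGroup.mk' (trivialUnits G)) (K1_compat ℤ g φ hφ y)

/-- The homomorphism with `[H, x] ↦ Wh(i)(x)`, where `i : H → G` is the inclusion. -/
def assemblyPre (G : Type) [Group G] : FreeAbelianGroup (Sym G) →+ Wh G :=
  FreeAbelianGroup.lift fun s => Wh.map s.1.1.subtype s.2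

theorem assemblyPre_sym {G : Type} [Group G] (H : FinSub G) (x : Wh H.1) :
    assemblyPre G (sym H x) = Wh.map H.1.subtype x :=
  FreeAbelianGroup.lift_apply_of _ _

theorem assembly_aux (G : Type) [Group G] :
    AddSubgroup.closure (ColimRel G) ≤ (assemblyPre G).ker := by
  rw [AddSubgroup.closure_le]
  rintro x (⟨H, x, y, rfl⟩ | ⟨H, K, g, φ, x, hφ, rfl⟩)
  · show assemblyPre G _ = 0
    rw [map_sub, map_add, assemblyPre_sym, assemblyPre_sym, assemblyPre_sym, map_add, sub_self]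
  · show assemblyPre G _ = 0
    rw [map_sub, assemblyPre_sym, assemblyPre_sym, sub_eq_zero]
    exact Wh.compat H K g φ hφ x

/-- The assembly map `colim Wh(H) → Wh(G)`, `[H, x] ↦ Wh(i)(x)`, where `i : H → G` is the
inclusion of the finite subgroup `H`. -/
def assembly (G : Type) [Group G] : ColimWh G →+ Wh G :=
  QuotientAddGroup.lift (AddSubgroup.closure (ColimRel G)) (assemblyPre G) (assembly_aux G)

end

end Pool.Agent.Y69.FJ
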