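import Pool.Agent.Y69.WhDef
import Pool.Agent.Y69.Main

/-!
# The main theorem for the groups of `WhDef`
-/

namespace Pool.Agent.Y69.FJ

theorem main (G : Type) [Group G] (x : ColimWh G) (n : ℕ) (hn : 0 < n)
    (hx : n • assembly G x = 0) : ∃ k : ℕ, 0 < k ∧ k • x = 0 :=
  Pool.Agent.Y69.Main.Wh_main (G := G) x n hn hx

end Pool.Agent.Y69.FJ
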